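import Pool.Agent.Lib.MP_87d05f_lc.CC.Stm

set_option autoImplicit false

/-!
# The blocks: permutation, sizes, number (helper78)
-/

namespace Pool.Agent.Lib.MP_87d05f_lc.CC

open Pool.Agent.Lib.MP_87d05f_lc Pool.Agent.Lib.MP_87d05f_lc.SP Pool.Agent.PolyTime

theorem BL_flat {α β : Type} (F : α → List β) (l : List α) : ∀ n : ℕ,
    (l.zipIdx n).flatMap (fun q => F q.1) = l.flatMap F := by
  induction l with
  | nil => intro n; simp
  | cons a l ih =>
    intro n
    rw [List.zipIdx_cons, List.flatMap_cons, List.flatMap_cons, ih]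

theorem BL_map {α β : Type} (F : α → β) (l : List α) : ∀ n : ℕ,
    (l.zipIdx n).map (fun q => F q.1) = l.map F := by
  induction l with
  | nil => intro n; simp
  | cons a l ih =>
    intro n
    rw [List.zipIdx_cons, List.map_cons, List.map_cons, ih]

theorem BL_cat (B : ℕ) (vs : List ℕ) : ∀ k : ℕ,
    ((List.range k).flatMap (fun i => (vs.drop (B * i)).take B)) ++ vs.drop (B * k) = vs := by
  intro k
  induction k with
  | zero => simp
  | succ k ih =>
    rw [List.range_succ, List.flatMap_append, List.append_assoc]
    have h : ([k].flatMap fun i => (vs.drop (B * i)).take B) ++ vs.drop (B * (k + 1)) =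
        vs.drop (B * k) := by
      rw [List.flatMap_singleton]
      have h2 : vs.drop (B * (k + 1)) = (vs.drop (B * k)).drop B := by
        rw [List.drop_drop, Nat.mul_succ]
      rw [h2, List.take_append_drop]
    rw [h, ih]

theorem BL_fuls (B : ℕ) (P : List (Pt ℕ)) :
    (fuls B P).flatMap (fun q => q.2) = P.flatMap (fun p =>
      (List.range (mydiv p.1.length B)).flatMap (fun i => (p.1.drop (B * i)).take B)) := by
  unfold fuls
  rw [List.flatMap_assoc]
  rw [← BL_flat (fun p : Pt ℕ =>
      (List.range (mydiv p.1.length B)).flatMap (fun i => (p.1.drop (B * i)).take B)) P 0]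
  congr 1
  funext q
  rw [List.flatMap_map]

theorem BL_gful (tb : List (List Bool × List ℕ)) (W B : ℕ) (P : List (Pt ℕ)) (s : List Bool) :
    (gful tb W B P s).flatMap (fun f => f.2.1) = (fuls B P).flatMap (fun q => q.2) := by
  unfold gful
  rw [List.flatMap_map]
  exact BL_flat (fun q : ℕ × List ℕ => q.2) (fuls B P) 0

theorem BL_rems (tb : List (List Bool × List ℕ)) (W B d : ℕ) (P : List (Pt ℕ)) (s : List Bool) :
    (rems tb W B d P s).flatMap Prod.fst =
      P.flatMap (fun p => p.1.drop (B * mydiv p.1.length B)) := by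
  unfold rems
  rw [List.flatMap_map]
  exact BL_flat (fun p : Pt ℕ => p.1.drop (B * mydiv p.1.length B)) P 0

theorem BL_blks (tb : List (List Bool × List ℕ)) (W B d : ℕ) (P : List (Pt ℕ)) (s : List Bool) :
    ((blks tb W B d P s).flatMap Prod.fst).Perm (P.flatMap Prod.fst) := by
  have h1 : (blks tb W B d P s).flatMap Prod.fst =
      (P.flatMap (fun p => (List.range (mydiv p.1.length B)).flatMap
        (fun i => (p.1.drop (B * i)).take B))) ++
      P.flatMap (fun p => p.1.drop (B * mydiv p.1.length B)) := by
    unfold blks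
    rw [List.flatMap_map]
    rw [List.flatMap_append]
    rw [List.flatMap_map]
    rw [← BL_fuls, ← BL_gful tb W B P s, ← BL_rems tb W B d P s]
    rfl
  rw [h1]
  refine (List.flatMap_append_perm P _ _).trans ?_
  apply List.Perm.of_eq
  congr 1
  funext p
  exact BL_cat B p.1 _

theorem BL_nrm (d : ℕ) (p : Pt ℕ) : ∀ c ∈ (nrm d p).2, c.length = d ∧ c.sum = (nrm d p).1.length := by
  intro c hc
  simp only [nrm, List.mem_filter, Bool.and_eq_true, decide_eq_true_eq] at hc
  exact hc.2

theorem BL_num (B : ℕ) (hB : 0 < B) (P : List (Pt ℕ)) :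
    B * (fuls B P).length ≤ (P.flatMap Prod.fst).length := by
  have h1 : (fuls B P).length = (P.map (fun p => mydiv p.1.length B)).sum := by
    unfold fuls
    rw [List.length_flatMap]
    simp only [List.length_map, List.length_range]
    rw [BL_map (fun p : Pt ℕ => mydiv p.1.length B) P 0]
  rw [h1, List.length_flatMap]
  clear h1
  induction P with
  | nil => simp
  | cons p P ih =>
    simp only [List.map_cons, List.sum_cons]
    rw [Nat.mul_add]
    refine Nat.add_le_add ?_ ih
    rw [mydiv_eq hB]
    exact Nat.mul_div_le _ _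

theorem BL_fulsN (B d : ℕ) (P : List (Pt ℕ)) : fuls B (P.map (nrm d)) = fuls B P := by
  unfold fuls
  have h : ∀ n : ℕ, ((P.map (nrm d)).zipIdx n).flatMap (fun q =>
      (List.range (mydiv q.1.1.length B)).map (fun i => (q.2, (q.1.1.drop (B * i)).take B))) =
      (P.zipIdx n).flatMap (fun q =>
      (List.range (mydiv q.1.1.length B)).map (fun i => (q.2, (q.1.1.drop (B * i)).take B))) := by
    induction P with
    | nil => intro n; simp
    | cons p P ih =>
      intro n
      rw [List.map_cons, List.zipIdx_cons, List.zipIdx_cons, List.flatMap_cons,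
        List.flatMap_cons, ih]
      rfl
  exact h 0

theorem BL_cnt (d : ℕ) (a : ℕ → Fin d) (vs : List ℕ) :
    (cnt d (fun v => (a v : ℕ)) vs).length = d ∧
      (cnt d (fun v => (a v : ℕ)) vs).sum = vs.length := by
  constructor
  · simp [cnt]
  · unfold cnt
    induction vs with
    | nil => simp
    | cons v vs ih =>
      have h1 : (fun k => ((v :: vs).filter (fun v => decide ((a v : ℕ) = k))).length) =
          fun k => (if (a v : ℕ) = k then 1 else 0) +
            (vs.filter (fun v => decide ((a v : ℕ) = k))).length := by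
        funext k
        rw [List.filter_cons]
        by_cases h : (a v : ℕ) = k
        · simp [h, Nat.add_comm]
        · simp [h]
      rw [h1, List.sum_map_add, ih, List.length_cons, Nat.add_comm]
      congr 1
      have h2 : ∀ n : ℕ, ∀ x : ℕ, x < n →
          ((List.range n).map (fun k => if x = k then 1 else 0)).sum = 1 := by
        intro n x hx
        have h3 : ((List.range n).map (fun k => if x = k then 1 else 0)).sum =
            ∑ k ∈ Finset.range n, (if x = k then 1 else 0) := by
          rw [Finset.sum_range]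
          rw [← List.sum_ofFn]
          congr 1
          apply List.ext_getElem
          · simp
          · intro i h1 h2
            simp
        rw [h3, Finset.sum_ite_eq]
        simp [hx]
      exact h2 d (a v) (a v).2

theorem BL_mat {d : ℕ} (a : ℕ → Fin d) (P : List (Pt ℕ)) :
    MaT a (P.map (nrm d)) ↔ MaT a P := by
  unfold MaT Mat
  constructor
  · intro h p hp
    have := h (nrm d p) (List.mem_map_of_mem hp)
    simp only [nrm, List.mem_filter] at this
    exact this.1
  · intro h p hp
    obtain ⟨q, hq, rfl⟩ := List.mem_map.1 hp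
    have h1 := h q hq
    simp only [nrm, List.mem_filter, Bool.and_eq_true, decide_eq_true_eq]
    exact ⟨h1, BL_cnt d a q.1⟩

theorem p_BL : S_BL := by
  intro tb W B d P s hB
  refine ⟨?_, ?_, BL_num B hB P, BL_fulsN B d P, ?_, ?_, fun a => BL_mat a P⟩
  · intro hnd
    refine ⟨(BL_blks tb W B d P s).nodup_iff.2 hnd, ?_⟩
    intro b hb
    unfold blks at hb
    obtain ⟨c, hc, rfl⟩ := List.mem_map.1 hb
    refine ⟨?_, BL_nrm d c⟩
    change c.1.length ≤ B
    rcases List.mem_append.1 hc with hc | hc
    · obtain ⟨f, hf, rfl⟩ := List.mem_map.1 hc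
      unfold gful at hf
      obtain ⟨q, hq, rfl⟩ := List.mem_map.1 hf
      have hq1 : q.1 ∈ fuls B P := by
        have := List.mem_map_of_mem (f := Prod.fst) hq
        rwa [List.zipIdx_map_fst] at this
      unfold fuls at hq1
      obtain ⟨r, _, hr⟩ := List.mem_flatMap.1 hq1
      obtain ⟨i, _, hi⟩ := List.mem_map.1 hr
      change q.1.2.length ≤ B
      rw [← hi]
      exact List.length_take_le _ _
    · unfold rems at hc
      obtain ⟨q, hq, rfl⟩ := List.mem_map.1 hc
      change (q.1.1.drop (B * mydiv q.1.1.length B)).length ≤ B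
      rw [List.length_drop, mydiv_eq hB]
      have h1 := Nat.div_add_mod q.1.1.length B
      have h2 := Nat.mod_lt q.1.1.length hB
      omega
  · intro b hb v hv
    exact (BL_blks tb W B d P s).mem_iff.1 (List.mem_flatMap.2 ⟨b, hb, hv⟩)
  · intro b hb
    obtain ⟨c, hc, rfl⟩ := List.mem_map.1 hb
    exact BL_nrm d c
  · rw [List.flatMap_map]
    rfl

end Pool.Agent.Lib.MP_87d05f_lc.CC
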