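import Pool.Agent.Lib.MP_87d05f_lc.CC.Stm
import Pool.Agent.Lib.MP_87d05f_lc.SP.P.tab

set_option autoImplicit false

/-!
# SYMMETRIC SIDE CONSTRAINTS, piece `CO`: the programs on the code of an instance
-/

namespace Pool.Agent.Lib.MP_87d05f_lc.CC

open Pool.Agent.Lib.MP_87d05f_lc Pool.Agent.Lib.MP_87d05f_lc.SP Pool.Agent.PolyTime Turing

theorem CO_toFinset (l : List ℕ) : (l.map Nat.bits).toFinset = l.toFinset.image Nat.bits := by
  ext w
  simp

section

variable {d g : ℕ} {ar : Fin g → ℕ}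

theorem CO_nrm (h2 : S_NA) (P : List (Pt ℕ)) :
    (P.map (mp Nat.bits)).map (nrm d) = (P.map (nrm d)).map (mp Nat.bits) :=
  (h2 [] 0 0 d P []).2.2.1

theorem CO_wBL (h1 : S_PP) (h2 : S_NA) (B W : ℕ) (I : List (Pt ℕ) × List (Con ar))
    (s : List Bool) :
    wBL d B W (enP I, s) = (BLs d B W I.1 s).map (mp Nat.bits) := by
  unfold wBL BLs
  simp only
  rw [h1.2 d g ar I]
  simp only
  rw [CO_nrm h2]
  exact (h2 _ _ _ _ _ _).1

theorem CO_wdep (h1 : S_PP) (h2 : S_NA) (B W : ℕ) (I : List (Pt ℕ) × List (Con ar)) :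
    wdep d B W (enP I) = gbt d B W I.1 := by
  unfold wdep gbt
  rw [h1.2 d g ar I]
  simp only
  rw [CO_nrm h2, (h2 [] 0 B d _ []).2.1, List.length_map]

theorem CO_wvs (h1 : S_PP) (I : List (Pt ℕ) × List (Con ar)) :
    wvs (enP I) = (vsP I).map Nat.bits := by
  unfold wvs vsP
  rw [h1.2 0 g ar I]
  simp only
  rw [vars_wordC, List.map_append]
  have e1 : (I.1.map (mp Nat.bits)).flatMap Prod.fst =
      (I.1.flatMap Prod.fst).map Nat.bits := by
    rw [List.flatMap_map, List.map_flatMap]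
    rfl
  rw [e1]
  rfl

theorem CO_blo (h6 : S_BL) (B W : ℕ) (hB : 0 < B) (I : List (Pt ℕ) × List (Con ar))
    (hI : PrP d I) (s : List Bool) : Blo d B (BLs d B W I.1 s) := by
  unfold BLs
  refine (h6 _ _ _ _ _ _ hB).1 ?_
  rw [(h6 [] 0 B d I.1 [] hB).2.2.2.2.2.1]
  exact hI.1

theorem CO_wqn (h1 : S_PP) (h2 : S_NA) (h3 : S_NB) (h5 : S_TY) (h6 : S_BL) (B W M : ℕ)
    (φ : (i : Fin g) → (Fin (ar i) → Fin d) → ℕ) (hB : 0 < B)
    (I : List (Pt ℕ) × List (Con ar)) (hI : PrP d I) (s : List Bool) :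
    wqn d B W M (tabV φ) (tabS g d B) (enP I, s) =
      (qnC B M φ (BLs d B W I.1 s) I.2).map wordC := by
  rw [← h5 d g B M ar φ (BLs d B W I.1 s) I.2 (CO_blo h6 B W hB I hI s)]
  unfold wqn
  rw [CO_wBL h1 h2]
  simp only
  rw [h1.2 d g ar I]
  simp only
  have e : (I.2.map wordC).map gw = (I.2.map gcn).map (fun c => (c.1, c.2.map Nat.bits)) := by
    rw [List.map_map, List.map_map]
    rfl
  rw [e, h3]

theorem CO_vars (h6 : S_BL) (B W M : ℕ) (hB : 0 < B) (tb : TabV)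
    (tbS : List ((ℕ × List Bool) × List Bool)) (cv : List (List ℕ))
    (I : List (Pt ℕ) × List (Con ar)) (s : List Bool) :
    ∀ c ∈ qns M tb tbS cv d (BLs d B W I.1 s) (I.2.map gcn), ∀ v ∈ c.2, v ∈ vsP I := by
  intro c hc v hv
  unfold qns at hc
  unfold vsP
  rw [List.mem_append]
  rcases List.mem_append.1 hc with hc | hc
  · right
    have hc' := (List.mem_filter.1 hc).1
    obtain ⟨c1, hc1, rfl⟩ := List.mem_map.1 hc'
    exact List.mem_flatMap.2 ⟨c1, hc1, hv⟩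
  · left
    obtain ⟨c0, _, hc⟩ := List.mem_flatMap.1 hc
    obtain ⟨u, _, hc⟩ := List.mem_flatMap.1 hc
    obtain ⟨b, hb, hc⟩ := List.mem_flatMap.1 hc
    have hcb := List.eq_of_mem_replicate hc
    subst hcb
    have hb' := (List.mem_filter.1 hb).1
    have h := (h6 (gtb d B W) W B d (I.1.map (nrm d)) s hB).2.1 b hb' v hv
    rwa [(h6 [] 0 B d I.1 [] hB).2.2.2.2.2.1] at h

theorem CO_nv (h5 : S_TY) (h6 : S_BL) (B W M : ℕ)
    (φ : (i : Fin g) → (Fin (ar i) → Fin d) → ℕ) (hB : 0 < B)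
    (I : List (Pt ℕ) × List (Con ar)) (hI : PrP d I) (s : List Bool) :
    nvC (qnC B M φ (BLs d B W I.1 s) I.2) ≤ nvP I := by
  have hblo := CO_blo h6 B W hB I hI s
  have h := h5 d g B M ar φ (BLs d B W I.1 s) I.2 hblo
  rw [← nvC_eq, ded_length, ← h]
  unfold nvP
  rw [← Finset.card_image_of_injective (vsP I).toFinset bits_injective]
  refine Finset.card_le_card ?_
  intro w hw
  rw [List.mem_toFinset, List.mem_flatMap] at hw
  obtain ⟨x, hx, hw⟩ := hw
  obtain ⟨y, hy, rfl⟩ := List.mem_map.1 hx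
  obtain ⟨z, hz, rfl⟩ := List.mem_map.1 hy
  have hw' : w ∈ z.2.map Nat.bits := hw
  obtain ⟨v, hv, rfl⟩ := List.mem_map.1 hw'
  exact Finset.mem_image_of_mem _ (List.mem_toFinset.2 (CO_vars h6 B W M hB _ _ _ I s z hz v hv))

theorem CO_lkv {g' : ℕ} {ar' : Fin g' → ℕ} (hd : 0 < d) (F : List (Con ar')) (a : ℕ → Fin d)
    (v : ℕ) : lkv (asc (F.map wordC) (outW F a)) (Nat.bits v) = (zer hd F a v : ℕ) := by
  rw [asc_eq]
  unfold zer
  by_cases hv : v ∈ plc F
  · rw [if_pos hv]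
    exact lkv_map (plc F) (fun v => (a v : ℕ)) v hv
  · rw [if_neg hv]
    unfold lkv
    have h : ((plc F).map (fun v => (Nat.bits v, (a v : ℕ)))).find?
        (fun e => decide (e.1 = Nat.bits v)) = none := by
      rw [List.find?_eq_none]
      intro e he
      obtain ⟨u, hu, rfl⟩ := List.mem_map.1 he
      simp only [decide_eq_true_eq]
      intro h
      exact hv (bits_injective h ▸ hu)
    rw [h]

theorem CO_wva (h1 : S_PP) (h2 : S_NA) (h3 : S_NB) (h4 : S_NC) (h5 : S_TY) (h6 : S_BL)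
    (h7 : S_RE) (B W M : ℕ) (φ : (i : Fin g) → (Fin (ar i) → Fin d) → ℕ) (hd : 0 < d)
    (hB : 0 < B) (hM : ∀ i x, φ i x ≤ M) (I : List (Pt ℕ) × List (Con ar)) (hI : PrP d I)
    (s : List Bool) (hok : okB (BLs d B W I.1 s) = true) (a : ℕ → Fin d) (v : ℕ) :
    wva d B W M (tabV φ) (tabS g d B)
        (enP I, (s, outW (qnC B M φ (BLs d B W I.1 s) I.2) a)) (Nat.bits v) =
      (fixT hd (BLs d B W I.1 s) (zer hd (qnC B M φ (BLs d B W I.1 s) I.2) a) v : ℕ) := by
  unfold wva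
  simp only
  rw [CO_wBL h1 h2, CO_wqn h1 h2 h3 h5 h6 B W M φ hB I hI s, h4]
  rw [(h7 d g B M ar φ (BLs d B W I.1 s) I.2 hd _ hM (CO_blo h6 B W hB I hI s) hok).2.1 v]
  congr 1
  funext u
  exact CO_lkv hd _ a u

end

theorem p_CO (h1 : S_PP) (h2 : S_NA) (h3 : S_NB) (h4 : S_NC) (h5 : S_TY) (h6 : S_BL)
    (h7 : S_RE) : S_CO := by
  intro d g B W M b ar φ hd I hB hb hM hI
  refine ⟨CO_wdep h1 h2 B W I, ?_, ?_⟩
  · intro s
    unfold whh nvP
    simp only
    rw [mydiv_eq hb, CO_wvs h1, ded_length, CO_toFinset,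
      Finset.card_image_of_injective _ bits_injective]
  · intro s
    refine ⟨?_, CO_wqn h1 h2 h3 h5 h6 B W M φ hB I hI s, CO_nv h5 h6 B W M φ hB I hI s, ?_⟩
    · rw [CO_wBL h1 h2]
      exact (h2 [] 0 0 0 (BLs d B W I.1 s) []).2.2.2
    · intro hok a
      have hva := CO_wva h1 h2 h3 h4 h5 h6 h7 B W M φ hd hB hM I hI s hok a
      constructor
      · unfold wsc valC
        simp only
        rw [h1.2 d g ar I]
        simp only
        rw [List.map_map]
        refine congrArg List.sum (List.map_congr_left fun c _ => ?_)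
        obtain ⟨t1, t2, -⟩ := SP.tab d g ar φ
        rw [Function.comp_apply, ← t1 (fixT hd (BLs d B W I.1 s)
          (zer hd (qnC B M φ (BLs d B W I.1 s) I.2) a)) c]
        refine t2 _ _ _ fun w hw => ?_
        unfold wordC at hw
        rw [List.tail_cons, List.mem_map] at hw
        obtain ⟨v, hv, rfl⟩ := hw
        rw [unbits_bits]
        exact hva v
      · unfold wou ouP
        simp only
        rw [CO_wvs h1, List.flatMap_map]
        refine List.flatMap_congr fun v _ => ?_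
        rw [hva v]

end Pool.Agent.Lib.MP_87d05f_lc.CC
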