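import Pool.Agent.Lib.MP_87d05f_lc.CC.Stm
import Pool.Agent.Lib.MP_87d05f_lc.SP.P.tab

set_option autoImplicit false

/-!
# Symmetric side constraints: threshold from search
-/

namespace Pool.Agent.Lib.MP_87d05f_lc.CC

open Pool.Agent.Lib.MP_87d05f_lc Pool.Agent.Lib.MP_87d05f_lc.SP Pool.Agent.PolyTime

section

variable {g d : ℕ} {ar : Fin g → ℕ}

/-- the code without the threshold -/
def DC_f (x : List Bool) : List Bool :=
  encW (((parseW x).headD []).tail :: (parseW x).tail)

/-- the association list -/
def DC_as (x w : List Bool) : List (List Bool × ℕ) :=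
  (wvs (DC_f x)).zipIdx.map (fun p => (p.1, (valsU w).getD p.2 0))

/-- the value -/
def DC_val (tb : TabV) (x w : List Bool) : ℕ :=
  ((prsP (DC_f x)).2.map (fun c => payW tb (lkv (DC_as x w)) c)).sum

/-- the answer -/
def DC_out (tb : TabV) (p q : ℕ) (z : List Bool × List Bool) : List Bool :=
  [decide (q * thI z.1 ≤ q * DC_val tb z.1 z.2 + p * thI z.1)]

theorem DC_f_ptime : PTime DC_f := by
  unfold DC_f
  exact encW_ptime (PTime.cons (PTime.tail (PTime.headD parseW_ptime (PTime.const [])))
    (PTime.tail parseW_ptime))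

theorem DC_wvs_ptime (h1 : S_PP) : PTime wvs := by
  unfold wvs
  refine PTime.append ?_ ?_
  · exact PTime.flatMap (f := fun _ (c : Pt (List Bool)) => c.1) (PTime.fst.comp h1.1)
      (PTime.fst.comp PTime.snd)
  · exact PTime.flatMap (f := fun _ (c : List (List Bool)) => c.tail) (PTime.snd.comp h1.1)
      (PTime.tail PTime.snd)

theorem DC_as_ptime (h1 : S_PP) {α : Type} [SCode α] {x w : α → List Bool} (hx : PTime x)
    (hw : PTime w) : PTime (fun a => DC_as (x a) (w a)) := by
  unfold DC_as
  have h2 : PTime (fun a => wvs (DC_f (x a))) := (DC_wvs_ptime h1).comp (DC_f_ptime.comp hx)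
  refine PTime.map (f := fun a (p : List Bool × ℕ) => (p.1, (valsU (w a)).getD p.2 0))
    (PTime.zipIdx h2) ?_
  exact (PTime.fst.comp PTime.snd).pair (PTime.getD (PTime.snd.comp PTime.snd)
    (valsU_ptime.comp (hw.comp PTime.fst)) (PTime.const 0))

theorem DC_val_ptime (h1 : S_PP) (tb : TabV) {α : Type} [SCode α] {x w : α → List Bool}
    (hx : PTime x) (hw : PTime w) : PTime (fun a => DC_val tb (x a) (w a)) := by
  have hG : PTime (fun a => (prsP (DC_f (x a))).2) :=
    PTime.snd.comp (h1.1.comp (DC_f_ptime.comp hx))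
  have h : PTime (fun a => ((prsP (DC_f (x a))).2.flatMap
      (fun c => List.replicate (payW tb (lkv (DC_as (x a) (w a))) c) ())).length) := by
    refine PTime.length (PTime.flatMap
      (f := fun a c => List.replicate (payW tb (lkv (DC_as (x a) (w a))) c) ()) hG ?_)
    exact PTime.replicate (payW_lkv_ptime tb (DC_as_ptime h1 (hx.comp PTime.fst)
      (hw.comp PTime.fst)) PTime.snd) (PTime.const ())
  refine h.of_eq fun a => ?_
  unfold DC_val
  rw [List.length_flatMap]
  simp only [List.length_replicate]

theorem DC_out_ptime (h1 : S_PP) (tb : TabV) (p q : ℕ) : PTime (DC_out tb p q) := by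
  unfold DC_out
  have ht : PTime (fun z : List Bool × List Bool => thI z.1) := thI_ptime.comp PTime.fst
  have hc : PTime (fun z : List Bool × List Bool => DC_val tb z.1 z.2) :=
    DC_val_ptime h1 tb PTime.fst PTime.snd
  exact PTime.cons (PTime.nat_le (PTime.mul (PTime.const q) ht)
    (PTime.add (PTime.mul (PTime.const q) hc) (PTime.mul (PTime.const p) ht))) (PTime.const [])

theorem DC_f_enT (t : ℕ) (I : List (Pt ℕ) × List (Con ar)) : DC_f (enT (t, I)) = enP I := by
  unfold DC_f enT enP
  rw [parseW_encW]
  rfl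

theorem DC_thI (t : ℕ) (I : List (Pt ℕ) × List (Con ar)) : thI (enT (t, I)) = t := by
  unfold thI enT
  rw [parseW_encW]
  simp

theorem DC_wvs (h1 : S_PP) (d : ℕ) (I : List (Pt ℕ) × List (Con ar)) :
    wvs (enP I) = (vsP I).map Nat.bits := by
  unfold wvs vsP
  rw [h1.2 d g ar I]
  simp only
  rw [List.map_append, vars_wordC]
  unfold plc
  congr 1
  rw [List.flatMap_map, List.map_flatMap]
  rfl

theorem DC_len (t : ℕ) (I : List (Pt ℕ) × List (Con ar)) :
    (enP I).length ≤ (enT (t, I)).length := by
  unfold enP enT encW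
  simp only [List.flatMap_cons, List.flatMap_nil, List.append_nil, List.length_append,
    List.length_cons, List.length_nil, List.flatMap_append]
  omega

theorem DC_vsP_length (I : List (Pt ℕ) × List (Con ar)) :
    (vsP I).length ≤ (enP I).length := by
  unfold enP
  refine le_trans ?_ (encW_length _)
  unfold vsP plc
  rw [List.length_append, List.map_cons, List.sum_cons, List.map_append, List.sum_append,
    List.length_flatMap, List.length_flatMap, List.map_map, List.map_flatMap]
  have h2 : (I.1.map (fun p => p.1.length)).sum ≤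
      (I.1.flatMap (fun a => (partC a).map List.length)).sum := by
    induction I.1 with
    | nil => simp
    | cons p P ih =>
      rw [List.map_cons, List.sum_cons, List.flatMap_cons, List.sum_append]
      refine Nat.add_le_add ?_ ih
      unfold partC
      rw [List.map_cons, List.sum_cons, List.length_cons, List.length_map]
      omega
  have h3 : (I.2.map (fun c => (List.ofFn c.2).length)).sum ≤
      (I.2.map (List.length ∘ wordC)).sum := by
    refine List.sum_le_sum fun c _ => ?_
    simp [wordC]
  refine le_trans (Nat.add_le_add h2 h3) ?_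
  omega

theorem DC_ouP_length (I : List (Pt ℕ) × List (Con ar)) (a : ℕ → Fin d) :
    (ouP I a).length ≤ d * (vsP I).length := by
  unfold ouP
  induction vsP I with
  | nil => simp
  | cons v V ih =>
    rw [List.flatMap_cons, List.length_append, List.length_cons, List.length_append,
      List.length_replicate, List.length_singleton, Nat.mul_succ]
    have := (a v).2
    omega

theorem DC_val_eq (h1 : S_PP) (φ : (i : Fin g) → (Fin (ar i) → Fin d) → ℕ) (t : ℕ)
    (I : List (Pt ℕ) × List (Con ar)) (a : ℕ → Fin d) :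
    DC_val (tabV φ) (enT (t, I)) (ouP I a) = valC φ a I.2 := by
  obtain ⟨t1, t2, -⟩ := SP.tab d g ar φ
  have has : DC_as (enT (t, I)) (ouP I a) =
      (vsP I).map (fun v => (Nat.bits v, (a v : ℕ))) := by
    unfold DC_as
    rw [DC_f_enT, DC_wvs h1 d I]
    unfold ouP
    rw [valsU_flatMap (vsP I) (fun v => (a v : ℕ)), zipIdx_map_getD _ _ (by simp),
      List.zip_map']
  unfold DC_val valC
  rw [has, DC_f_enT, h1.2 d g ar I]
  simp only
  rw [List.map_map]
  refine congrArg List.sum (List.map_congr_left fun c hc => ?_)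
  rw [Function.comp_apply, ← t1 a c]
  refine t2 _ _ _ fun w hw => ?_
  unfold wordC at hw
  rw [List.tail_cons, List.mem_map] at hw
  obtain ⟨v, hv, rfl⟩ := hw
  rw [unbits_bits]
  refine lkv_map (vsP I) (fun v => (a v : ℕ)) v ?_
  unfold vsP
  exact List.mem_append_right _ (List.mem_flatMap.2 ⟨c, hc, hv⟩)

theorem DC_nvP (h1 : S_PP) (d : ℕ) (I : List (Pt ℕ) × List (Con ar)) :
    (ded (wvs (enP I))).length = nvP I := by
  rw [ded_length, DC_wvs h1 d]
  unfold nvP
  have h : ∀ l : List ℕ, (l.map Nat.bits).toFinset = l.toFinset.image Nat.bits := by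
    intro l
    ext w
    simp
  rw [h, Finset.card_image_of_injective _ bits_injective]

end

theorem p_DC (h1 : S_PP) (h2 : S_LN) : S_DC := by
  intro d g ar φ p q b hd hp hpq hb hs
  have hq : 0 < q := by omega
  refine sep_of_find ?_
  have hh : PTime (fun x => mydiv (ded (wvs (DC_f x))).length b) :=
    mydiv_ptime (PTime.length (ded_ptime ((DC_wvs_ptime h1).comp DC_f_ptime))) (PTime.const b)
  have hμ : ∀ I : List (Pt ℕ) × List (Con ar), nvP I ≤ (enP I).length := by
    intro I
    unfold nvP
    exact (List.toFinset_card_le _).trans (DC_vsP_length I)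
  refine find_transfer (R := d) DC_f_ptime hh (DC_out_ptime h1 (tabV φ) p q) ?_ ?_ hs
  · rintro ⟨t, I⟩ _
    exact (hμ I).trans (DC_len t I)
  · rintro ⟨t, I⟩ hV
    refine ⟨I, hV, ?_, ?_, ?_, ?_⟩
    · rw [DC_f_enT]
    · rintro w ⟨a, hma, rfl, ha⟩
      constructor
      · have e1 := DC_ouP_length I a
        have e2 := DC_vsP_length I
        have e3 := DC_len t I
        exact e1.trans (Nat.mul_le_mul_left d (by omega))
      · unfold DC_out
        simp only
        rw [DC_thI, DC_val_eq h1 φ t I a]
        have hq' : (0 : ℚ) < ((q : ℕ) : ℚ) := by exact_mod_cast hq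
        constructor
        · rintro ⟨a', ha1, ha2⟩
          simp only at ha1 ha2
          have g1 := ha a' ha1
          have g2 : ((q : ℕ) : ℚ) * ((1 - (p : ℚ) / ((q : ℕ) : ℚ)) *
              ((valC φ a' I.2 : ℕ) : ℚ)) =
              (((q : ℕ) : ℚ) - (p : ℚ)) * ((valC φ a' I.2 : ℕ) : ℚ) := by
            field_simp
          have g3 := mul_le_mul_of_nonneg_left g1 hq'.le
          rw [g2] at g3
          have g4 : (t : ℚ) ≤ ((valC φ a' I.2 : ℕ) : ℚ) := by exact_mod_cast ha2
          have g5 : (0 : ℚ) ≤ ((q : ℕ) : ℚ) - (p : ℚ) := by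
            have : (p : ℚ) ≤ ((q : ℕ) : ℚ) := by exact_mod_cast hpq.le
            linarith
          have g6 := mul_le_mul_of_nonneg_left g4 g5
          have g7 : ((q : ℕ) : ℚ) * (t : ℚ) ≤
              ((q : ℕ) : ℚ) * ((valC φ a I.2 : ℕ) : ℚ) + (p : ℚ) * (t : ℚ) := by
            have g8 : (((q : ℕ) : ℚ) - (p : ℚ)) * (t : ℚ) =
              ((q : ℕ) : ℚ) * (t : ℚ) - (p : ℚ) * (t : ℚ) := by ring
            linarith
          have g9 : q * t ≤ q * valC φ a I.2 + p * t := by exact_mod_cast g7
          rw [decide_eq_true g9]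
        · intro hN
          have g1 := hN a hma
          simp only at g1
          rw [lt_frac_iff hq] at g1
          rw [decide_eq_false (by omega)]
    · rw [DC_f_enT, DC_nvP h1 d, mydiv_eq hb]
    · rw [DC_f_enT, DC_nvP h1 d, mydiv_eq hb]

end Pool.Agent.Lib.MP_87d05f_lc.CC
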