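import Pool.Agent.Lib.MP_87d05f_lc.CC.Stm

set_option autoImplicit false

/-!
# [F1] The right guess
-/

namespace Pool.Agent.Lib.MP_87d05f_lc.CC

open Pool.Agent.Lib.MP_87d05f_lc Pool.Agent.Lib.MP_87d05f_lc.SP Pool.Agent.PolyTime

/-- the number of elements with value `k` -/
def F1_n (A : ℕ → ℕ) (k : ℕ) (vs : List ℕ) : ℕ := (vs.filter (fun v => decide (A v = k))).length

lemma F1_cnt (d : ℕ) (A : ℕ → ℕ) (vs : List ℕ) :
    cnt d A vs = (List.range d).map (fun k => F1_n A k vs) := rfl

lemma F1_cnt_length (d : ℕ) (A : ℕ → ℕ) (vs : List ℕ) : (cnt d A vs).length = d := by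
  simp [cnt]

lemma F1_n_append (A : ℕ → ℕ) (k : ℕ) (u v : List ℕ) :
    F1_n A k (u ++ v) = F1_n A k u + F1_n A k v := by
  simp [F1_n, List.filter_append]

lemma F1_n_le (A : ℕ → ℕ) (k : ℕ) (u : List ℕ) : F1_n A k u ≤ u.length :=
  List.length_filter_le _ _

lemma F1_getD (d : ℕ) (f : ℕ → ℕ) (k : ℕ) (hk : k < d) :
    ((List.range d).map f).getD k 0 = f k := by
  rw [List.getD_eq_getElem?_getD, List.getElem?_map, List.getElem?_range hk]
  rfl

lemma F1_cnt_sum (d : ℕ) (A : ℕ → ℕ) (hA : ∀ v, A v < d) (vs : List ℕ) :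
    (cnt d A vs).sum = vs.length := by
  rw [F1_cnt]
  induction vs with
  | nil =>
    simp [F1_n]
  | cons v vs ih =>
    have h1 : ∀ k, F1_n A k (v :: vs) = (if k = A v then 1 else 0) + F1_n A k vs := by
      intro k
      unfold F1_n
      rw [List.filter_cons]
      by_cases h : A v = k
      · simp [h, add_comm]
      · simp [h, Ne.symm h]
    simp only [h1]
    rw [List.sum_map_add, ih, List.length_cons, add_comm]
    congr 1
    have h2 : ∀ n : ℕ, ((List.range n).map (fun k => if k = A v then 1 else 0)).sum =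
        if A v < n then 1 else 0 := by
      intro n
      induction n with
      | zero => simp
      | succ n ih =>
        rw [List.range_succ, List.map_append, List.sum_append, ih]
        simp only [List.map_cons, List.map_nil, List.sum_cons, List.sum_nil, add_zero]
        by_cases h : A v < n
        · rw [if_pos h, if_neg (by omega), if_pos (by omega)]
        · by_cases h' : n = A v
          · rw [if_neg h, if_pos h', if_pos (by omega)]
          · rw [if_neg h, if_neg h', if_neg (by omega)]
    rw [h2 d, if_pos (hA v)]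

lemma F1_blocks (A : ℕ → ℕ) (k B : ℕ) (vs : List ℕ) (n : ℕ) :
    ((List.range n).map (fun i => F1_n A k ((vs.drop (B * i)).take B))).sum =
      F1_n A k (vs.take (B * n)) := by
  induction n with
  | zero => simp [F1_n]
  | succ n ih =>
    rw [List.range_succ, List.map_append, List.sum_append, ih]
    simp only [List.map_cons, List.map_nil, List.sum_cons, List.sum_nil, add_zero]
    rw [Nat.mul_succ, List.take_add, F1_n_append]

lemma F1_zipIdx {β : Type} (g : Pt ℕ × ℕ → List (ℕ × β)) (hg : ∀ q, ∀ x ∈ g q, x.1 = q.2)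
    (P : List (Pt ℕ)) : ∀ (n : ℕ) (q : Pt ℕ × ℕ), q ∈ P.zipIdx n →
      ((P.zipIdx n).flatMap g).filter (fun x => decide (x.1 = q.2)) = g q := by
  induction P with
  | nil => intro n q hq; simp at hq
  | cons p P ih =>
    intro n q hq
    rw [List.zipIdx_cons, List.flatMap_cons, List.filter_append]
    rw [List.zipIdx_cons] at hq
    have hlt : ∀ q' ∈ P.zipIdx (n + 1), n + 1 ≤ q'.2 := by
      intro q' hq'
      obtain ⟨h1, -⟩ := List.mem_zipIdx hq'
      omega
    rcases List.mem_cons.1 hq with h | h
    · subst h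
      rw [List.filter_eq_self.2 (fun x hx => by simpa using hg _ x hx),
        List.filter_eq_nil_iff.2, List.append_nil]
      intro x hx
      obtain ⟨q', hq', hx'⟩ := List.mem_flatMap.1 hx
      have h1 := hg _ x hx'
      have h2 := hlt q' hq'
      simp only [decide_eq_true_eq]
      omega
    · have h3 := hlt q h
      rw [ih (n + 1) q h, List.filter_eq_nil_iff.2, List.nil_append]
      intro x hx
      have h1 := hg _ x hx
      simp only [decide_eq_true_eq]
      change x.1 = n at h1
      omega

theorem p_F1 (h : S_LK) : S_F1 := by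
  intro d B W P a hB hW hM
  obtain ⟨hmem, -, hlook, -⟩ := h
  have hA : ∀ v, ((a v : ℕ)) < d := fun v => (a v).2
  obtain ⟨A, hAa⟩ : ∃ A : ℕ → ℕ, A = fun v => (a v : ℕ) := ⟨_, rfl⟩
  have hA' : ∀ v, A v < d := fun v => by rw [hAa]; exact hA v
  change Mat d (fun v => (a v : ℕ)) P at hM
  rw [← hAa] at hM
  -- the words
  have hw : ∀ f : ℕ × List ℕ, ∃ w : List Bool, w.length = W ∧
      (f.2.length ≤ B → look (gtb d B W) w = cnt d A f.2) := by
    intro f
    by_cases hf : f.2.length ≤ B
    · obtain ⟨w, h1, h2⟩ := hlook d B W hW (cnt d A f.2) ((hmem _ _ _).2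
        ⟨F1_cnt_length _ _ _, fun x hx => by
          rw [F1_cnt, List.mem_map] at hx
          obtain ⟨k, -, rfl⟩ := hx
          exact (F1_n_le A k f.2).trans hf⟩)
      exact ⟨w, h1, fun _ => h2⟩
    · exact ⟨List.replicate W false, by simp, fun h => absurd h hf⟩
  choose w hw1 hw2 using hw
  refine ⟨(fuls B P).flatMap w, ?_, ?_⟩
  · rw [List.length_flatMap]
    simp only [hw1, List.map_const', List.sum_replicate, smul_eq_mul, mul_comm]
  have hfl : ∀ f ∈ fuls B P, f.2.length ≤ B := by
    intro f hf
    unfold fuls at hf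
    obtain ⟨q, -, hq⟩ := List.mem_flatMap.1 hf
    obtain ⟨i, -, rfl⟩ := List.mem_map.1 hq
    exact List.length_take_le _ _
  have hg : gful (gtb d B W) W B P ((fuls B P).flatMap w) =
      (fuls B P).map (fun f => (f.1, (f.2, cnt d A f.2))) := by
    unfold gful
    apply List.ext_getElem
    · simp
    · intro j h1 h2
      have hj : j < (fuls B P).length := by simpa using h1
      simp only [List.getElem_map, List.getElem_zipIdx, Nat.zero_add]
      rw [Nat.mul_comm W j, take_chunks W w hw1 (fuls B P) j hj,
        hw2 _ (hfl _ (List.getElem_mem hj))]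
  change Mat d (fun v => (a v : ℕ)) _
  rw [← hAa]
  intro p hp
  unfold blks at hp
  rw [hg] at hp
  obtain ⟨p', hp', rfl⟩ := List.mem_map.1 hp
  have hnrm : cnt d A p'.1 ∈ p'.2 → cnt d A (nrm d p').1 ∈ (nrm d p').2 := by
    intro h1
    unfold nrm
    simp only [List.mem_filter]
    refine ⟨h1, ?_⟩
    rw [F1_cnt_length, F1_cnt_sum d A hA']
    simp
  apply hnrm
  rcases List.mem_append.1 hp' with h1 | h1
  · obtain ⟨f, hf, rfl⟩ := List.mem_map.1 h1
    obtain ⟨f', -, rfl⟩ := List.mem_map.1 hf
    simp
  · unfold rems at h1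
    obtain ⟨q, hq, rfl⟩ := List.mem_map.1 h1
    have hqP : q.1 ∈ P := by
      have := List.mem_zipIdx hq
      rw [this.2.2]
      exact List.getElem_mem _
    have h2 := hM q.1 hqP
    change cnt d A (q.1.1.drop (B * mydiv q.1.1.length B)) ∈ q.1.2.filterMap _
    rw [List.mem_filterMap]
    refine ⟨_, h2, ?_⟩
    rw [hg]
    have h3 : (((fuls B P).map (fun f => (f.1, (f.2, cnt d A f.2)))).filter
        (fun f => decide (f.1 = q.2))).map (fun f => f.2.2) =
        (List.range (mydiv q.1.1.length B)).map
          (fun i => cnt d A ((q.1.1.drop (B * i)).take B)) := by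
      rw [List.filter_map, List.map_map]
      have h4 := F1_zipIdx (fun q => (List.range (mydiv q.1.1.length B)).map
        (fun i => (q.2, (q.1.1.drop (B * i)).take B))) (by
          intro q x hx
          obtain ⟨i, -, rfl⟩ := List.mem_map.1 hx
          rfl) P 0 q hq
      have h5 : (fuls B P).filter ((fun f : ℕ × (List ℕ × List ℕ) => decide (f.1 = q.2)) ∘
          (fun f : ℕ × List ℕ => (f.1, (f.2, cnt d A f.2)))) =
          (List.range (mydiv q.1.1.length B)).map
            (fun i => (q.2, (q.1.1.drop (B * i)).take B)) := h4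
      rw [h5, List.map_map]
      rfl
    rw [h3]
    have h6 : ∀ k, k < d → (sumv d ((List.range (mydiv q.1.1.length B)).map
          (fun i => cnt d A ((q.1.1.drop (B * i)).take B)))).getD k 0 =
        F1_n A k (q.1.1.take (B * mydiv q.1.1.length B)) := by
      intro k hk
      unfold sumv
      rw [F1_getD d _ k hk, ← F1_blocks, List.map_map]
      congr 1
      apply List.map_congr_left
      intro i _
      simp only [Function.comp]
      rw [F1_cnt, F1_getD d _ k hk]
    have h7 : ∀ k, k < d → (cnt d A q.1.1).getD k 0 =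
        F1_n A k (q.1.1.take (B * mydiv q.1.1.length B)) +
          F1_n A k (q.1.1.drop (B * mydiv q.1.1.length B)) := by
      intro k hk
      rw [F1_cnt, F1_getD d _ k hk, ← F1_n_append, List.take_append_drop]
    unfold subv
    have h8 : (List.range d).all (fun k => decide ((sumv d ((List.range
        (mydiv q.1.1.length B)).map (fun i => cnt d A ((q.1.1.drop (B * i)).take B)))).getD k 0 ≤
          (cnt d A q.1.1).getD k 0)) = true := by
      rw [List.all_eq_true]
      intro k hk
      have hk' := List.mem_range.1 hk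
      rw [decide_eq_true_eq, h6 k hk', h7 k hk']
      omega
    rw [h8, cond_true]
    congr 1
    rw [F1_cnt d A (q.1.1.drop _)]
    apply List.map_congr_left
    intro k hk
    have hk' := List.mem_range.1 hk
    rw [h6 k hk', h7 k hk']
    omega

end Pool.Agent.Lib.MP_87d05f_lc.CC
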