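import Pool.Agent.Lib.MP_87d05f_lc.CC.Stm

set_option autoImplicit false

namespace Pool.Agent.Lib.MP_87d05f_lc.CC

open Pool.Agent.Lib.MP_87d05f_lc Pool.Agent.Lib.MP_87d05f_lc.SP Pool.Agent.PolyTime

/-- the element with a given index -/
theorem F2_pick {α β : Type} (h : α × ℕ → List β) : ∀ (L : List (α × ℕ)),
    (L.map Prod.snd).Nodup → ∀ q ∈ L,
      L.flatMap (fun q' => if q'.2 = q.2 then h q' else []) = h q
  | [], _, q, hq => by simp at hq
  | x :: L, hnd, q, hq => by
    rw [List.map_cons, List.nodup_cons] at hnd
    rw [List.flatMap_cons]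
    rcases List.mem_cons.1 hq with h1 | h1
    · subst h1
      rw [if_pos rfl]
      have : L.flatMap (fun q' => if q'.2 = q.2 then h q' else []) = [] := by
        rw [List.flatMap_eq_nil_iff]
        intro y hy
        rw [if_neg]
        intro hh
        apply hnd.1
        rw [← hh]
        exact List.mem_map_of_mem hy
      rw [this, List.append_nil]
    · have hne : x.2 ≠ q.2 := by
        intro hh
        apply hnd.1
        rw [hh]
        exact List.mem_map_of_mem h1
      rw [if_neg hne, List.nil_append]
      exact F2_pick h L hnd.2 q h1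

/-- the blocks of one set -/
theorem F2_fuls (B : ℕ) (P : List (Pt ℕ)) (q : Pt ℕ × ℕ) (hq : q ∈ P.zipIdx) :
    (fuls B P).filter (fun f => decide (f.1 = q.2)) =
      (List.range (mydiv q.1.1.length B)).map
        (fun i => (q.2, (q.1.1.drop (B * i)).take B)) := by
  unfold fuls
  rw [List.filter_flatMap]
  have h1 := F2_pick (fun q' : Pt ℕ × ℕ => (List.range (mydiv q'.1.1.length B)).map
    (fun i => (q'.2, (q'.1.1.drop (B * i)).take B))) P.zipIdx (by
      rw [List.zipIdx_map_snd]
      exact List.nodup_range' (s := 0) (n := P.length) (step := 1) (by omega)) q hq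
  rw [← h1]
  congr 1
  funext q'
  by_cases hh : q'.2 = q.2
  · rw [if_pos hh, List.filter_eq_self]
    intro a ha
    rw [List.mem_map] at ha
    obtain ⟨i, _, rfl⟩ := ha
    simpa using hh
  · rw [if_neg hh, List.filter_eq_nil_iff]
    intro a ha
    rw [List.mem_map] at ha
    obtain ⟨i, _, rfl⟩ := ha
    simpa using hh

/-- forgetting the guessed vectors -/
theorem F2_gful (tb : List (List Bool × List ℕ)) (W B : ℕ) (P : List (Pt ℕ)) (s : List Bool)
    (j : ℕ) : ((gful tb W B P s).filter (fun f => decide (f.1 = j))).map (fun f => (f.1, f.2.1)) =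
      (fuls B P).filter (fun f => decide (f.1 = j)) := by
  have h0 : (gful tb W B P s).map (fun f => (f.1, f.2.1)) = fuls B P := by
    unfold gful
    rw [List.map_map]
    exact List.zipIdx_map_fst 0 (fuls B P)
  rw [← h0, List.filter_map]
  rfl

/-- the numbers of the blocks and of the remainder -/
theorem F2_len (B : ℕ) (f : ℕ → Bool) (vs : List ℕ) : ∀ m : ℕ,
    (vs.filter f).length =
      ((List.range m).map (fun i => (((vs.drop (B * i)).take B).filter f).length)).sum +
        ((vs.drop (B * m)).filter f).length
  | 0 => by simp
  | m + 1 => by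
    rw [F2_len B f vs m, List.range_succ, List.map_append, List.sum_append]
    have h1 : vs.drop (B * (m + 1)) = (vs.drop (B * m)).drop B := by
      rw [List.drop_drop, Nat.mul_succ]
    have h2 : ((vs.drop (B * m)).filter f).length =
        (((vs.drop (B * m)).take B).filter f).length +
          (((vs.drop (B * m)).drop B).filter f).length := by
      conv_lhs => rw [← List.take_append_drop B (vs.drop (B * m))]
      rw [List.filter_append, List.length_append]
    rw [h1, h2]
    simp only [List.map_cons, List.map_nil, List.sum_cons, List.sum_nil]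
    omega

theorem F2_getD (d : ℕ) (f : ℕ → ℕ) (k : ℕ) (hk : k < d) :
    ((List.range d).map f).getD k 0 = f k := by
  rw [List.getD_eq_getElem _ _ (by simpa using hk)]
  simp

set_option maxHeartbeats 400000 in
/-- **F2.** -/
theorem p_F2 : S_F2 := by
  intro tb W B d P s a hB hd hM p hp
  obtain ⟨j, hj, hjp⟩ := List.getElem_of_mem hp
  have hq : (p, j) ∈ P.zipIdx := by
    rw [List.mk_mem_zipIdx_iff_getElem?]
    rw [List.getElem?_eq_getElem hj, hjp]
  -- the guessed vectors
  have hG : ∀ f ∈ gful tb W B P s, f.2.2 = cnt d (fun v => (a v : ℕ)) f.2.1 := by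
    intro f hf
    have h1 := hM (nrm d (f.2.1, [f.2.2])) (by
      unfold blks
      apply List.mem_map_of_mem
      apply List.mem_append_left
      exact List.mem_map_of_mem (f := fun f : ℕ × (List ℕ × List ℕ) => (f.2.1, [f.2.2])) hf)
    have h2 := List.mem_of_mem_filter h1
    exact (List.mem_singleton.1 h2).symm
  -- the remainder
  have hR := hM (nrm d (p.1.drop (B * mydiv p.1.length B),
    p.2.filterMap (subv d (sumv d
      (((gful tb W B P s).filter (fun f => decide (f.1 = j))).map (fun f => f.2.2)))))) (by
      unfold blks
      apply List.mem_map_of_mem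
      apply List.mem_append_right
      unfold rems
      rw [List.mem_map]
      exact ⟨(p, j), hq, rfl⟩)
  have hR2 := List.mem_of_mem_filter hR
  have hR3 : cnt d (fun v => (a v : ℕ)) (p.1.drop (B * mydiv p.1.length B)) ∈
    p.2.filterMap (subv d (sumv d
      (((gful tb W B P s).filter (fun f => decide (f.1 = j))).map (fun f => f.2.2)))) := hR2
  rw [List.mem_filterMap] at hR3
  obtain ⟨c, hc, hcs⟩ := hR3
  have hcl := hd p hp c hc
  -- the sum of the guessed vectors
  have hS : ∀ k < d, (sumv d (((gful tb W B P s).filter (fun f => decide (f.1 = j))).map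
      (fun f => f.2.2))).getD k 0 =
      ((List.range (mydiv p.1.length B)).map (fun i =>
        (((p.1.drop (B * i)).take B).filter (fun v => decide ((a v : ℕ) = k))).length)).sum := by
    intro k hk
    unfold sumv
    rw [F2_getD d _ k hk, List.map_map]
    have h1 : ((gful tb W B P s).filter (fun f => decide (f.1 = j))).map
        ((fun c : List ℕ => c.getD k 0) ∘ fun f => f.2.2) =
        (((gful tb W B P s).filter (fun f => decide (f.1 = j))).map (fun f => (f.1, f.2.1))).map
          (fun f : ℕ × List ℕ => (f.2.filter (fun v => decide ((a v : ℕ) = k))).length) := by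
      rw [List.map_map]
      apply List.map_congr_left
      intro f hf
      have h2 := hG f (List.mem_of_mem_filter hf)
      show f.2.2.getD k 0 = _
      rw [h2]
      unfold cnt
      rw [F2_getD d _ k hk]
      rfl
    rw [h1, F2_gful, F2_fuls B P (p, j) hq, List.map_map]
    rfl
  -- conclusion
  have hfin : cnt d (fun v => (a v : ℕ)) p.1 = c := by
    unfold subv at hcs
    by_cases hall : (List.range d).all (fun k => decide ((sumv d
        (((gful tb W B P s).filter (fun f => decide (f.1 = j))).map
          (fun f => f.2.2))).getD k 0 ≤ c.getD k 0)) = true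
    · rw [hall] at hcs
      simp only [cond_true, Option.some.injEq] at hcs
      apply List.ext_getElem
      · rw [hcl]
        unfold cnt
        simp
      · intro k h1 h2
        have hk : k < d := by rw [hcl] at h2; exact h2
        have e1 : (cnt d (fun v => (a v : ℕ)) (p.1.drop (B * mydiv p.1.length B))).getD k 0 =
            c.getD k 0 - (sumv d (((gful tb W B P s).filter (fun f => decide (f.1 = j))).map
              (fun f => f.2.2))).getD k 0 := by
          rw [← hcs, F2_getD d _ k hk]
        have e2 : (sumv d (((gful tb W B P s).filter (fun f => decide (f.1 = j))).map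
            (fun f => f.2.2))).getD k 0 ≤ c.getD k 0 := by
          have := List.all_eq_true.1 hall k (List.mem_range.2 hk)
          simpa using this
        have e3 : (cnt d (fun v => (a v : ℕ)) (p.1.drop (B * mydiv p.1.length B))).getD k 0 =
            ((p.1.drop (B * mydiv p.1.length B)).filter
              (fun v => decide ((a v : ℕ) = k))).length := by
          unfold cnt
          rw [F2_getD d _ k hk]
        have e4 : (cnt d (fun v => (a v : ℕ)) p.1)[k] =
            (p.1.filter (fun v => decide ((a v : ℕ) = k))).length := by
          rw [← List.getD_eq_getElem _ 0 h1]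
          unfold cnt
          rw [F2_getD d _ k hk]
        have e5 : (c)[k] = c.getD k 0 := (List.getD_eq_getElem c 0 h2).symm
        rw [e4, e5, F2_len B (fun v => decide ((a v : ℕ) = k)) p.1 (mydiv p.1.length B),
          ← hS k hk, ← e3, e1]
        omega
    · rw [Bool.not_eq_true] at hall
      rw [hall] at hcs
      simp at hcs
  rw [hfin]
  exact hc

end Pool.Agent.Lib.MP_87d05f_lc.CC
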