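import Mathlib
import Pool.Agent.Lib.MP_87d05f_lc.CC.Stm
import Pool.Agent.Lib.MP_87d05f_lc.BlockInv

set_option autoImplicit false

/-!
# SYMMETRIC SIDE CONSTRAINTS, piece GF: the best guess
-/

namespace Pool.Agent.Lib.MP_87d05f_lc.CC

open Pool.Agent.Lib.MP_87d05f_lc Pool.Agent.Lib.MP_87d05f_lc.SP Pool.Agent.PolyTime
open Function Turing

/-- states: input, guess, overflow, best guess so far -/
abbrev GF_S : Type := List Bool × (List Bool × (Bool × List (ℕ × (List Bool × List Bool))))

/-- the better one -/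
def GF_bst (best : List (ℕ × (List Bool × List Bool))) (e : ℕ × (List Bool × List Bool)) :
    List (ℕ × (List Bool × List Bool)) :=
  bif best.isEmpty || decide ((best.headD (0, ([], []))).1 < e.1) then [e] else best

/-- the first state -/
def GF_init (dep : List Bool → ℕ) (x : List Bool) : GF_S :=
  (x, (List.replicate (dep x) false, (false, [])))

/-- the question -/
def GF_query (ok : List Bool × List Bool → Bool) (f : List Bool × List Bool → List Bool)
    (h : List Bool × List Bool → ℕ) (C e : ℕ) (st : GF_S) : Qry :=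
  bif ok (st.1, st.2.1) then
    (f (st.1, st.2.1), (C * ((f (st.1, st.2.1)).length + 1) ^ e, h (st.1, st.2.1)))
  else ([], (0, 0))

/-- the next state -/
def GF_next (ok : List Bool × List Bool → Bool) (sc : List Bool × (List Bool × List Bool) → ℕ)
    (w : List Bool) (st : GF_S) : GF_S :=
  (st.1, ((incS st.2.1).1, ((incS st.2.1).2,
    bif ok (st.1, st.2.1) then GF_bst st.2.2.2 (sc (st.1, (st.2.1, w)), (st.2.1, w))
    else st.2.2.2)))

/-- the output -/
def GF_out (out : List Bool × (List Bool × List Bool) → List Bool) (st : GF_S) : List Bool :=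
  out (st.1, (st.2.2.2.headD (0, ([], []))).2)

/-- the best guess among those with `Pr` -/
def GF_best (D : ℕ) (x : List Bool) (ok : List Bool × List Bool → Bool)
    (sc : List Bool × (List Bool × List Bool) → ℕ) (an : List Bool → List Bool)
    (Pr : List Bool → Prop) (best : List (ℕ × (List Bool × List Bool))) : Prop :=
  (best = [] ∧ ∀ s', s'.length = D → Pr s' → ok (x, s') = false) ∨
  ∃ t, t.length = D ∧ ok (x, t) = true ∧ best = [(sc (x, (t, an t)), (t, an t))] ∧
    ∀ s', s'.length = D → Pr s' → ok (x, s') = true → sc (x, (s', an s')) ≤ sc (x, (t, an t))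

section lemmas

variable {D : ℕ} {x : List Bool} {ok : List Bool × List Bool → Bool}
  {sc : List Bool × (List Bool × List Bool) → ℕ} {an : List Bool → List Bool}

theorem GF_best_congr {Pr Pr' : List Bool → Prop} {best : List (ℕ × (List Bool × List Bool))}
    (h : ∀ s', s'.length = D → Pr' s' → Pr s') (hb : GF_best D x ok sc an Pr best) :
    GF_best D x ok sc an Pr' best := by
  rcases hb with ⟨h1, h2⟩ | ⟨t, h1, h2, h3, h4⟩
  · exact Or.inl ⟨h1, fun s' hs' hp => h2 s' hs' (h s' hs' hp)⟩
  · exact Or.inr ⟨t, h1, h2, h3, fun s' hs' hp => h4 s' hs' (h s' hs' hp)⟩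

theorem GF_best_step {Pr : List Bool → Prop} {best : List (ℕ × (List Bool × List Bool))}
    {s : List Bool} (hs : s.length = D) (hb : GF_best D x ok sc an Pr best) :
    GF_best D x ok sc an (fun s' => Pr s' ∨ s' = s)
      (bif ok (x, s) then GF_bst best (sc (x, (s, an s)), (s, an s)) else best) := by
  rcases hok : ok (x, s) with _ | _
  · rw [cond_false]
    rcases hb with ⟨h1, h2⟩ | ⟨t, h1, h2, h3, h4⟩
    · refine Or.inl ⟨h1, fun s' hs' hp => ?_⟩
      rcases hp with hp | rfl
      · exact h2 s' hs' hp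
      · exact hok
    · refine Or.inr ⟨t, h1, h2, h3, fun s' hs' hp ho => ?_⟩
      rcases hp with hp | rfl
      · exact h4 s' hs' hp ho
      · rw [hok] at ho
        exact absurd ho (by simp)
  · rw [cond_true]
    rcases hb with ⟨h1, h2⟩ | ⟨t, h1, h2, h3, h4⟩
    · subst h1
      refine Or.inr ⟨s, hs, hok, rfl, fun s' hs' hp ho => ?_⟩
      rcases hp with hp | rfl
      · rw [h2 s' hs' hp] at ho
        exact absurd ho (by simp)
      · exact le_rfl
    · subst h3
      by_cases hlt : sc (x, (t, an t)) < sc (x, (s, an s))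
      · refine Or.inr ⟨s, hs, hok, ?_, fun s' hs' hp ho => ?_⟩
        · unfold GF_bst
          simp [hlt]
        · rcases hp with hp | rfl
          · exact (h4 s' hs' hp ho).trans hlt.le
          · exact le_rfl
      · refine Or.inr ⟨t, h1, h2, ?_, fun s' hs' hp ho => ?_⟩
        · unfold GF_bst
          simp [hlt]
        · rcases hp with hp | rfl
          · exact h4 s' hs' hp ho
          · exact not_lt.1 hlt

end lemmas

section ptime

theorem GF_bst_ptime {α : Type} [SCode α] {b : α → List (ℕ × (List Bool × List Bool))}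
    {e : α → ℕ × (List Bool × List Bool)} (hb : PTime b) (he : PTime e) :
    PTime (fun a => GF_bst (b a) (e a)) := by
  unfold GF_bst
  exact PTime.cond (PTime.or (PTime.isEmpty hb)
    (PTime.nat_lt (PTime.fst.comp (PTime.headD hb (PTime.const _))) (PTime.fst.comp he)))
    (PTime.cons he (PTime.const [])) hb

theorem GF_init_ptime {dep : List Bool → ℕ} (hd : PTime dep) : PTime (GF_init dep) := by
  unfold GF_init
  exact PTime.id.pair ((PTime.replicate hd (PTime.const false)).pair
    ((PTime.const false).pair (PTime.const [])))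

theorem GF_query_ptime {ok : List Bool × List Bool → Bool}
    {f : List Bool × List Bool → List Bool} {h : List Bool × List Bool → ℕ} (C e : ℕ)
    (ho : PTime ok) (hf : PTime f) (hh : PTime h) : PTime (GF_query ok f h C e) := by
  unfold GF_query
  have hp : PTime (fun st : GF_S => ((st.1, st.2.1) : List Bool × List Bool)) :=
    PTime.fst.pair (PTime.fst.comp PTime.snd)
  have hf' : PTime (fun st : GF_S => f (st.1, st.2.1)) := hf.comp hp
  exact PTime.cond (ho.comp hp) (hf'.pair ((PTime.mul (PTime.const C)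
    (PTime.natPow_const (PTime.succ (PTime.length hf')) e)).pair (hh.comp hp))) (PTime.const _)

theorem GF_next_ptime {ok : List Bool × List Bool → Bool}
    {sc : List Bool × (List Bool × List Bool) → ℕ} (ho : PTime ok) (hs : PTime sc) :
    PTime (fun p : List Bool × GF_S => GF_next ok sc p.1 p.2) := by
  unfold GF_next
  have h1 : PTime (fun p : List Bool × GF_S => p.2.1) := PTime.fst.comp PTime.snd
  have h2 : PTime (fun p : List Bool × GF_S => p.2.2.1) :=
    PTime.fst.comp (PTime.snd.comp PTime.snd)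
  have h3 : PTime (fun p : List Bool × GF_S => p.2.2.2.2) :=
    PTime.snd.comp (PTime.snd.comp (PTime.snd.comp PTime.snd))
  have hi := incS_ptime h2
  have hsw : PTime (fun p : List Bool × GF_S => ((p.2.2.1, p.1) : List Bool × List Bool)) :=
    h2.pair PTime.fst
  refine h1.pair ((PTime.fst.comp hi).pair ((PTime.snd.comp hi).pair ?_))
  exact PTime.cond (ho.comp (h1.pair h2)) (GF_bst_ptime h3 ((hs.comp (h1.pair hsw)).pair hsw)) h3

theorem GF_out_ptime {out : List Bool × (List Bool × List Bool) → List Bool} (ho : PTime out) :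
    PTime (GF_out out) := by
  unfold GF_out
  exact ho.comp (PTime.fst.pair (PTime.snd.comp (PTime.headD
    (PTime.snd.comp (PTime.snd.comp PTime.snd)) (PTime.const _))))

end ptime

theorem p_GF (hLP : S_LP) : S_GF := by
  intro I₁ I₂ en₁ en₂ V₁ V₂ good₁ good₂ μ₁ μ₂ b₁ b₂ J dep ok f h sc out Q hQ hdep hok hf hh hsc
    hout hμ hdμ hex hJ hfin hfind
  obtain ⟨C, e, tm, f₀, f₁, hS⟩ := hfind
  have : Fintype tm.K := tm.kFin
  obtain ⟨A, hAdef⟩ : ∃ A : List Bool → ℕ → List Bool,
    A = ansW tm.m tm.k₀ tm.k₁ f₀.symm tm.main tm.initialState f₁ := ⟨_, rfl⟩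
  have hA : Callable tm.K A := by
    rw [hAdef]
    exact @exists_callW tm.K tm.kDecidableEq tm.Γ tm.Λ tm.σ tm.kFin tm.ΛFin
      tm.σFin tm.m tm.k₀ tm.k₁ tm.Γk₀Fin f₀.symm tm.main tm.initialState f₁
  have hdn : PTime (fun st : GF_S => st.2.2.1) :=
    PTime.fst.comp (PTime.snd.comp PTime.snd)
  obtain ⟨tm', e₀', e₁', P, κ, hM⟩ := hLP tm.K GF_S (List Bool) A hA (GF_init dep)
    (GF_query ok f h C e) (GF_next ok sc) (fun st => st.2.2.1) (GF_out out)
    (GF_init_ptime hdep) (GF_query_ptime C e hok hf hh) (GF_next_ptime hok hsc) hdn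
    (GF_out_ptime hout)
  obtain ⟨Pf, hPf⟩ := hf.sz_le
  obtain ⟨Ps, hPs⟩ := hsc.sz_le
  obtain ⟨z₀, hz₀⟩ : ∃ z₀ : ℕ, z₀ = sz (A [] (0 * 2 ^ 0)) := ⟨_, rfl⟩
  obtain ⟨fW, hfW⟩ : ∃ g : ℕ → ℕ, g = fun L => 8 * L + 4 * Q L + 5 := ⟨_, rfl⟩
  obtain ⟨fB, hfB⟩ : ∃ g : ℕ → ℕ, g = fun L => Ps.eval (fW L) + 3 * fW L + z₀ + 20 := ⟨_, rfl⟩
  obtain ⟨fQ, hfQ⟩ : ∃ g : ℕ → ℕ, g = fun L => Pf.eval (8 * L + 3) := ⟨_, rfl⟩
  obtain ⟨fR, hfR⟩ : ∃ g : ℕ → ℕ, g = fun L => (fQ L + 1) +
    (C * (fQ L + 1) ^ e + 1) * (L + 1) + 2 := ⟨_, rfl⟩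
  have pW : PolyB fW := by
    rw [hfW]
    exact (((PolyB.const 8).mul PolyB.id).add ((PolyB.const 4).mul hQ)).add (PolyB.const 5)
  have pB : PolyB fB := by
    rw [hfB]
    exact (((PolyB.eval Ps pW).add ((PolyB.const 3).mul pW)).add (PolyB.const z₀)).add
      (PolyB.const 20)
  have pQ : PolyB fQ := by
    rw [hfQ]
    exact PolyB.eval Pf (((PolyB.const 8).mul PolyB.id).add (PolyB.const 3))
  have pR : PolyB fR := by
    rw [hfR]
    exact ((pQ.add (PolyB.const 1)).add ((((PolyB.const C).mul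
      ((pQ.add (PolyB.const 1)).pow e)).add (PolyB.const 1)).mul
        (PolyB.id.add (PolyB.const 1)))).add (PolyB.const 2)
  obtain ⟨C', e', hC'⟩ : PolyB (fun L => P.eval L + P.eval (fB L) + κ * fR L) :=
    ((PolyB.eval P PolyB.id).add (PolyB.eval P pB)).add ((PolyB.const κ).mul pR)
  refine ⟨C', e', tm', e₀', e₁', fun F hF => ?_⟩
  obtain ⟨x, hx⟩ : ∃ x, x = en₁ F := ⟨_, rfl⟩
  obtain ⟨L, hL⟩ : ∃ L, L = x.length := ⟨_, rfl⟩
  obtain ⟨D, hD⟩ : ∃ D, D = dep x := ⟨_, rfl⟩
  have hμ' := hμ F hF
  have hdμ' := hdμ F hF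
  have hex' := hex F hF
  have hJ' := hJ F hF
  have hfin' := hfin F hF
  rw [← hx] at hμ' hdμ' hex' hJ' hfin' ⊢
  rw [← hD] at hdμ' hex' hJ' hfin'
  rw [← hL] at hμ' hJ'
  have hDL : D ≤ L := hdμ'.trans ((Nat.div_le_self _ _).trans hμ')
  -- the answers
  obtain ⟨an, han⟩ : ∃ an : List Bool → List Bool, an = fun s =>
    A (f (x, s)) (C * ((f (x, s)).length + 1) ^ e * 2 ^ h (x, s)) := ⟨_, rfl⟩
  have hgood : ∀ s : List Bool, s.length = D → ok (x, s) = true → good₂ (J F s) (an s) := by
    intro s hs ho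
    obtain ⟨hV, hen, hμ2, _, _⟩ := hJ' s hs ho
    obtain ⟨w, hw, hrun⟩ := hS (J F s) hV
    have h1 := outputs_mono (m' := C * ((en₂ (J F s)).length + 1) ^ e * 2 ^ h (x, s))
      (Nat.mul_le_mul_left _ (Nat.pow_le_pow_right (by norm_num) hμ2)) hrun
    rw [hen] at h1
    have h2 := ansWT_of_outputs tm f₀ f₁ w ((f (x, s),
      (C * ((f (x, s)).length + 1) ^ e, h (x, s))) : Qry) h1
    have h3 : an s = w := by
      rw [han, hAdef]
      exact h2
    rw [h3]
    exact hw
  have hanl : ∀ s : List Bool, s.length = D → ok (x, s) = true → sz (an s) ≤ 4 * Q L + 1 := by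
    intro s hs ho
    obtain ⟨_, _, _, _, hl⟩ := hJ' s hs ho
    have h1 := hl (an s) (hgood s hs ho)
    have h2 := sz_listBool_le (an s)
    omega
  have hansq : ∀ st : GF_S, st.1 = x → ok (x, st.2.1) = true →
      A (GF_query ok f h C e st).1
        ((GF_query ok f h C e st).2.1 * 2 ^ (GF_query ok f h C e st).2.2) = an st.2.1 := by
    intro st h1 h2
    unfold GF_query
    rw [h1, h2, cond_true, han]
  -- the step
  obtain ⟨step, hstep⟩ : ∃ step : GF_S → GF_S, step = fun st => GF_next ok sc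
    (A (GF_query ok f h C e st).1
      ((GF_query ok f h C e st).2.1 * 2 ^ (GF_query ok f h C e st).2.2)) st := ⟨_, rfl⟩
  obtain ⟨Inv, hInv⟩ : ∃ Inv : GF_S → Prop, Inv = fun st => st.1 = x ∧ st.2.1.length = D ∧
    GF_best D x ok sc an (fun s' => st.2.2.1 = true ∨ rkS st.2.1 < rkS s') st.2.2.2 := ⟨_, rfl⟩
  obtain ⟨rank, hrank⟩ : ∃ rank : GF_S → ℕ, rank = fun st =>
    bif st.2.2.1 then 0 else rkS st.2.1 + 1 := ⟨_, rfl⟩
  have hinv : ∀ st : GF_S, Inv st → (fun st : GF_S => st.2.2.1) st = false →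
      Inv (step st) ∧ rank (step st) < rank st := by
    intro st hst hd
    rw [hInv] at hst
    obtain ⟨h1, h2, h3⟩ := hst
    simp only at hd
    have hsp := incS_spec st.2.1
    have hil := incS_length st.2.1
    constructor
    · rw [hInv, hstep]
      refine ⟨h1, ?_, ?_⟩
      · change (incS st.2.1).1.length = D
        rw [hil, h2]
      · have h4 := GF_best_step h2 h3
        have h5 : (GF_next ok sc (A (GF_query ok f h C e st).1
            ((GF_query ok f h C e st).2.1 * 2 ^ (GF_query ok f h C e st).2.2)) st).2.2.2 =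
            (bif ok (x, st.2.1) then GF_bst st.2.2.2 (sc (x, (st.2.1, an st.2.1)),
              (st.2.1, an st.2.1)) else st.2.2.2) := by
          unfold GF_next
          simp only
          rw [h1]
          rcases hok' : ok (x, st.2.1) with _ | _
          · rfl
          · rw [cond_true, cond_true, hansq st h1 hok']
        rw [h5]
        refine GF_best_congr ?_ h4
        intro s' hs' hp
        change (incS st.2.1).2 = true ∨ rkS (incS st.2.1).1 < rkS s' at hp
        by_cases hss : s' = st.2.1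
        · exact Or.inr hss
        · left
          right
          have hne : rkS s' ≠ rkS st.2.1 := fun h =>
            hss (rkS_inj s' st.2.1 (by rw [hs', h2]) h)
          rcases hc : (incS st.2.1).2 with _ | _
          · have h6 := hsp.2 hc
            rcases hp with hp | hp
            · rw [hc] at hp
              exact absurd hp (by simp)
            · omega
          · have h6 := (hsp.1 hc).1
            omega
    · rw [hrank, hstep]
      change (bif (incS st.2.1).2 then 0 else rkS (incS st.2.1).1 + 1) <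
        (bif st.2.2.1 then 0 else rkS st.2.1 + 1)
      rw [hd, cond_false]
      rcases hc : (incS st.2.1).2 with _ | _
      · rw [cond_false]
        have h6 := hsp.2 hc
        omega
      · rw [cond_true]
        omega
  have hinit : Inv (GF_init dep x) := by
    rw [hInv]
    refine ⟨rfl, ?_, ?_⟩
    · change (List.replicate (dep x) false).length = D
      rw [List.length_replicate, hD]
    · refine Or.inl ⟨rfl, fun s' hs' hp => ?_⟩
      change false = true ∨ rkS (List.replicate (dep x) false) < rkS s' at hp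
      rcases hp with hp | hp
      · exact absurd hp (by simp)
      · have h1 := rkS_zeros (dep x)
        have h2 := rkS_lt s'
        rw [hs', hD] at h2
        omega
  have hr0 : rank (GF_init dep x) ≤ 2 ^ D := by
    rw [hrank]
    change (bif false then 0 else rkS (List.replicate (dep x) false) + 1) ≤ 2 ^ D
    rw [cond_false, hD, rkS_zeros]
  obtain ⟨N, hN, hNinv, hNf, hNt⟩ := iter_rank step Inv (fun st : GF_S => st.2.2.1) rank
    hinv _ _ hinit hr0
  have hNpos : 1 ≤ N := by
    rcases N with _ | N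
    · exfalso
      rw [iterate_zero, id] at hNt
      change false = true at hNt
      simp at hNt
    · omega
  -- the output
  obtain ⟨hN1, hN2, hN3⟩ : (step^[N] (GF_init dep x)).1 = x ∧
      (step^[N] (GF_init dep x)).2.1.length = D ∧ GF_best D x ok sc an
        (fun s' => (step^[N] (GF_init dep x)).2.2.1 = true ∨
          rkS (step^[N] (GF_init dep x)).2.1 < rkS s') (step^[N] (GF_init dep x)).2.2.2 := by
    have := hNinv N le_rfl
    rw [hInv] at this
    exact this
  have hNt' : (step^[N] (GF_init dep x)).2.2.1 = true := hNt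
  have hg1 : good₁ F (GF_out out (step^[N] (GF_init dep x))) := by
    rcases hN3 with ⟨h1, h2⟩ | ⟨t, h1, h2, h3, h4⟩
    · exfalso
      obtain ⟨s, hs, ho⟩ := hex'
      rw [h2 s hs (Or.inl hNt')] at ho
      exact absurd ho (by simp)
    · unfold GF_out
      rw [h3, hN1, List.headD_cons]
      exact hfin' an hgood t h1 h2 (fun s' hs' ho => h4 s' hs' (Or.inl hNt') ho)
  -- sizes
  have hszx : sz x ≤ 4 * L + 1 := by
    rw [hL]
    exact sz_listBool_le x
  have hszs : ∀ s : List Bool, s.length = D → sz s ≤ 4 * L + 1 := by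
    intro s hs
    have := sz_listBool_le s
    omega
  have hszb : ∀ (Pr : List Bool → Prop) (best : List (ℕ × (List Bool × List Bool))),
      GF_best D x ok sc an Pr best → sz best ≤ Ps.eval (fW L) + fW L + 4 := by
    intro Pr best hb
    rcases hb with ⟨h1, _⟩ | ⟨t, h1, h2, h3, _⟩
    · rw [h1, sz_nil]
      omega
    · have g1 := hszs t h1
      have g2 := hanl t h1 h2
      have g3 : sz ((x, (t, an t)) : List Bool × (List Bool × List Bool)) ≤ fW L := by
        rw [sz_pair, sz_pair, hfW]
        simp only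
        omega
      have g4 := (hPs (x, (t, an t))).trans (eval_mono Ps g3)
      have g6 : sz t + sz (an t) + 1 ≤ fW L := by
        rw [sz_pair, sz_pair] at g3
        omega
      rw [h3, sz_cons, sz_nil, sz_pair, sz_pair]
      omega
  have hsz : ∀ st : GF_S, Inv st → sz st ≤ fB L := by
    intro st hst
    rw [hInv] at hst
    obtain ⟨h1, h2, h3⟩ := hst
    have g1 := hszb _ _ h3
    have g2 := hszs _ h2
    have g3 := sz_bool_le st.2.2.1
    have g4 : fW L = 8 * L + 4 * Q L + 5 := by rw [hfW]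
    have g5 : sz st = sz st.1 + (sz st.2.1 + (sz st.2.2.1 + sz st.2.2.2 + 1) + 1) + 1 := by
      obtain ⟨a, b, c, d⟩ := st
      rw [sz_pair, sz_pair, sz_pair]
    rw [g5, h1, hfB]
    simp only
    omega
  have hcst : ∀ st : GF_S, Inv st →
      qcost (GF_query ok f h C e st) ≤ fR L * 2 ^ (μ₁ F / b₁ - D) := by
    intro st hst
    rw [hInv] at hst
    obtain ⟨h1, h2, _⟩ := hst
    unfold GF_query
    rw [h1]
    rcases ho : ok (x, st.2.1) with _ | _
    · rw [cond_false]
      have g1 : 1 ≤ 2 ^ (μ₁ F / b₁ - D) := Nat.one_le_two_pow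
      have g2 : 2 ≤ fR L := by
        rw [hfR]
        simp only
        omega
      have g3 : qcost (([], (0, 0)) : Qry) = 2 := rfl
      rw [g3]
      calc 2 ≤ fR L * 1 := by omega
        _ ≤ _ := Nat.mul_le_mul_left _ g1
    · rw [cond_true]
      obtain ⟨_, _, _, hdh, _⟩ := hJ' st.2.1 h2 ho
      have hfl : (f (x, st.2.1)).length ≤ fQ L := by
        have g1 : sz ((x, st.2.1) : List Bool × List Bool) ≤ 8 * L + 3 := by
          have := hszs _ h2
          rw [sz_pair]
          omega
        have g2 := (length_le_sz _).trans ((hPf (x, st.2.1)).trans (eval_mono Pf g1))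
        rw [hfQ]
        change (f (x, st.2.1)).length ≤ Pf.eval (8 * L + 3)
        omega
      have g3 := qcost_le (y := f (x, st.2.1)) (C := C) (e := e) (l := fQ L)
        (h := h (x, st.2.1)) (H := μ₁ F / b₁ - D) (L := L) hfl (by omega)
        (by
          have := (Nat.div_le_self (μ₁ F) b₁).trans hμ'
          omega)
      refine g3.trans (Nat.mul_le_mul_right _ ?_)
      rw [hfR]
      simp only
      omega
  have hsza : ∀ st : GF_S, Inv st → sz (A (GF_query ok f h C e st).1
      ((GF_query ok f h C e st).2.1 * 2 ^ (GF_query ok f h C e st).2.2)) ≤ fB L := by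
    intro st hst
    rw [hInv] at hst
    obtain ⟨h1, h2, _⟩ := hst
    rcases ho : ok (x, st.2.1) with _ | _
    · have g1 : GF_query ok f h C e st = ([], (0, 0)) := by
        unfold GF_query
        rw [h1, ho, cond_false]
      rw [g1]
      change sz (A [] (0 * 2 ^ 0)) ≤ fB L
      rw [← hz₀, hfB]
      simp only
      omega
    · rw [hansq st h1 ho]
      have g1 := hanl _ h2 ho
      have g4 : fW L = 8 * L + 4 * Q L + 5 := by rw [hfW]
      rw [hfB]
      simp only
      omega
  refine ⟨_, hg1, ?_⟩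
  refine hM x N (fB L) (fR L * 2 ^ (μ₁ F / b₁ - D)) (fun i => step^[i] (GF_init dep x)) hNpos
    rfl ?_ ?_ ?_ ?_ ?_ hNt _ ?_
  · intro i _
    rw [iterate_succ_apply', hstep]
  · intro i hi
    exact hsz _ (hNinv i hi)
  · intro i hi
    exact hsza _ (hNinv i hi.le)
  · intro i hi
    exact hcst _ (hNinv i hi.le)
  · intro i _ hi
    exact hNf i hi
  · rw [← hL]
    have a0 : 2 ^ D * 2 ^ (μ₁ F / b₁ - D) = 2 ^ (μ₁ F / b₁) := by
      rw [← pow_add]
      congr 1
      omega
    have a1 : N * (P.eval (fB L) + κ * (fR L * 2 ^ (μ₁ F / b₁ - D))) ≤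
        (P.eval (fB L) + κ * fR L) * 2 ^ (μ₁ F / b₁) := by
      rw [Nat.mul_add, Nat.add_mul]
      refine Nat.add_le_add ?_ ?_
      · rw [Nat.mul_comm]
        refine Nat.mul_le_mul_left _ (hN.trans (Nat.pow_le_pow_right (by norm_num) hdμ'))
      · calc N * (κ * (fR L * 2 ^ (μ₁ F / b₁ - D)))
            ≤ 2 ^ D * (κ * (fR L * 2 ^ (μ₁ F / b₁ - D))) := Nat.mul_le_mul_right _ hN
          _ = κ * fR L * (2 ^ D * 2 ^ (μ₁ F / b₁ - D)) := by ring
          _ = κ * fR L * 2 ^ (μ₁ F / b₁) := by rw [a0]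
    have a2 : P.eval L * 1 ≤ P.eval L * 2 ^ (μ₁ F / b₁) :=
      Nat.mul_le_mul_left _ Nat.one_le_two_pow
    have a3 := Nat.mul_le_mul_right (2 ^ (μ₁ F / b₁)) (hC' L)
    have a4 : (P.eval L + P.eval (fB L) + κ * fR L) * 2 ^ (μ₁ F / b₁) =
        P.eval L * 2 ^ (μ₁ F / b₁) + (P.eval (fB L) + κ * fR L) * 2 ^ (μ₁ F / b₁) := by ring
    simp only at a3
    rw [a4] at a3
    omega

end Pool.Agent.Lib.MP_87d05f_lc.CC
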