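import Pool.Agent.Lib.MP_87d05f_lc.CC.Stm
import Pool.Agent.Lib.MP_87d05f_lc.KMain

set_option autoImplicit false

/-!
# Symmetric side constraints: the guesses reach all vectors
-/

namespace Pool.Agent.Lib.MP_87d05f_lc.CC

open Pool.Agent.Lib.MP_87d05f_lc Pool.Agent.Lib.MP_87d05f_lc.SP Pool.Agent.PolyTime Turing

theorem LK_length {α : Type} (L : List α) : ∀ n : ℕ, (lsts L n).length = L.length ^ n
  | 0 => by simp [lsts]
  | n + 1 => by
    rw [lsts, List.length_flatMap]
    simp only [List.length_map, LK_length L n]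
    rw [List.map_const', List.sum_replicate, smul_eq_mul, pow_succ, mul_comm]

theorem LK_mem {α : Type} (L : List α) : ∀ (n : ℕ) (c : List α),
    c ∈ lsts L n ↔ c.length = n ∧ ∀ x ∈ c, x ∈ L
  | 0, c => by
    rw [lsts, List.mem_singleton]
    constructor
    · rintro rfl
      simp
    · rintro ⟨h, _⟩
      exact List.length_eq_zero_iff.mp h
  | n + 1, c => by
    rw [lsts, List.mem_flatMap]
    constructor
    · rintro ⟨x, hx, hc⟩
      obtain ⟨l, hl, rfl⟩ := List.mem_map.mp hc
      obtain ⟨h1, h2⟩ := (LK_mem L n l).mp hl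
      refine ⟨by rw [List.length_cons, h1], fun y hy => ?_⟩
      rcases List.mem_cons.mp hy with rfl | hy
      · exact hx
      · exact h2 y hy
    · rintro ⟨h1, h2⟩
      cases c with
      | nil => simp at h1
      | cons x l =>
        refine ⟨x, h2 x (List.mem_cons_self), List.mem_map.mpr ⟨l, ?_, rfl⟩⟩
        refine (LK_mem L n l).mpr ⟨?_, fun y hy => h2 y (List.mem_cons_of_mem _ hy)⟩
        rw [List.length_cons] at h1
        omega

theorem LK_nodup {α : Type} (L : List α) (hL : L.Nodup) : ∀ n : ℕ, (lsts L n).Nodup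
  | 0 => by simp [lsts]
  | n + 1 => by
    rw [lsts, List.nodup_flatMap]
    refine ⟨fun x _ => (LK_nodup L hL n).map (List.cons_injective), ?_⟩
    refine hL.imp ?_
    intro x y hxy
    simp only [Function.onFun]
    intro c h1 h2
    obtain ⟨l, _, rfl⟩ := List.mem_map.mp h1
    obtain ⟨l', _, h⟩ := List.mem_map.mp h2
    exact hxy (List.cons.inj h).1.symm

theorem LK_find {α β : Type} [DecidableEq α] : ∀ (l : List α) (m : List β), l.Nodup →
    ∀ (i : ℕ) (h1 : i < l.length) (h2 : i < m.length),
      (l.zip m).find? (fun e => decide (e.1 = l[i])) = some (l[i], m[i])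
  | [], _, _, i, h1, _ => by simp at h1
  | _ :: _, [], _, i, _, h2 => by simp at h2
  | a :: l, b :: m, hl, 0, _, _ => by simp
  | a :: l, b :: m, hl, i + 1, h1, h2 => by
    rw [List.nodup_cons] at hl
    simp only [List.length_cons] at h1 h2
    have h3 : i < l.length := by omega
    have h4 : i < m.length := by omega
    have hne : a ≠ l[i] := fun h => hl.1 (h ▸ List.getElem_mem h3)
    have hd : decide (a = l[i]) = false := decide_eq_false hne
    rw [List.zip_cons_cons, List.find?_cons]
    simp only [List.getElem_cons_succ, hd]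
    exact LK_find l m hl.2 i h3 h4

theorem p_LK : S_LK := by
  have hlen : ∀ d B : ℕ, (cvs0 d B).length = (B + 1) ^ d := fun d B => by
    rw [cvs0, LK_length, List.length_range]
  refine ⟨fun d B c => ?_, hlen, fun d B W hW c hc => ?_, fun d b => ?_⟩
  · rw [cvs0, LK_mem]
    refine and_congr_right fun _ => forall₂_congr fun x _ => ?_
    rw [List.mem_range, Nat.lt_succ_iff]
  · obtain ⟨i, hi, rfl⟩ := List.mem_iff_getElem.mp hc
    have hwl : (lsts [false, true] W).length = 2 ^ W := by
      rw [LK_length]; rfl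
    have hi2 : i < (lsts [false, true] W).length := by
      rw [hwl]
      rw [hlen] at hi
      exact lt_of_lt_of_le hi hW
    refine ⟨(lsts [false, true] W)[i], ?_, ?_⟩
    · exact ((LK_mem _ _ _).mp (List.getElem_mem hi2)).1
    · have hnd : (lsts [false, true] W).Nodup := LK_nodup _ (by simp) W
      rw [look, gtb, LK_find _ _ hnd i hi2 hi]
  · obtain ⟨s, hs1, hs⟩ := exists_exp (2 * b * d + 1) 1
    rw [pow_one] at hs
    have h2 : 2 ≤ 2 ^ s := by
      calc 2 = 2 ^ 1 := (pow_one 2).symm
        _ ≤ 2 ^ s := Nat.pow_le_pow_right (by norm_num) hs1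
    refine ⟨2 ^ s - 1, s * d, by omega, ?_, ?_⟩
    · rw [Nat.sub_add_cancel (by omega), pow_mul]
    · have h3 : 2 * b * (s * d) + s ≤ 2 ^ s := by
        calc 2 * b * (s * d) + s = (2 * b * d + 1) * s := by ring
          _ ≤ 2 ^ s := hs
      omega

end Pool.Agent.Lib.MP_87d05f_lc.CC
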