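import Pool.Agent.Lib.MP_87d05f_lc.CC.Stm

set_option autoImplicit false

/-!
# LN: sizes
-/

namespace Pool.Agent.Lib.MP_87d05f_lc.CC

open Pool.Agent.Lib.MP_87d05f_lc Pool.Agent.Lib.MP_87d05f_lc.SP Pool.Agent.PolyTime Turing

private theorem LN_parts (P : List (Pt ℕ)) :
    (P.flatMap Prod.fst).length ≤ ((P.flatMap partC).map List.length).sum := by
  induction P with
  | nil => simp
  | cons p P ih =>
    rw [List.flatMap_cons, List.flatMap_cons, List.length_append, List.map_append,
      List.sum_append]
    refine Nat.add_le_add ?_ ih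
    unfold partC
    rw [List.map_cons, List.sum_cons, List.length_cons, List.length_map]
    omega

private theorem LN_plc {g : ℕ} {ar : Fin g → ℕ} (F : List (Con ar)) :
    (plc F).length ≤ ((F.map wordC).map List.length).sum := by
  unfold plc
  rw [List.map_map, List.length_flatMap]
  refine List.sum_le_sum fun c _ => ?_
  simp [wordC]

private theorem LN_sz (l : List Bool) : sz l ≤ 4 * l.length + 1 := by
  induction l with
  | nil => simp
  | cons b l ih =>
    have := sz_bool_le b
    simp only [sz_cons, List.length_cons]
    omega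

theorem p_LN (h1 : S_PG) (h2 : S_CO) : S_LN := by
  intro d g B W M ar φ hd hB hφ
  constructor
  · intro I
    unfold nvP enP
    refine (List.toFinset_card_le _).trans ?_
    refine le_trans ?_ (encW_length _)
    unfold vsP
    rw [List.length_append, List.map_cons, List.sum_cons, List.map_append, List.sum_append]
    have h3 := LN_parts I.1
    have h4 := LN_plc I.2
    omega
  · obtain ⟨-, -, h5, -, -, -⟩ := h1 d B W M 1 (tabV φ) (tabS g d B)
    obtain ⟨P, hP⟩ := h5.sz_le
    refine ⟨fun L => d * P.eval (8 * L + 3), ?_, ?_⟩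
    · exact (PolyB.const d).mul (PolyB.eval P (((PolyB.const 8).mul PolyB.id).add
        (PolyB.const 3)))
    · intro I hI s a hs
      obtain ⟨-, -, h6⟩ := h2 d g B W M 1 ar φ hd I hB Nat.one_pos hφ hI
      obtain ⟨-, h7, -, -⟩ := h6 s
      refine (outW_length_le _ a).trans (Nat.mul_le_mul_left d ?_)
      have h8 := plc_length_le (qnC B M φ (BLs d B W I.1 s) I.2)
      rw [codeC_eq, ← h7] at h8
      have h9 := hP (enP I, s)
      have h10 := length_le_sz (encW (wqn d B W M (tabV φ) (tabS g d B) (enP I, s)))
      have h11 : sz (enP I, s) ≤ 8 * (enP I).length + 3 := by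
        rw [sz_pair]
        have := LN_sz (enP I)
        have := LN_sz s
        omega
      have h12 : P.eval (sz (enP I, s)) ≤ P.eval (8 * (enP I).length + 3) := eval_mono P h11
      have h13 : sz (encW (wqn d B W M (tabV φ) (tabS g d B) (enP I, s))) ≤
          P.eval (sz (enP I, s)) := h9
      show (plc (qnC B M φ (BLs d B W I.1 s) I.2)).length ≤ P.eval (8 * (enP I).length + 3)
      omega

end Pool.Agent.Lib.MP_87d05f_lc.CC
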