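import Mathlib
import Pool.Agent.Lib.MP_87d05f_lc.CC.Stm

set_option autoImplicit false

namespace Pool.Agent.Lib.MP_87d05f_lc.CC

open Pool.Agent.Lib.MP_87d05f_lc Pool.Agent.Lib.MP_87d05f_lc.SP Pool.Agent.PolyTime Turing

section

variable {V V' : Type} [DecidableEq V] [DecidableEq V'] (f : V → V')

theorem NA_fuls (B : ℕ) (P : List (Pt V)) :
    fuls B (P.map (mp f)) = (fuls B P).map (fun q => (q.1, q.2.map f)) := by
  unfold fuls
  rw [List.zipIdx_map, List.flatMap_map, List.map_flatMap]
  refine List.flatMap_congr fun q _ => ?_
  simp only [mp, Prod.map, id, List.length_map, List.map_map]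
  refine List.map_congr_left fun i _ => ?_
  simp only [Function.comp_apply, List.map_take, List.map_drop]

theorem NA_gful (tb : List (List Bool × List ℕ)) (W B : ℕ) (P : List (Pt V)) (s : List Bool) :
    gful tb W B (P.map (mp f)) s =
      (gful tb W B P s).map (fun q => (q.1, (q.2.1.map f, q.2.2))) := by
  unfold gful
  rw [NA_fuls, List.zipIdx_map, List.map_map, List.map_map]
  rfl

theorem NA_rems (tb : List (List Bool × List ℕ)) (W B d : ℕ) (P : List (Pt V))
    (s : List Bool) : rems tb W B d (P.map (mp f)) s = (rems tb W B d P s).map (mp f) := by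
  unfold rems
  rw [List.zipIdx_map, List.map_map, List.map_map]
  refine List.map_congr_left fun q _ => ?_
  simp only [Function.comp_apply, mp, Prod.map, id, List.length_map, List.map_drop, NA_gful,
    List.filter_map, List.map_map]
  rfl

theorem NA_nrm (d : ℕ) (p : Pt V) : nrm d (mp f p) = mp f (nrm d p) := by
  unfold nrm mp
  simp only [List.length_map]

theorem NA_blks (tb : List (List Bool × List ℕ)) (W B d : ℕ) (P : List (Pt V))
    (s : List Bool) : blks tb W B d (P.map (mp f)) s = (blks tb W B d P s).map (mp f) := by
  unfold blks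
  rw [NA_gful, NA_rems, List.map_map, List.map_append, List.map_append, List.map_map,
    List.map_map, List.map_append, List.map_map, List.map_map, List.map_map]
  have h : ∀ p : Pt V, nrm d (mp f p) = mp f (nrm d p) := NA_nrm f d
  congr 1
  · refine List.map_congr_left fun q _ => ?_
    exact h (q.2.1, [q.2.2])
  · refine List.map_congr_left fun q _ => ?_
    exact h q

end

theorem p_NA : S_NA := by
  intro tb W B d P s
  refine ⟨NA_blks Nat.bits tb W B d P s, NA_fuls Nat.bits B P, ?_, ?_⟩
  · rw [List.map_map, List.map_map]
    exact List.map_congr_left fun p _ => NA_nrm Nat.bits d p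
  · unfold okB
    rw [List.all_map]
    rfl

end Pool.Agent.Lib.MP_87d05f_lc.CC
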