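import Mathlib
import Pool.Agent.Lib.MP_87d05f_lc.CC.Stm

set_option autoImplicit false

namespace Pool.Agent.Lib.MP_87d05f_lc.CC

open Pool.Agent.Lib.MP_87d05f_lc Pool.Agent.Lib.MP_87d05f_lc.SP Pool.Agent.PolyTime Turing

section

variable {V V' : Type} [DecidableEq V] [DecidableEq V'] (f : V → V')

theorem NB_prs (vs : List V) (xs : List ℕ) :
    prs (vs.map f) xs = (prs vs xs).map (fun e => (f e.1, e.2)) := by
  unfold prs
  rw [List.zipIdx_map, List.map_map, List.map_map]
  rfl

theorem NB_conz (hf : Function.Injective f) (z : List (V × ℕ)) :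
    conz (z.map (fun e => (f e.1, e.2))) = conz z := by
  unfold conz
  rw [List.all_map]
  refine congrArg (fun p => z.all p) (funext fun p => ?_)
  simp only [Function.comp_apply, List.all_map]
  refine congrArg (fun p => z.all p) (funext fun q => ?_)
  simp only [Function.comp_apply]
  rw [decide_eq_decide.2 (show f p.1 = f q.1 ↔ p.1 = q.1 from hf.eq_iff)]

theorem NB_ded (hf : Function.Injective f) (l : List V) :
    (ded (l.map f)).length = (ded l).length := by
  rw [ded_length, ded_length]
  have h : (l.map f).toFinset = l.toFinset.image f := by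
    ext w
    simp
  rw [h, Finset.card_image_of_injective _ hf]

theorem NB_mem (hf : Function.Injective f) (v : V) (b : List V) :
    decide (f v ∈ b.map f) = decide (v ∈ b) := by
  refine decide_eq_decide.2 ?_
  rw [List.mem_map]
  exact ⟨fun ⟨u, hu, h⟩ => by rw [hf h] at hu; exact hu, fun h => ⟨v, h, rfl⟩⟩

theorem NB_occz (hf : Function.Injective f) (z : List (V × ℕ)) (b : List V) (k : ℕ) :
    occz (z.map (fun e => (f e.1, e.2))) (b.map f) k = occz z b k := by
  unfold occz
  rw [List.filter_map, List.map_map]
  have h1 : ((fun p : V' × ℕ => decide (p.2 = k) && decide (p.1 ∈ b.map f)) ∘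
      (fun e : V × ℕ => (f e.1, e.2))) = (fun p : V × ℕ => decide (p.2 = k) && decide (p.1 ∈ b)) := by
    funext p
    simp only [Function.comp_apply]
    rw [NB_mem f hf]
  rw [h1]
  have h2 : (Prod.fst ∘ (fun e : V × ℕ => (f e.1, e.2))) = f ∘ Prod.fst := rfl
  rw [h2, ← List.map_map, NB_ded f hf]

theorem NB_fits (hf : Function.Injective f) (d : ℕ) (BL : List (Pt V)) (z : List (V × ℕ)) :
    fits d (BL.map (mp f)) (z.map (fun e => (f e.1, e.2))) = fits d BL z := by
  unfold fits
  rw [List.all_map]
  refine congrArg (fun p => BL.all p) (funext fun b => ?_)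
  simp only [Function.comp_apply, mp, NB_occz f hf]

theorem NB_usf (hf : Function.Injective f) (tb : TabV) (d : ℕ) (BL : List (Pt V))
    (c : List Bool × List V) : usf tb d (BL.map (mp f)) (c.1, c.2.map f) = usf tb d BL c := by
  unfold usf
  refine congrArg (fun p => tb.any p) (funext fun e => ?_)
  simp only
  rw [NB_prs, NB_conz f hf, NB_fits f hf]

theorem NB_qns (hf : Function.Injective f) (M : ℕ) (tb : TabV)
    (tbS : List ((ℕ × List Bool) × List Bool)) (cv : List (List ℕ)) (d : ℕ) (BL : List (Pt V))
    (G : List (List Bool × List V)) :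
    qns M tb tbS cv d (BL.map (mp f)) (G.map (fun c => (c.1, c.2.map f))) =
      (qns M tb tbS cv d BL G).map (fun c => (c.1, c.2.map f)) := by
  unfold qns
  have h1 : (G.map (fun c => (c.1, c.2.map f))).filter (usf tb d (BL.map (mp f))) =
      (G.filter (usf tb d BL)).map (fun c => (c.1, c.2.map f)) := by
    rw [List.filter_map]
    refine congrArg _ (List.filter_congr fun c _ => ?_)
    exact NB_usf f hf tb d BL c
  rw [h1, List.map_append, List.flatMap_map, List.map_flatMap]
  refine congrArg _ (List.flatMap_congr fun c _ => ?_)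
  simp only
  rw [List.flatMap_map, List.map_flatMap]
  refine List.flatMap_congr fun v _ => ?_
  rw [List.filter_map, List.flatMap_map, List.map_flatMap]
  have h2 : ((fun b : Pt V' => decide (f v ∈ b.1)) ∘ mp f) =
      (fun b : Pt V => decide (v ∈ b.1)) := by
    funext b
    exact NB_mem f hf v b.1
  rw [h2]
  refine List.flatMap_congr fun b _ => ?_
  rw [List.map_replicate]
  unfold bkW mp
  simp only [List.length_map]

end

theorem p_NB : S_NB := fun M tb tbS cv d BL G => NB_qns Nat.bits bits_injective M tb tbS cv d BL G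

end Pool.Agent.Lib.MP_87d05f_lc.CC
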