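import Mathlib
import Pool.Agent.Lib.MP_87d05f_lc.CC.Stm

set_option autoImplicit false

namespace Pool.Agent.Lib.MP_87d05f_lc.CC

open Pool.Agent.Lib.MP_87d05f_lc Pool.Agent.Lib.MP_87d05f_lc.SP Pool.Agent.PolyTime Turing

section

variable {V V' : Type} [DecidableEq V] [DecidableEq V'] (f : V → V')

theorem NC_cnt (d : ℕ) (A : V' → ℕ) (vs : List V) :
    cnt d A (vs.map f) = cnt d (fun v => A (f v)) vs := by
  unfold cnt
  refine List.map_congr_left fun k _ => ?_
  rw [List.filter_map, List.length_map]
  rfl

theorem NC_can (d : ℕ) (b : Pt V) :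
    can d (mp f b) = (can d b).map (fun e => (f e.1, e.2)) := by
  unfold can prs mp
  simp only
  rw [List.zipIdx_map, List.map_map, List.map_map]
  rfl

theorem NC_lku (hf : Function.Injective f) (y : List (V × ℕ)) (v : V) :
    lku (y.map (fun e => (f e.1, e.2))) (f v) = lku y v := by
  unfold lku
  have h : (y.map (fun e => (f e.1, e.2))).find? (fun e => decide (e.1 = f v)) =
      (y.find? (fun e => decide (e.1 = v))).map (fun e => (f e.1, e.2)) := by
    rw [List.find?_map]
    congr 1
    congr 1
    funext e
    simp only [Function.comp_apply]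
    refine decide_eq_decide.2 ⟨fun h => hf h, fun h => by rw [h]⟩
  rw [h]
  cases y.find? (fun e => decide (e.1 = v)) <;> rfl

theorem NC_gen (hf : Function.Injective f) (d : ℕ) (BL : List (Pt V)) (A : V' → ℕ) (v : V) :
    fixA d (BL.map (mp f)) A (f v) = fixA d BL (fun v => A (f v)) v := by
  unfold fixA
  have h : (BL.map (mp f)).find? (fun b => decide (f v ∈ b.1)) =
      (BL.find? (fun b => decide (v ∈ b.1))).map (mp f) := by
    rw [List.find?_map]
    congr 1
    congr 1
    funext b
    simp only [Function.comp_apply, mp]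
    refine decide_eq_decide.2 ?_
    rw [List.mem_map]
    constructor
    · rintro ⟨u, hu, h2⟩
      rw [hf h2] at hu
      exact hu
    · exact fun hu => ⟨v, hu, rfl⟩
  rw [h]
  cases BL.find? (fun b => decide (v ∈ b.1)) with
  | none => rfl
  | some b =>
    simp only [Option.map_some]
    have e1 : cnt d A (mp f b).1 = cnt d (fun v => A (f v)) b.1 := NC_cnt f d A b.1
    rw [e1, NC_can, NC_lku f hf]
    rfl

end

theorem p_NC : S_NC := fun d BL A v => NC_gen Nat.bits bits_injective d BL A v

end Pool.Agent.Lib.MP_87d05f_lc.CC
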