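import Mathlib
import Pool.Agent.Lib.MP_87d05f_lc.CC.Stm

set_option autoImplicit false

/-!
# PB: the blocks are computed in polynomial time (helper8)
-/

namespace Pool.Agent.Lib.MP_87d05f_lc.CC

open Pool.Agent.Lib.MP_87d05f_lc Pool.Agent.Lib.MP_87d05f_lc.SP Pool.Agent.PolyTime

section aux

variable {α β : Type} [SCode α] [SCode β]

/-- the sum of a list -/
theorem PB_sum {l : α → List ℕ} (hl : PTime l) : PTime (fun a => (l a).sum) := by
  have h : PTime (fun a => ((l a).flatMap (fun c => List.replicate c ())).length) :=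
    PTime.length (PTime.flatMap (f := fun (_ : α) (c : ℕ) => List.replicate c ()) hl
      (PTime.replicate PTime.snd (PTime.const ())))
  refine h.of_eq fun a => ?_
  rw [List.length_flatMap]
  simp only [List.length_replicate, List.map_id']

/-- the entry of a word -/
theorem PB_look (tb : List (List Bool × List ℕ)) {w : α → List Bool} (hw : PTime w) :
    PTime (fun a => look tb (w a)) := by
  unfold look
  refine PTime.option_casesOn
    (f := fun a => tb.find? (fun e => decide (e.1 = w a)))
    (g := fun _ => ([] : List ℕ))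
    (h := fun _ (e : List Bool × List ℕ) => e.2) ?_ (PTime.const _)
    (PTime.snd.comp PTime.snd)
  refine PTime.find? (l := fun _ => tb)
    (p := fun a (e : List Bool × List ℕ) => decide (e.1 = w a)) (PTime.const tb) ?_
  exact PTime.eq (PTime.fst.comp PTime.snd) (hw.comp PTime.fst)

/-- the sum of vectors -/
theorem PB_sumv (d : ℕ) {l : α → List (List ℕ)} (hl : PTime l) :
    PTime (fun a => sumv d (l a)) := by
  unfold sumv
  refine PTime.map (f := fun a k => ((l a).map (fun c => c.getD k 0)).sum)
    (PTime.const (List.range d)) ?_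
  refine PB_sum ?_
  exact PTime.map (f := fun (p : α × ℕ) (c : List ℕ) => c.getD p.2 0) (hl.comp PTime.fst)
    (PTime.getD (PTime.snd.comp PTime.fst) PTime.snd (PTime.const 0))

/-- subtraction -/
theorem PB_subv (d : ℕ) {S c : α → List ℕ} (hS : PTime S) (hc : PTime c) :
    PTime (fun a => subv d (S a) (c a)) := by
  unfold subv
  refine PTime.cond ?_ (PTime.some ?_) (PTime.const none)
  · refine PTime.all (p := fun a k => decide ((S a).getD k 0 ≤ (c a).getD k 0))
      (PTime.const (List.range d)) ?_
    exact PTime.nat_le (PTime.getD PTime.snd (hS.comp PTime.fst) (PTime.const 0))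
      (PTime.getD PTime.snd (hc.comp PTime.fst) (PTime.const 0))
  · refine PTime.map (f := fun a k => (c a).getD k 0 - (S a).getD k 0)
      (PTime.const (List.range d)) ?_
    exact PTime.sub (PTime.getD PTime.snd (hc.comp PTime.fst) (PTime.const 0))
      (PTime.getD PTime.snd (hS.comp PTime.fst) (PTime.const 0))

/-- the normalisation of one set -/
theorem PB_nrm (d : ℕ) {p : α → Pt (List Bool)} (hp : PTime p) :
    PTime (fun a => nrm d (p a)) := by
  unfold nrm
  refine (PTime.fst.comp hp).pair ?_
  refine PTime.filter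
    (p := fun a c => decide (c.length = d) && decide (c.sum = (p a).1.length))
    (PTime.snd.comp hp) ?_
  exact PTime.and (PTime.nat_eq (PTime.length PTime.snd) (PTime.const d))
    (PTime.nat_eq (PB_sum PTime.snd)
      (PTime.length ((PTime.fst.comp hp).comp PTime.fst)))

/-- the normalisation of all sets -/
theorem PB_nrms (d : ℕ) {P : α → List (Pt (List Bool))} (hP : PTime P) :
    PTime (fun a => (P a).map (nrm d)) :=
  PTime.map (f := fun (_ : α) (p : Pt (List Bool)) => nrm d p) hP (PB_nrm d PTime.snd)

/-- the number of full blocks -/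
theorem PB_div (B : ℕ) {l : α → List β} (hl : PTime l) :
    PTime (fun a => mydiv (l a).length B) :=
  mydiv_ptime (PTime.length hl) (PTime.const B)

/-- the full blocks -/
theorem PB_fuls (B : ℕ) {P : α → List (Pt (List Bool))} (hP : PTime P) :
    PTime (fun a => fuls B (P a)) := by
  unfold fuls
  refine PTime.flatMap (f := fun (_ : α) (q : Pt (List Bool) × ℕ) =>
    (List.range (mydiv q.1.1.length B)).map (fun i => (q.2, (q.1.1.drop (B * i)).take B)))
    (PTime.zipIdx hP) ?_
  refine PTime.map (f := fun (z : α × (Pt (List Bool) × ℕ)) (i : ℕ) =>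
    (z.2.2, (z.2.1.1.drop (B * i)).take B))
    (PTime.range (PB_div B (PTime.fst.comp (PTime.fst.comp PTime.snd)))) ?_
  refine (PTime.snd.comp (PTime.snd.comp PTime.fst)).pair ?_
  exact PTime.take (PTime.const B) (PTime.drop (PTime.mul (PTime.const B) PTime.snd)
    (PTime.fst.comp (PTime.fst.comp (PTime.snd.comp PTime.fst))))

/-- the full blocks with the guessed vectors -/
theorem PB_gful (tb : List (List Bool × List ℕ)) (W B : ℕ) {P : α → List (Pt (List Bool))}
    {s : α → List Bool} (hP : PTime P) (hs : PTime s) :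
    PTime (fun a => gful tb W B (P a) (s a)) := by
  unfold gful
  refine PTime.map (f := fun (a : α) (q : (ℕ × List (List Bool)) × ℕ) =>
    (q.1.1, (q.1.2, look tb (((s a).drop (W * q.2)).take W))))
    (PTime.zipIdx (PB_fuls B hP)) ?_
  refine (PTime.fst.comp (PTime.fst.comp PTime.snd)).pair
    ((PTime.snd.comp (PTime.fst.comp PTime.snd)).pair ?_)
  exact PB_look tb (PTime.take (PTime.const W)
    (PTime.drop (PTime.mul (PTime.const W) (PTime.snd.comp PTime.snd)) (hs.comp PTime.fst)))

/-- subtraction from all vectors -/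
theorem PB_fm (d : ℕ) {S : α → List ℕ} {l : α → List (List ℕ)} (hS : PTime S) (hl : PTime l) :
    PTime (fun a => (l a).filterMap (subv d (S a))) :=
  PTime.filterMap (f := fun (a : α) (c : List ℕ) => subv d (S a) c) hl
    (PB_subv d (hS.comp PTime.fst) PTime.snd)

/-- the guessed vectors of one set -/
theorem PB_gv (tb : List (List Bool × List ℕ)) (W B : ℕ) {P : α → List (Pt (List Bool))}
    {s : α → List Bool} {j : α → ℕ} (hP : PTime P) (hs : PTime s) (hj : PTime j) :
    PTime (fun a => ((gful tb W B (P a) (s a)).filter (fun f => decide (f.1 = j a))).map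
      (fun f => f.2.2)) := by
  have h1 : PTime (fun a => (gful tb W B (P a) (s a)).filter (fun f => decide (f.1 = j a))) :=
    PTime.filter (p := fun (a : α) (f : ℕ × (List (List Bool) × List ℕ)) => decide (f.1 = j a))
      (PB_gful tb W B hP hs) (PTime.nat_eq (PTime.fst.comp PTime.snd) (hj.comp PTime.fst))
  exact PTime.map (f := fun (_ : α) (f : ℕ × (List (List Bool) × List ℕ)) => f.2.2) h1
    (PTime.snd.comp (PTime.snd.comp PTime.snd))

/-- the remainder of one set -/
def PB_one (tb : List (List Bool × List ℕ)) (W B d : ℕ) (P : List (Pt (List Bool)))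
    (s : List Bool) (q : Pt (List Bool) × ℕ) : Pt (List Bool) :=
  (q.1.1.drop (B * mydiv q.1.1.length B),
    q.1.2.filterMap (subv d (sumv d
      (((gful tb W B P s).filter (fun f => decide (f.1 = q.2))).map (fun f => f.2.2)))))

theorem PB_one_ptime (tb : List (List Bool × List ℕ)) (W B d : ℕ)
    {P : α → List (Pt (List Bool))} {s : α → List Bool} (hP : PTime P) (hs : PTime s) :
    PTime (fun z : α × (Pt (List Bool) × ℕ) => PB_one tb W B d (P z.1) (s z.1) z.2) := by
  have h1 : PTime (fun z : α × (Pt (List Bool) × ℕ) => z.2.1.1) :=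
    PTime.fst.comp (PTime.fst.comp PTime.snd)
  have h2 : PTime (fun z : α × (Pt (List Bool) × ℕ) =>
      z.2.1.1.drop (B * mydiv z.2.1.1.length B)) :=
    PTime.drop (PTime.mul (PTime.const B) (PB_div B h1)) h1
  have h3 : PTime (fun z : α × (Pt (List Bool) × ℕ) => sumv d
      (((gful tb W B (P z.1) (s z.1)).filter (fun f => decide (f.1 = z.2.2))).map
        (fun f => f.2.2))) :=
    PB_sumv d (PB_gv tb W B (hP.comp PTime.fst) (hs.comp PTime.fst)
      (PTime.snd.comp PTime.snd))
  have h4 : PTime (fun z : α × (Pt (List Bool) × ℕ) => z.2.1.2.filterMap (subv d (sumv d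
      (((gful tb W B (P z.1) (s z.1)).filter (fun f => decide (f.1 = z.2.2))).map
        (fun f => f.2.2))))) :=
    PB_fm d h3 (PTime.snd.comp (PTime.fst.comp PTime.snd))
  exact h2.pair h4

/-- the remainders -/
theorem PB_rems (tb : List (List Bool × List ℕ)) (W B d : ℕ) {P : α → List (Pt (List Bool))}
    {s : α → List Bool} (hP : PTime P) (hs : PTime s) :
    PTime (fun a => rems tb W B d (P a) (s a)) := by
  have h : PTime (fun a => (P a).zipIdx.map (PB_one tb W B d (P a) (s a))) :=
    PTime.map (f := fun (a : α) (q : Pt (List Bool) × ℕ) => PB_one tb W B d (P a) (s a) q)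
      (PTime.zipIdx hP) (PB_one_ptime tb W B d hP hs)
  refine h.of_eq fun a => ?_
  unfold rems PB_one
  rfl

/-- all blocks -/
theorem PB_blks (tb : List (List Bool × List ℕ)) (W B d : ℕ) {P : α → List (Pt (List Bool))}
    {s : α → List Bool} (hP : PTime P) (hs : PTime s) :
    PTime (fun a => blks tb W B d (P a) (s a)) := by
  unfold blks
  refine PB_nrms d (PTime.append ?_ (PB_rems tb W B d hP hs))
  refine PTime.map (f := fun (_ : α) (f : ℕ × (List (List Bool) × List ℕ)) =>
    (f.2.1, [f.2.2])) (PB_gful tb W B hP hs) ?_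
  exact (PTime.fst.comp (PTime.snd.comp PTime.snd)).pair
    (PTime.cons (PTime.snd.comp (PTime.snd.comp PTime.snd)) (PTime.const []))

end aux

theorem p_PB : S_PB := by
  intro tb W B d
  refine ⟨PB_blks tb W B d PTime.fst PTime.snd, PB_fuls B PTime.id, PB_nrms d PTime.id, ?_⟩
  unfold okB
  exact PTime.all (p := fun (_ : List (Pt (List Bool))) (b : Pt (List Bool)) => !b.2.isEmpty)
    PTime.id (PTime.not (PTime.isEmpty (PTime.snd.comp PTime.snd)))

end Pool.Agent.Lib.MP_87d05f_lc.CC
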