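import Pool.Agent.Lib.MP_87d05f_lc.CC.Stm

set_option autoImplicit false

/-!
# Piece PF: the repair is computed in polynomial time
-/

namespace Pool.Agent.Lib.MP_87d05f_lc.CC

open Pool.Agent.Lib.MP_87d05f_lc Pool.Agent.Lib.MP_87d05f_lc.SP Pool.Agent.PolyTime

theorem PF_cnt (d : ℕ) {α : Type} [SCode α] {y : α → List (List Bool × ℕ)}
    {vs : α → List (List Bool)} (hy : PTime y) (hv : PTime vs) :
    PTime (fun a => cnt d (lkv (y a)) (vs a)) := by
  unfold cnt
  refine PTime.map (l := fun _ => List.range d)
    (f := fun a k => ((vs a).filter (fun v => decide (lkv (y a) v = k))).length)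
    (PTime.const (List.range d)) (PTime.length ?_)
  refine PTime.filter (l := fun p : α × ℕ => vs p.1)
    (p := fun p v => decide (lkv (y p.1) v = p.2)) (hv.comp PTime.fst) ?_
  exact PTime.eq (lkv_ptime (hy.comp (PTime.fst.comp PTime.fst)) PTime.snd)
    (PTime.snd.comp PTime.fst)

theorem PF_can (d : ℕ) {α : Type} [SCode α] {b : α → Pt (List Bool)} (hb : PTime b) :
    PTime (fun a => can d (b a)) := by
  unfold can prs
  have h1 : PTime (fun a => (List.range d).flatMap
      (fun k => List.replicate (((b a).2.headD []).getD k 0) k)) := by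
    refine PTime.flatMap (l := fun _ => List.range d)
      (f := fun a k => List.replicate (((b a).2.headD []).getD k 0) k)
      (PTime.const (List.range d)) ?_
    exact PTime.replicate (PTime.getD PTime.snd
      (PTime.headD (PTime.snd.comp (hb.comp PTime.fst)) (PTime.const [])) (PTime.const 0))
      PTime.snd
  refine PTime.map (l := fun a => (b a).1.zipIdx)
    (f := fun a e => (e.1, ((List.range d).flatMap
      (fun k => List.replicate (((b a).2.headD []).getD k 0) k)).getD e.2 0))
    (PTime.zipIdx (PTime.fst.comp hb)) ?_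
  exact (PTime.fst.comp PTime.snd).pair
    (PTime.getD (PTime.snd.comp PTime.snd) (h1.comp PTime.fst) (PTime.const 0))

theorem PF_lku {α : Type} [SCode α] {y : α → List (List Bool × ℕ)} {v : α → List Bool}
    (hy : PTime y) (hv : PTime v) : PTime (fun a => lku (y a) (v a)) := by
  unfold lku
  refine PTime.option_casesOn
    (f := fun a => (y a).find? (fun e => decide (e.1 = v a)))
    (g := fun _ => (0 : ℕ))
    (h := fun _ (e : List Bool × ℕ) => e.2) ?_ (PTime.const _)
    (PTime.snd.comp PTime.snd)
  refine PTime.find? (l := y) (p := fun a (e : List Bool × ℕ) => decide (e.1 = v a)) hy ?_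
  exact PTime.eq (PTime.fst.comp PTime.snd) (hv.comp PTime.fst)

/-- the block of a variable -/
def PF_fnd {V : Type} [DecidableEq V] (BL : List (Pt V)) (v : V) : Option (Pt V) :=
  BL.find? (fun b => decide (v ∈ b.1))

theorem PF_fnd_ptime {α : Type} [SCode α] {BL : α → List (Pt (List Bool))} {v : α → List Bool}
    (hB : PTime BL) (hv : PTime v) : PTime (fun a => PF_fnd (BL a) (v a)) := by
  unfold PF_fnd
  exact PTime.find? hB (PTime.mem (hv.comp PTime.fst) (PTime.fst.comp PTime.snd))

/-- the repair with the block of the variable -/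
theorem PF_fixA {V : Type} [DecidableEq V] (d : ℕ) (BL : List (Pt V)) (A : V → ℕ) (v : V) :
    (Option.casesOn (PF_fnd BL v) (A v)
      (fun b => bif decide (cnt d A b.1 ∈ b.2) then A v else lku (can d b) v) : ℕ) =
      fixA d BL A v := rfl

theorem p_PF : S_PF := by
  intro d
  have hBL : PTime (fun x : (List (Pt (List Bool)) × List (List Bool × ℕ)) × List Bool =>
      x.1.1) := PTime.fst.comp PTime.fst
  have hy : PTime (fun x : (List (Pt (List Bool)) × List (List Bool × ℕ)) × List Bool =>
      x.1.2) := PTime.snd.comp PTime.fst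
  have hv : PTime (fun x : (List (Pt (List Bool)) × List (List Bool × ℕ)) × List Bool =>
      x.2) := PTime.snd
  refine PTime.of_eq (f := fun x : (List (Pt (List Bool)) × List (List Bool × ℕ)) × List Bool =>
    (Option.casesOn (PF_fnd x.1.1 x.2) (lkv x.1.2 x.2)
      (fun b => bif decide (cnt d (lkv x.1.2) b.1 ∈ b.2) then lkv x.1.2 x.2
        else lku (can d b) x.2) : ℕ)) ?_ (fun x => PF_fixA d x.1.1 (lkv x.1.2) x.2)
  refine PTime.option_casesOn
    (f := fun x : (List (Pt (List Bool)) × List (List Bool × ℕ)) × List Bool =>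
      PF_fnd x.1.1 x.2)
    (g := fun x => lkv x.1.2 x.2)
    (h := fun x b => bif decide (cnt d (lkv x.1.2) b.1 ∈ b.2) then lkv x.1.2 x.2
      else lku (can d b) x.2) (PF_fnd_ptime hBL hv) (lkv_ptime hy hv) ?_
  refine PTime.cond ?_ (lkv_ptime (hy.comp PTime.fst) (hv.comp PTime.fst)) ?_
  · exact PTime.of_eq (PTime.mem (PF_cnt d (hy.comp PTime.fst) (PTime.fst.comp PTime.snd))
      (PTime.snd.comp PTime.snd)) (fun _ => decide_eq_decide.2 Iff.rfl)
  · exact PF_lku (PF_can d PTime.snd) (hv.comp PTime.fst)

end Pool.Agent.Lib.MP_87d05f_lc.CC
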