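import Mathlib
import Pool.Agent.Lib.MP_87d05f_lc.CC.Stm

set_option autoImplicit false

/-!
# [CC PG] all programs are polynomial-time (helper82)
-/

namespace Pool.Agent.Lib.MP_87d05f_lc.CC

open Pool.Agent.Lib.MP_87d05f_lc Pool.Agent.Lib.MP_87d05f_lc.SP Pool.Agent.PolyTime

section

variable (d B W : ℕ)

theorem PG_prs (h4 : S_PP) : PTime prsP := h4.1

theorem PG_nr (h1 : S_PB) (h4 : S_PP) :
    PTime (fun x : List Bool => (prsP x).1.map (nrm (V := List Bool) d)) :=
  (h1 [] 0 0 d).2.2.1.comp (PTime.fst.comp (PG_prs h4))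

theorem PG_wBL (h1 : S_PB) (h4 : S_PP) : PTime (wBL d B W) := by
  have h : PTime (fun x : List Bool × List Bool =>
      (((prsP x.1).1.map (nrm (V := List Bool) d), x.2) : List (Pt (List Bool)) × List Bool)) :=
    ((PG_nr d h1 h4).comp PTime.fst).pair PTime.snd
  exact (h1 (gtb d B W) W B d).1.comp h

theorem PG_wdep (h1 : S_PB) (h4 : S_PP) : PTime (wdep d B W) := by
  have h : PTime (fun x : List Bool => fuls B ((prsP x).1.map (nrm (V := List Bool) d))) :=
    (h1 [] 0 B d).2.1.comp (PG_nr d h1 h4)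
  exact PTime.mul (PTime.const W) (PTime.length h)

theorem PG_wvs (h4 : S_PP) : PTime wvs := by
  unfold wvs
  refine PTime.append (PTime.flatMap (f := fun _ (p : Pt (List Bool)) => p.1)
    (PTime.fst.comp (PG_prs h4)) (PTime.fst.comp PTime.snd)) ?_
  exact PTime.flatMap (f := fun _ (c : List (List Bool)) => c.tail)
    (PTime.snd.comp (PG_prs h4)) (PTime.tail PTime.snd)

theorem PG_whh (h4 : S_PP) (b : ℕ) : PTime (whh b) := by
  unfold whh
  exact mydiv_ptime (PTime.length (ded_ptime ((PG_wvs h4).comp PTime.fst))) (PTime.const b)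

theorem PG_wrd : PTime wrd :=
  PTime.cons (f := fun c : List Bool × List (List Bool) => c.1) PTime.fst PTime.snd

theorem PG_gw : PTime gw :=
  (PTime.headD PTime.id (PTime.const [])).pair (PTime.tail PTime.id)

theorem PG_inp (h1 : S_PB) (h4 : S_PP) : PTime (fun x : List Bool × List Bool =>
    ((wBL d B W x, (prsP x.1).2.map gw) :
      List (Pt (List Bool)) × List (List Bool × List (List Bool)))) := by
  refine (PG_wBL d B W h1 h4).pair ?_
  exact PTime.map (f := fun _ (c : List (List Bool)) => gw c)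
    (PTime.snd.comp ((PG_prs h4).comp PTime.fst)) (PG_gw.comp PTime.snd)

theorem PG_qns (h1 : S_PB) (h2 : S_PQ) (h4 : S_PP) (M : ℕ) (tb : TabV)
    (tbS : List ((ℕ × List Bool) × List Bool)) : PTime (fun x : List Bool × List Bool =>
      qns M tb tbS (cvs0 d B) d (wBL d B W x) ((prsP x.1).2.map gw)) :=
  PTime.comp (f := fun x : List (Pt (List Bool)) × List (List Bool × List (List Bool)) =>
    qns M tb tbS (cvs0 d B) d x.1 x.2) (g := fun x : List Bool × List Bool =>
    ((wBL d B W x, (prsP x.1).2.map gw) :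
      List (Pt (List Bool)) × List (List Bool × List (List Bool))))
    (h2 M tb tbS (cvs0 d B) d) (PG_inp d B W h1 h4)

theorem PG_wqn (h1 : S_PB) (h2 : S_PQ) (h4 : S_PP) (M : ℕ) (tb : TabV)
    (tbS : List ((ℕ × List Bool) × List Bool)) : PTime (wqn d B W M tb tbS) := by
  unfold wqn
  exact PTime.map (f := fun (_ : List Bool × List Bool) (c : List Bool × List (List Bool)) =>
    wrd c) (PG_qns d B W h1 h2 h4 M tb tbS) (PG_wrd.comp PTime.snd)

theorem PG_asc (h1 : S_PB) (h2 : S_PQ) (h4 : S_PP) (M : ℕ) (tb : TabV)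
    (tbS : List ((ℕ × List Bool) × List Bool)) :
    PTime (fun y : List Bool × (List Bool × List Bool) =>
      asc (wqn d B W M tb tbS (y.1, y.2.1)) y.2.2) := by
  have h : PTime (fun y : List Bool × (List Bool × List Bool) =>
      wqn d B W M tb tbS (y.1, y.2.1)) :=
    (PG_wqn d B W h1 h2 h4 M tb tbS).comp (PTime.fst.pair (PTime.fst.comp PTime.snd))
  exact asc_ptime h (PTime.snd.comp PTime.snd)

theorem PG_wva (h1 : S_PB) (h2 : S_PQ) (h3 : S_PF) (h4 : S_PP) (M : ℕ) (tb : TabV)
    (tbS : List ((ℕ × List Bool) × List Bool)) {α : Type} [SCode α]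
    {y : α → List Bool × (List Bool × List Bool)} {v : α → List Bool}
    (hy : PTime y) (hv : PTime v) :
    PTime (fun a => wva d B W M tb tbS (y a) (v a)) := by
  have h5 : PTime (fun y : List Bool × (List Bool × List Bool) =>
      wBL d B W (y.1, y.2.1)) :=
    (PG_wBL d B W h1 h4).comp (PTime.fst.pair (PTime.fst.comp PTime.snd))
  have h6 : PTime (fun a => (((wBL d B W ((y a).1, (y a).2.1),
      asc (wqn d B W M tb tbS ((y a).1, (y a).2.1)) (y a).2.2), v a) :
      (List (Pt (List Bool)) × List (List Bool × ℕ)) × List Bool)) :=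
    ((h5.comp hy).pair ((PG_asc d B W h1 h2 h4 M tb tbS).comp hy)).pair hv
  exact (h3 d).comp h6

theorem PG_pay (h1 : S_PB) (h2 : S_PQ) (h3 : S_PF) (h4 : S_PP) (M : ℕ) (tb : TabV)
    (tbS : List ((ℕ × List Bool) × List Bool)) {α : Type} [SCode α]
    {y : α → List Bool × (List Bool × List Bool)} {c : α → List (List Bool)}
    (hy : PTime y) (hc : PTime c) :
    PTime (fun a => payW tb (wva d B W M tb tbS (y a)) (c a)) := by
  unfold payW
  refine PTime.option_casesOn
    (f := fun a => tb.find? (fun e => decide (e.1 =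
      ((c a).headD [], (c a).tail.map (wva d B W M tb tbS (y a))))))
    (g := fun _ => (0 : ℕ))
    (h := fun _ (e : (List Bool × List ℕ) × ℕ) => e.2) ?_ (PTime.const _)
    (PTime.snd.comp PTime.snd)
  refine PTime.find? (l := fun _ => tb) (p := fun a (e : (List Bool × List ℕ) × ℕ) =>
    decide (e.1 = ((c a).headD [], (c a).tail.map (wva d B W M tb tbS (y a)))))
    (PTime.const tb) ?_
  have h5 : PTime (fun a => ((c a).headD [], (c a).tail.map (wva d B W M tb tbS (y a)))) :=
    (PTime.headD hc (PTime.const [])).pair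
      (PTime.map (f := fun a w => wva d B W M tb tbS (y a) w) (PTime.tail hc)
        (PG_wva d B W h1 h2 h3 h4 M tb tbS (hy.comp PTime.fst) PTime.snd))
  exact PTime.eq (PTime.fst.comp PTime.snd) (h5.comp PTime.fst)

theorem PG_wsc (h1 : S_PB) (h2 : S_PQ) (h3 : S_PF) (h4 : S_PP) (M : ℕ) (tb : TabV)
    (tbS : List ((ℕ × List Bool) × List Bool)) : PTime (wsc d B W M tb tbS) := by
  have h : PTime (fun y : List Bool × (List Bool × List Bool) => ((prsP y.1).2.flatMap
      (fun c => List.replicate (payW tb (wva d B W M tb tbS y) c) ())).length) := by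
    refine PTime.length (PTime.flatMap
      (f := fun (y : List Bool × (List Bool × List Bool)) c =>
        List.replicate (payW tb (wva d B W M tb tbS y) c) ())
      (PTime.snd.comp ((PG_prs h4).comp PTime.fst)) ?_)
    exact PTime.replicate (PG_pay d B W h1 h2 h3 h4 M tb tbS PTime.fst PTime.snd)
      (PTime.const ())
  refine h.of_eq fun y => ?_
  unfold wsc
  rw [List.length_flatMap]
  simp only [List.length_replicate]

theorem PG_wou (h1 : S_PB) (h2 : S_PQ) (h3 : S_PF) (h4 : S_PP) (M : ℕ) (tb : TabV)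
    (tbS : List ((ℕ × List Bool) × List Bool)) : PTime (wou d B W M tb tbS) := by
  unfold wou
  refine PTime.flatMap (f := fun (y : List Bool × (List Bool × List Bool)) v =>
    List.replicate (wva d B W M tb tbS y v) true ++ [false])
    ((PG_wvs h4).comp PTime.fst) ?_
  exact PTime.append (PTime.replicate (PG_wva d B W h1 h2 h3 h4 M tb tbS PTime.fst PTime.snd)
    (PTime.const true)) (PTime.const [false])

end

theorem p_PG (h1 : S_PB) (h2 : S_PQ) (h3 : S_PF) (h4 : S_PP) : S_PG := by
  intro d B W M b tb tbS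
  exact ⟨PG_wdep d B W h1 h4, (h1 [] 0 B d).2.2.2.comp (PG_wBL d B W h1 h4),
    encW_ptime (PG_wqn d B W h1 h2 h4 M tb tbS), PG_whh h4 b,
    PG_wsc d B W h1 h2 h3 h4 M tb tbS, PG_wou d B W h1 h2 h3 h4 M tb tbS⟩

end Pool.Agent.Lib.MP_87d05f_lc.CC
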