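import Pool.Agent.Lib.MP_87d05f_lc.CC.Stm

set_option autoImplicit false

/-!
# MP_87d05f_lc, project CC, piece PP: reading the code
-/

namespace Pool.Agent.Lib.MP_87d05f_lc.CC

open Pool.Agent.Lib.MP_87d05f_lc Pool.Agent.Lib.MP_87d05f_lc.SP Pool.Agent.PolyTime

theorem PP_pst_ptime : PTime pst := by
  have h1 : PTime (fun r : List (List (List Bool)) × List (Pt (List Bool)) => r.1.headD []) :=
    PTime.headD PTime.fst (PTime.const [])
  have hk : PTime (fun r : List (List (List Bool)) × List (Pt (List Bool)) =>
      ((r.1.headD []).headD []).length) :=
    PTime.length (PTime.headD h1 (PTime.const []))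
  have ht : PTime (fun r : List (List (List Bool)) × List (Pt (List Bool)) => r.1.tail) :=
    PTime.tail PTime.fst
  have hm : PTime (fun r : List (List (List Bool)) × List (Pt (List Bool)) =>
      (r.1.tail.take ((r.1.headD []).headD []).length).map
        (fun c : List (List Bool) => c.map List.length)) :=
    PTime.map (f := fun (_ : List (List (List Bool)) × List (Pt (List Bool)))
        (c : List (List Bool)) => c.map List.length)
      (PTime.take hk ht)
      (PTime.map (f := fun (_ : (List (List (List Bool)) × List (Pt (List Bool))) ×
        List (List Bool)) (w : List Bool) => w.length) PTime.snd (PTime.length PTime.snd))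
  exact PTime.pair (PTime.drop hk ht) (PTime.append PTime.snd
    (PTime.cons (PTime.pair (PTime.tail h1) hm) (PTime.const [])))

theorem PP_sz_map_length (c : List (List Bool)) : sz (c.map List.length) ≤ sz c := by
  induction c with
  | nil => exact le_rfl
  | cons w c ih =>
    rw [List.map_cons, sz_cons, sz_cons, sz_nat]
    have := length_le_sz w
    omega

theorem PP_sz_map (l : List (List (List Bool))) :
    sz (l.map (fun c : List (List Bool) => c.map List.length)) ≤ sz l := by
  induction l with
  | nil => exact le_rfl
  | cons w c ih =>
    rw [List.map_cons, sz_cons, sz_cons]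
    have := PP_sz_map_length w
    omega

theorem PP_sz_pst (r : List (List (List Bool)) × List (Pt (List Bool))) :
    sz (pst r) ≤ sz r + 4 := by
  obtain ⟨L, acc⟩ := r
  cases L with
  | nil =>
    have h := sz_append acc [(([], []) : Pt (List Bool))]
    simp only [sz_cons, sz_pair, sz_nil] at h
    show sz (([] : List (List (List Bool))), acc ++ [(([], []) : Pt (List Bool))]) ≤ _
    rw [sz_pair, sz_pair, sz_nil]
    omega
  | cons h T =>
    set k := (h.headD []).length with hk
    have e : pst (h :: T, acc) = (T.drop k, acc ++ [(h.tail,
        (T.take k).map (fun c : List (List Bool) => c.map List.length))]) := rfl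
    have h1 := sz_append acc [((h.tail,
        (T.take k).map (fun c : List (List Bool) => c.map List.length)) : Pt (List Bool))]
    have h2 := sz_append (T.take k) (T.drop k)
    rw [List.take_append_drop] at h2
    have h3 := PP_sz_map (T.take k)
    have h4 : sz h.tail ≤ sz h := by
      cases h with
      | nil => exact le_rfl
      | cons a h' =>
        rw [List.tail_cons, sz_cons]
        omega
    simp only [sz_cons, sz_pair, sz_nil] at h1
    rw [e, sz_pair, sz_pair, sz_cons]
    omega

theorem PP_iter (L : List (Pt ℕ)) : ∀ (R : List (List (List Bool))) (acc : List (Pt (List Bool))),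
    pst^[L.length] (L.flatMap partC ++ R, acc) = (R, acc ++ L.map (mp Nat.bits)) := by
  induction L with
  | nil => intro R acc; simp
  | cons p L ih =>
    intro R acc
    have hlen : (p.2.map (fun c : List ℕ => c.map (fun k => List.replicate k true))).length =
        p.2.length := List.length_map _
    have e : pst ((p :: L).flatMap partC ++ R, acc) =
        (L.flatMap partC ++ R, acc ++ [mp Nat.bits p]) := by
      have e1 : (p :: L).flatMap partC ++ R =
          (List.replicate p.2.length true :: p.1.map Nat.bits) ::
            (p.2.map (fun c : List ℕ => c.map (fun k => List.replicate k true)) ++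
              (L.flatMap partC ++ R)) := by
        rw [List.flatMap_cons]
        simp [partC]
      rw [e1]
      unfold pst mp
      simp only [List.headD_cons, List.tail_cons, List.length_replicate, Prod.mk.injEq]
      refine ⟨?_, ?_⟩
      · rw [← hlen, List.drop_left]
      · congr 2
        rw [Prod.mk.injEq]
        refine ⟨rfl, ?_⟩
        conv_lhs => rw [← hlen]
        rw [List.take_left, List.map_map]
        conv_rhs => rw [← List.map_id p.2]
        refine List.map_congr_left fun c _ => ?_
        rw [Function.comp_apply, List.map_map]
        conv_rhs => rw [id, ← List.map_id c]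
        refine List.map_congr_left fun k _ => ?_
        simp
    rw [List.length_cons, Function.iterate_succ_apply, e, ih]
    simp

/-- [PP] -/
theorem p_PP : S_PP := by
  refine ⟨?_, fun d g ar I => ?_⟩
  · have hn : PTime (fun x : List Bool => (((parseW x).headD []).headD []).length) :=
      PTime.length (PTime.headD (PTime.headD parseW_ptime (PTime.const [])) (PTime.const []))
    have hs : PTime (fun x : List Bool => ((parseW x).tail, ([] : List (Pt (List Bool))))) :=
      PTime.pair (PTime.tail parseW_ptime) (PTime.const [])
    have h := PTime.iterate (f := fun (_ : List Bool) r => pst r) hn hs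
      (PP_pst_ptime.comp PTime.snd) 4 (fun a s => by
        have := PP_sz_pst s
        simpa using this)
    exact PTime.pair (PTime.snd.comp h) (PTime.fst.comp h)
  · unfold prsP enP
    rw [parseW_encW]
    simp only [List.headD_cons, List.tail_cons, List.length_replicate]
    rw [PP_iter]
    simp

end Pool.Agent.Lib.MP_87d05f_lc.CC
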