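import Pool.Agent.Lib.MP_87d05f_lc.CC.Stm

set_option autoImplicit false

/-!
# CC, piece PQ: the instance without side constraints is computed in polynomial time
-/

namespace Pool.Agent.Lib.MP_87d05f_lc.CC

open Pool.Agent.Lib.MP_87d05f_lc Pool.Agent.Lib.MP_87d05f_lc.SP Pool.Agent.PolyTime

section

/-- membership as a Boolean, with the instance used in `CC/Defs.lean` -/
abbrev PQ_mem {β : Type} [DecidableEq β] (x : β) (l : List β) : Bool := decide (x ∈ l)

variable {α : Type} [SCode α]

theorem PQ_prs {vs : α → List (List Bool)} {xs : α → List ℕ} (hv : PTime vs) (hx : PTime xs) :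
    PTime (fun a => prs (vs a) (xs a)) := by
  unfold prs
  refine PTime.map (f := fun a (e : List Bool × ℕ) => (e.1, (xs a).getD e.2 0))
    (PTime.zipIdx hv) ?_
  exact (PTime.fst.comp PTime.snd).pair
    (PTime.getD (PTime.snd.comp PTime.snd) (hx.comp PTime.fst) (PTime.const 0))

theorem PQ_conz {z : α → List (List Bool × ℕ)} (hz : PTime z) :
    PTime (fun a => conz (z a)) := by
  unfold conz
  refine PTime.all (p := fun a (p : List Bool × ℕ) => (z a).all (fun q =>
    bif decide (p.1 = q.1) then decide (p.2 = q.2) else true)) hz ?_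
  refine PTime.all (p := fun (b : α × (List Bool × ℕ)) (q : List Bool × ℕ) =>
    bif decide (b.2.1 = q.1) then decide (b.2.2 = q.2) else true) (hz.comp PTime.fst) ?_
  refine PTime.cond ?_ ?_ (PTime.const true)
  · exact PTime.eq (PTime.fst.comp (PTime.snd.comp PTime.fst)) (PTime.fst.comp PTime.snd)
  · exact PTime.eq (PTime.snd.comp (PTime.snd.comp PTime.fst)) (PTime.snd.comp PTime.snd)

theorem PQ_occz {z : α → List (List Bool × ℕ)} {b : α → List (List Bool)} {k : α → ℕ}
    (hz : PTime z) (hb : PTime b) (hk : PTime k) :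
    PTime (fun a => occz (z a) (b a) (k a)) := by
  unfold occz
  refine PTime.length (ded_ptime ?_)
  refine PTime.map (f := fun _ (p : List Bool × ℕ) => p.1) ?_ (PTime.fst.comp PTime.snd)
  refine PTime.filter (p := fun a (p : List Bool × ℕ) =>
    decide (p.2 = k a) && PQ_mem p.1 (b a)) hz ?_
  exact PTime.and (PTime.eq (PTime.snd.comp PTime.snd) (hk.comp PTime.fst))
    (PTime.mem (PTime.fst.comp PTime.snd) (hb.comp PTime.fst))

theorem PQ_fits (d : ℕ) {BL : α → List (Pt (List Bool))} {z : α → List (List Bool × ℕ)}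
    (hBL : PTime BL) (hz : PTime z) : PTime (fun a => fits d (BL a) (z a)) := by
  unfold fits
  refine PTime.all (p := fun a (b : Pt (List Bool)) => b.2.any (fun c =>
    (List.range d).all (fun k => decide (occz (z a) b.1 k ≤ c.getD k 0)))) hBL ?_
  refine PTime.any (p := fun (q : α × Pt (List Bool)) (c : List ℕ) =>
    (List.range d).all (fun k => decide (occz (z q.1) q.2.1 k ≤ c.getD k 0)))
    (PTime.snd.comp PTime.snd) ?_
  refine PTime.all (p := fun (r : (α × Pt (List Bool)) × List ℕ) (k : ℕ) =>
    decide (occz (z r.1.1) r.1.2.1 k ≤ r.2.getD k 0)) (PTime.const _) ?_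
  refine PTime.nat_le ?_ ?_
  · exact PQ_occz (hz.comp (PTime.fst.comp (PTime.fst.comp PTime.fst)))
      (PTime.fst.comp (PTime.snd.comp (PTime.fst.comp PTime.fst))) PTime.snd
  · exact PTime.getD PTime.snd (PTime.snd.comp PTime.fst) (PTime.const 0)

theorem PQ_usf (tb : TabV) (d : ℕ) {BL : α → List (Pt (List Bool))}
    {c : α → List Bool × List (List Bool)} (hBL : PTime BL) (hc : PTime c) :
    PTime (fun a => usf tb d (BL a) (c a)) := by
  unfold usf
  refine PTime.any (p := fun a (e : (List Bool × List ℕ) × ℕ) => decide (e.1.1 = (c a).1) &&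
    (decide (0 < e.2) && (conz (prs (c a).2 e.1.2) && fits d (BL a) (prs (c a).2 e.1.2))))
    (PTime.const tb) ?_
  have hp : PTime (fun q : α × ((List Bool × List ℕ) × ℕ) => prs (c q.1).2 q.2.1.2) :=
    PQ_prs ((PTime.snd.comp hc).comp PTime.fst) (PTime.snd.comp (PTime.fst.comp PTime.snd))
  refine PTime.and (PTime.eq (PTime.fst.comp (PTime.fst.comp PTime.snd))
    ((PTime.fst.comp hc).comp PTime.fst)) (PTime.and ?_ (PTime.and (PQ_conz hp)
      (PQ_fits d (hBL.comp PTime.fst) hp)))
  exact PTime.nat_lt (PTime.const 0) (PTime.snd.comp PTime.snd)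

theorem PQ_syW (tbS : List ((ℕ × List Bool) × List Bool)) {key : α → ℕ × List Bool}
    (hk : PTime key) : PTime (fun a => syW tbS (key a)) := by
  unfold syW
  refine PTime.option_casesOn
    (f := fun a => tbS.find? (fun e => decide (e.1 = key a)))
    (g := fun _ => ([] : List Bool))
    (h := fun _ (e : (ℕ × List Bool) × List Bool) => e.2) ?_ (PTime.const _)
    (PTime.snd.comp PTime.snd)
  refine PTime.find? (l := fun _ => tbS) (p := fun a (e : (ℕ × List Bool) × List Bool) =>
    decide (e.1 = key a)) (PTime.const tbS) ?_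
  exact PTime.eq (PTime.fst.comp PTime.snd) (hk.comp PTime.fst)

theorem PQ_bkW (tbS : List ((ℕ × List Bool) × List Bool)) (cv : List (List ℕ))
    {b : α → Pt (List Bool)} (hb : PTime b) : PTime (fun a => bkW tbS cv (b a)) := by
  unfold bkW
  refine (PQ_syW tbS ((PTime.length (PTime.fst.comp hb)).pair ?_)).pair (PTime.fst.comp hb)
  refine PTime.map (f := fun a (u : List ℕ) => decide (u ∈ (b a).2)) (PTime.const cv) ?_
  exact (PTime.mem PTime.snd ((PTime.snd.comp hb).comp PTime.fst)).of_eq
    fun a => decide_eq_decide.2 Iff.rfl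

end

theorem p_PQ : S_PQ := by
  intro M tb tbS cv d
  unfold qns
  have hf : PTime (fun x : List (Pt (List Bool)) × List (List Bool × List (List Bool)) =>
      x.2.filter (usf tb d x.1)) :=
    PTime.filter (p := fun (x : List (Pt (List Bool)) × List (List Bool × List (List Bool)))
      (c : List Bool × List (List Bool)) => usf tb d x.1 c) PTime.snd
      (PQ_usf tb d (PTime.fst.comp PTime.fst) PTime.snd)
  refine PTime.append hf ?_
  refine PTime.flatMap (f := fun (x : List (Pt (List Bool)) ×
    List (List Bool × List (List Bool))) (c : List Bool × List (List Bool)) =>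
      c.2.flatMap (fun v => (x.1.filter (fun b => PQ_mem v b.1)).flatMap
        (fun b => List.replicate M (bkW tbS cv b)))) hf ?_
  refine PTime.flatMap (f := fun (y : (List (Pt (List Bool)) ×
    List (List Bool × List (List Bool))) × (List Bool × List (List Bool))) (v : List Bool) =>
      (y.1.1.filter (fun b => PQ_mem v b.1)).flatMap
        (fun b => List.replicate M (bkW tbS cv b))) (PTime.snd.comp PTime.snd) ?_
  refine PTime.flatMap (f := fun (_ : ((List (Pt (List Bool)) ×
    List (List Bool × List (List Bool))) × (List Bool × List (List Bool))) × List Bool)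
      (b : Pt (List Bool)) => List.replicate M (bkW tbS cv b)) ?_ ?_
  · refine PTime.filter (p := fun (z : ((List (Pt (List Bool)) ×
      List (List Bool × List (List Bool))) × (List Bool × List (List Bool))) × List Bool)
        (b : Pt (List Bool)) => PQ_mem z.2 b.1)
      (PTime.fst.comp (PTime.fst.comp PTime.fst)) ?_
    exact PTime.mem (PTime.snd.comp PTime.fst) (PTime.fst.comp PTime.snd)
  · exact PTime.replicate (PTime.const M) (PQ_bkW tbS cv PTime.snd)

end Pool.Agent.Lib.MP_87d05f_lc.CC
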