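import Pool.Agent.Lib.MP_87d05f_lc.CC.Stm

set_option autoImplicit false

/-!
# Piece `[CC RE]`: the repair of an assignment on the blocks
-/

namespace Pool.Agent.Lib.MP_87d05f_lc.CC

open Pool.Agent.Lib.MP_87d05f_lc Pool.Agent.Lib.MP_87d05f_lc.SP Pool.Agent.PolyTime

theorem RE_lku_cons {V : Type} [DecidableEq V] (v : V) (x : ℕ) (y : List (V × ℕ)) (u : V) :
    lku ((v, x) :: y) u = if v = u then x else lku y u := by
  unfold lku
  rw [List.find?_cons]
  by_cases h : v = u
  · simp [h]
  · simp [h]

theorem RE_lku_zip {V : Type} [DecidableEq V] (vs : List V) : ∀ xs : List ℕ, vs.Nodup →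
    xs.length = vs.length → vs.map (lku (vs.zip xs)) = xs := by
  induction vs with
  | nil =>
    intro xs _ h
    have : xs = [] := List.eq_nil_of_length_eq_zero (by simpa using h)
    rw [this]
    rfl
  | cons v vs ih =>
    intro xs hn h
    rcases xs with _ | ⟨x, xs⟩
    · simp at h
    · rw [List.nodup_cons] at hn
      rw [List.zip_cons_cons, List.map_cons, RE_lku_cons, if_pos rfl]
      congr 1
      have h1 : vs.map (lku ((v, x) :: vs.zip xs)) = vs.map (lku (vs.zip xs)) := by
        apply List.map_congr_left
        intro u hu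
        rw [RE_lku_cons, if_neg]
        rintro rfl
        exact hn.1 hu
      rw [h1]
      exact ih xs hn.2 (by simpa using h)

theorem RE_prs_zip {V : Type} (vs : List V) (xs : List ℕ) (h : xs.length = vs.length) :
    prs vs xs = vs.zip xs := by
  apply List.ext_getElem
  · simp [prs, h]
  · intro i h1 h2
    have h3 : i < vs.length := by simpa [prs] using h1
    have h4 : i < xs.length := by omega
    simp [prs, List.getElem?_eq_getElem h4]

/-- the values written out -/
def RE_vals (d : ℕ) (c : List ℕ) : List ℕ :=
  (List.range d).flatMap (fun k => List.replicate (c.getD k 0) k)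

theorem RE_vals_lt (d : ℕ) (c : List ℕ) : ∀ x ∈ RE_vals d c, x < d := by
  intro x hx
  unfold RE_vals at hx
  rw [List.mem_flatMap] at hx
  obtain ⟨k, hk, hx⟩ := hx
  rw [List.eq_of_mem_replicate hx]
  exact List.mem_range.1 hk

theorem RE_range_getD (c : List ℕ) : (List.range c.length).map (fun k => c.getD k 0) = c := by
  apply List.ext_getElem
  · simp
  · intro i h1 h2
    simp [List.getElem?_eq_getElem h2]

theorem RE_vals_length (c : List ℕ) : (RE_vals c.length c).length = c.sum := by
  unfold RE_vals
  rw [List.length_flatMap]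
  simp only [List.length_replicate]
  rw [RE_range_getD]

theorem RE_vals_count (d : ℕ) (c : List ℕ) (k : ℕ) (hk : k < d) :
    (RE_vals d c).count k = c.getD k 0 := by
  unfold RE_vals
  induction d with
  | zero => omega
  | succ d ih =>
    rw [List.range_succ, List.flatMap_append, List.count_append]
    simp only [List.flatMap_cons, List.flatMap_nil, List.append_nil]
    by_cases h : k = d
    · subst h
      have h0 : List.count k (List.flatMap (fun j => List.replicate (c.getD j 0) j)
          (List.range k)) = 0 := by
        rw [List.count_eq_zero]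
        intro hx
        rw [List.mem_flatMap] at hx
        obtain ⟨j, hj, hx⟩ := hx
        have := List.eq_of_mem_replicate hx
        have := List.mem_range.1 hj
        omega
      rw [h0, List.count_replicate_self]
      omega
    · rw [ih (by omega), List.count_replicate]
      have : ¬ (d = k) := fun e => h e.symm
      simp [this]

theorem RE_cnt_eq {V : Type} (d : ℕ) (f : V → ℕ) (vs : List V) :
    cnt d f vs = (List.range d).map (fun k => (vs.map f).count k) := by
  unfold cnt
  apply List.map_congr_left
  intro k _
  induction vs with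
  | nil => rfl
  | cons v vs ih =>
    rw [List.filter_cons, List.map_cons, List.count_cons, ← ih]
    by_cases h : f v = k
    · simp [h]
    · simp [h]

theorem RE_cnt_congr {V : Type} (d : ℕ) (f g : V → ℕ) (vs : List V) (h : ∀ v ∈ vs, f v = g v) :
    cnt d f vs = cnt d g vs := by
  rw [RE_cnt_eq, RE_cnt_eq, List.map_congr_left h]

/-- the values of the canonical assignment -/
theorem RE_can_map {V : Type} [DecidableEq V] (d : ℕ) (b : Pt V) (hn : b.1.Nodup)
    (hl : (b.2.headD []).length = d) (hs : (b.2.headD []).sum = b.1.length) :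
    b.1.map (lku (can d b)) = RE_vals d (b.2.headD []) := by
  have h1 : (RE_vals d (b.2.headD [])).length = b.1.length := by
    rw [← hl, RE_vals_length, hs]
  have h2 : can d b = b.1.zip (RE_vals d (b.2.headD [])) := RE_prs_zip _ _ h1
  rw [h2]
  exact RE_lku_zip _ _ hn h1

theorem RE_can_cnt {V : Type} [DecidableEq V] (d : ℕ) (b : Pt V) (hn : b.1.Nodup)
    (hl : (b.2.headD []).length = d) (hs : (b.2.headD []).sum = b.1.length) :
    cnt d (lku (can d b)) b.1 = b.2.headD [] := by
  rw [RE_cnt_eq, RE_can_map d b hn hl hs]
  have h1 : (List.range d).map (fun k => (RE_vals d (b.2.headD [])).count k) =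
      (List.range d).map (fun k => (b.2.headD []).getD k 0) := by
    apply List.map_congr_left
    intro k hk
    exact RE_vals_count d _ k (List.mem_range.1 hk)
  rw [h1]
  have h2 := RE_range_getD (b.2.headD [])
  rw [hl] at h2
  exact h2

theorem RE_find {V : Type} [DecidableEq V] (BL : List (Pt V)) (b : Pt V) (v : V)
    (hn : (BL.flatMap Prod.fst).Nodup) (hb : b ∈ BL) (hv : v ∈ b.1) :
    BL.find? (fun b => decide (v ∈ b.1)) = some b := by
  induction BL with
  | nil => simp at hb
  | cons b0 BL ih =>
    rw [List.flatMap_cons, List.nodup_append] at hn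
    rw [List.find?_cons]
    rcases List.mem_cons.1 hb with rfl | hb
    · simp [hv]
    · by_cases h : v ∈ b0.1
      · exfalso
        exact hn.2.2 v h v (List.mem_flatMap.2 ⟨b, hb, hv⟩) rfl
      · simp only [h, decide_false]
        exact ih hn.2.1 hb

theorem RE_fixA_none {V : Type} [DecidableEq V] (d : ℕ) (BL : List (Pt V)) (A : V → ℕ) (v : V)
    (h : BL.find? (fun b => decide (v ∈ b.1)) = none) : fixA d BL A v = A v := by
  unfold fixA
  rw [h]

theorem RE_fixA_some {V : Type} [DecidableEq V] (d : ℕ) (BL : List (Pt V)) (A : V → ℕ) (v : V)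
    (b : Pt V) (h : BL.find? (fun b => decide (v ∈ b.1)) = some b) :
    fixA d BL A v = if cnt d A b.1 ∈ b.2 then A v else lku (can d b) v := by
  unfold fixA
  rw [h]
  change (bif decide (cnt d A b.1 ∈ b.2) then A v else lku (can d b) v) = _
  by_cases h1 : cnt d A b.1 ∈ b.2
  · simp [h1]
  · simp [h1]

theorem RE_sum {α β : Type} (M : ℕ) (G : α → List β) (q : β → Bool) (f f' : α → ℕ)
    (T : List α) (h : ∀ c ∈ T, f c + M * ((G c).filter q).length ≤ f' c + M * (G c).length) :
    (T.map f).sum + M * ((T.flatMap G).filter q).length ≤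
      (T.map f').sum + M * (T.flatMap G).length := by
  induction T with
  | nil => simp
  | cons c T ih =>
    have h1 := ih (fun c hc => h c (List.mem_cons_of_mem _ hc))
    have h2 := h c (List.mem_cons_self ..)
    rw [List.map_cons, List.map_cons, List.sum_cons, List.sum_cons, List.flatMap_cons,
      List.filter_append, List.length_append, List.length_append, Nat.mul_add, Nat.mul_add]
    omega

theorem p_RE : S_RE := by
  intro d g B M ar φ BL F hd a hM hB hok
  obtain ⟨hnd, hbl⟩ := hB
  have hhead : ∀ b ∈ BL, b.2.headD [] ∈ b.2 := by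
    intro b hb
    have h1 := List.all_eq_true.1 hok b hb
    rcases hb2 : b.2 with _ | ⟨c, t⟩
    · rw [hb2] at h1
      simp at h1
    · simp
  have hl : ∀ b ∈ BL, (b.2.headD []).length = d := fun b hb => ((hbl b hb).2 _ (hhead b hb)).1
  have hs : ∀ b ∈ BL, (b.2.headD []).sum = b.1.length :=
    fun b hb => ((hbl b hb).2 _ (hhead b hb)).2
  have hnb : ∀ b ∈ BL, b.1.Nodup := by
    intro b hb
    have := List.nodup_flatMap.1 hnd
    exact this.1 b hb
  have hlt : ∀ v, fixA d BL (fun v => (a v : ℕ)) v < d := by
    intro v
    rcases hf : BL.find? (fun b => decide (v ∈ b.1)) with _ | b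
    · rw [RE_fixA_none _ _ _ _ hf]
      exact (a v).isLt
    · rw [RE_fixA_some _ _ _ _ b hf]
      split_ifs
      · exact (a v).isLt
      · have hb : b ∈ BL := List.mem_of_find?_eq_some hf
        have hv : v ∈ b.1 := by
          have := List.find?_some hf
          simpa using this
        apply RE_vals_lt d (b.2.headD [])
        rw [← RE_can_map d b (hnb b hb) (hl b hb) (hs b hb)]
        exact List.mem_map_of_mem hv
  have hval : ∀ v, (fixT hd BL a v : ℕ) = fixA d BL (fun v => (a v : ℕ)) v := by
    intro v
    have := hlt v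
    change min (fixA d BL (fun v => (a v : ℕ)) v) (d - 1) = _
    omega
  refine ⟨?_, hval, ?_⟩
  · intro b hb
    have h1 : cnt d (fun v => (fixT hd BL a v : ℕ)) b.1 =
        cnt d (fun v => fixA d BL (fun v => (a v : ℕ)) v) b.1 :=
      RE_cnt_congr _ _ _ _ (fun v _ => hval v)
    rw [h1]
    by_cases hg : cnt d (fun v => (a v : ℕ)) b.1 ∈ b.2
    · have h2 : cnt d (fun v => fixA d BL (fun v => (a v : ℕ)) v) b.1 =
          cnt d (fun v => (a v : ℕ)) b.1 := by
        apply RE_cnt_congr
        intro v hv
        rw [RE_fixA_some _ _ _ _ b (RE_find BL b v hnd hb hv), if_pos hg]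
      rw [h2]
      exact hg
    · have h2 : cnt d (fun v => fixA d BL (fun v => (a v : ℕ)) v) b.1 =
          cnt d (lku (can d b)) b.1 := by
        apply RE_cnt_congr
        intro v hv
        rw [RE_fixA_some _ _ _ _ b (RE_find BL b v hnd hb hv), if_neg hg]
      rw [h2, RE_can_cnt d b (hnb b hb) (hl b hb) (hs b hb)]
      exact hhead b hb
  · unfold valC plT
    apply RE_sum
    intro c _
    by_cases hall : ∀ v ∈ List.ofFn c.2, ∀ b ∈ BL, v ∈ b.1 →
        cnt d (fun v => (a v : ℕ)) b.1 ∈ b.2
    · have h1 : ∀ j, fixT hd BL a (c.2 j) = a (c.2 j) := by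
        intro j
        apply Fin.ext
        rw [hval]
        rcases hf : BL.find? (fun b => decide (c.2 j ∈ b.1)) with _ | b
        · rw [RE_fixA_none _ _ _ _ hf]
        · rw [RE_fixA_some _ _ _ _ b hf, if_pos]
          have hb : b ∈ BL := List.mem_of_find?_eq_some hf
          have hv : c.2 j ∈ b.1 := by
            have := List.find?_some hf
            simpa using this
          exact hall (c.2 j) (by simp [List.mem_ofFn]) b hb hv
      simp only [h1]
      exact Nat.add_le_add_left (Nat.mul_le_mul_left _ (List.length_filter_le _ _)) _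
    · push Not at hall
      obtain ⟨v, hv, b, hb, hvb, hg⟩ := hall
      have hmem : b ∈ (List.ofFn c.2).flatMap (fun v => BL.filter (fun b => decide (v ∈ b.1))) := by
        rw [List.mem_flatMap]
        exact ⟨v, hv, List.mem_filter.2 ⟨hb, by simp [hvb]⟩⟩
      have hlen : (((List.ofFn c.2).flatMap (fun v => BL.filter (fun b =>
          decide (v ∈ b.1)))).filter (fun b =>
            decide (cnt d (fun v => (a v : ℕ)) b.1 ∈ b.2))).length + 1 ≤
          ((List.ofFn c.2).flatMap (fun v => BL.filter (fun b => decide (v ∈ b.1)))).length := by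
        rw [Nat.succ_le_iff]
        apply List.length_filter_lt_length_iff_exists.2
        exact ⟨b, hmem, by simp [hg]⟩
      have h2 := hM c.1 (fun j => a (c.2 j))
      have h3 := Nat.mul_le_mul_left M hlen
      rw [Nat.mul_add, Nat.mul_one] at h3
      omega

end Pool.Agent.Lib.MP_87d05f_lc.CC
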