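import Mathlib
import Pool.Agent.Lib.MP_87d05f_lc.CC.Stm
import Pool.Agent.Lib.MP_87d05f_lc.SP.P.nfnd

set_option autoImplicit false

/-!
# Search with side constraints: assembly (helper60)
-/

namespace Pool.Agent.Lib.MP_87d05f_lc.CC

open Pool.Agent.Lib.MP_87d05f_lc Pool.Agent.Lib.MP_87d05f_lc.SP Pool.Agent.PolyTime Turing

theorem SC_bound {g d : ℕ} {ar : Fin g → ℕ} (φ : (i : Fin g) → (Fin (ar i) → Fin d) → ℕ) :
    ∃ M, ∀ i x, φ i x ≤ M := by
  refine ⟨∑ i : Fin g, ∑ x : Fin (ar i) → Fin d, φ i x, fun i x => ?_⟩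
  have h1 := Finset.single_le_sum (f := fun i : Fin g => ∑ x : Fin (ar i) → Fin d, φ i x)
    (fun _ _ => Nat.zero_le _) (Finset.mem_univ i)
  have h2 := Finset.single_le_sum (f := fun x : Fin (ar i) → Fin d => φ i x)
    (fun _ _ => Nat.zero_le _) (Finset.mem_univ x)
  exact le_trans h2 h1

theorem SC_arity {g : ℕ} (ar : Fin g → ℕ) : ∃ K, ∀ i, ar i ≤ K :=
  ⟨∑ i, ar i, fun i => Finset.single_le_sum (f := fun i => ar i) (fun _ _ => Nat.zero_le _)
    (Finset.mem_univ i)⟩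

theorem SC_zer {g d : ℕ} {ar : Fin g → ℕ} (φ : (i : Fin g) → (Fin (ar i) → Fin d) → ℕ)
    (hd : 0 < d) (F : List (Con ar)) (a : ℕ → Fin d) :
    valC φ (zer hd F a) F = valC φ a F := by
  unfold valC
  refine congrArg List.sum (List.map_congr_left fun c hc => ?_)
  refine congrArg _ (funext fun j => ?_)
  unfold zer
  rw [if_pos]
  exact List.mem_flatMap.2 ⟨c, hc, (List.mem_ofFn' _ _).2 ⟨j, rfl⟩⟩

theorem p_SC (h1 : S_LK) (h2 : S_BL) (h3 : S_SE) (h4 : S_GF) (h5 : S_PG) (h6 : S_CO)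
    (h7 : S_LN) : S_SC := by
  intro hN d g ar φ hd H p q b hp hpq hb
  obtain ⟨M, hM⟩ := SC_bound φ
  obtain ⟨K, hK⟩ := SC_arity ar
  obtain ⟨B, W, hB, hBW, hW⟩ := h1.2.2.2 d b
  obtain ⟨R, hR⟩ : ∃ R : ℕ, R = 1 + M * K * (d ^ (B + 1)) ^ K := ⟨_, rfl⟩
  have hR0 : 0 < R := by
    rw [hR]
    omega
  have hq : 0 < q := by omega
  have hpR : p < q * R := lt_of_lt_of_le hpq (Nat.le_mul_of_pos_right q hR0)
  have hfind : GFind (codeC (ar := arY d B ar)) (fun _ => True)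
      (goodMax (phY B φ) ((p : ℚ) / ((q * R : ℕ) : ℕ))) nvC (2 * b) :=
    hN d (g + NC d B) (arY d B ar) (phY B φ) hd H p (q * R) (2 * b) hp hpR (by omega)
  obtain ⟨g1, g2, g3, g4, g5, g6⟩ := h5 d B W M (2 * b) (tabV φ) (tabS g d B)
  obtain ⟨hL1, Q, hQ, hL2⟩ := h7 d g B W M ar φ hd hB hM
  have hε0 : (0 : ℚ) < (p : ℚ) / (q : ℕ) := by
    have e1 : (0 : ℚ) < p := by exact_mod_cast hp
    have e2 : (0 : ℚ) < ((q : ℕ) : ℚ) := by exact_mod_cast hq
    exact div_pos e1 e2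
  have hε1 : (p : ℚ) / (q : ℕ) < 1 := by
    have e2 : (0 : ℚ) < ((q : ℕ) : ℚ) := by exact_mod_cast hq
    rw [div_lt_one e2]
    exact_mod_cast hpq
  have hεR : (p : ℚ) / ((q * R : ℕ) : ℕ) = (p : ℚ) / (q : ℕ) / (1 + M * K * (d ^ (B + 1)) ^ K) := by
    rw [hR]
    push_cast
    rw [div_div]
  have hgb : ∀ I : List (Pt ℕ) × List (Con ar), PrP d I → gbt d B W I.1 ≤ nvP I / (2 * b) := by
    intro I hI
    obtain ⟨-, -, e3, e4, -⟩ := h2 [] W B d I.1 [] hB
    unfold gbt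
    rw [e4]
    have e5 : (I.1.flatMap Prod.fst).length ≤ nvP I := by
      unfold nvP vsP
      rw [← List.toFinset_card_of_nodup hI.1, List.toFinset_append]
      exact Finset.card_le_card Finset.subset_union_left
    rw [Nat.le_div_iff_mul_le (by omega)]
    calc W * (fuls B I.1).length * (2 * b) = (2 * b * W) * (fuls B I.1).length := by ring
      _ ≤ B * (fuls B I.1).length := Nat.mul_le_mul_right _ hW
      _ ≤ nvP I := e3.trans e5
  have h2b : ∀ n : ℕ, n / (2 * b) + n / (2 * b) ≤ n / b := by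
    intro n
    have e1 : n / (2 * b) = n / b / 2 := by
      rw [Nat.div_div_eq_div_mul, Nat.mul_comm 2 b]
    rw [e1]
    omega
  refine h4 (List (Pt ℕ) × List (Con ar)) (List (Con (arY d B ar))) enP codeC (PrP d)
    (fun _ => True) (goP φ ((p : ℚ) / (q : ℕ)))
    (goodMax (phY B φ) ((p : ℚ) / ((q * R : ℕ) : ℕ))) nvP nvC b (2 * b)
    (fun I s => qnC B M φ (BLs d B W I.1 s) I.2) (wdep d B W) (fun x => okB (wBL d B W x))
    (fun x => encW (wqn d B W M (tabV φ) (tabS g d B) x)) (whh (2 * b))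
    (wsc d B W M (tabV φ) (tabS g d B)) (wou d B W M (tabV φ) (tabS g d B)) Q hQ
    g1 g2 g3 g4 g5 g6 (fun I _ => hL1 I) ?_ ?_ ?_ ?_ hfind
  · intro I hI
    rw [(h6 d g B W M (2 * b) ar φ hd I hB (by omega) hM hI).1]
    have e1 := hgb I hI
    have e2 := h2b (nvP I)
    omega
  · intro I hI
    obtain ⟨c1, -, c3⟩ := h6 d g B W M (2 * b) ar φ hd I hB (by omega) hM hI
    obtain ⟨s, hs, hok⟩ := (h3 d g B W K M ar φ hd I _ hB hBW hK hM hI hε0 hε1).1
    refine ⟨s, by rw [c1]; exact hs, ?_⟩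
    rw [(c3 s).1]
    exact hok
  · intro I hI s hs hok
    obtain ⟨c1, c2, c3⟩ := h6 d g B W M (2 * b) ar φ hd I hB (by omega) hM hI
    obtain ⟨d1, d2, d3, -⟩ := c3 s
    have e1 := hgb I hI
    have e2 := h2b (nvP I)
    refine ⟨trivial, ?_, ?_, ?_, ?_⟩
    · rw [d2, codeC_eq]
    · rw [c2 s]
      exact Nat.div_le_div_right d3
    · rw [c1, c2 s]
      omega
    · rintro w ⟨a, rfl, -⟩
      refine hL2 I hI s a ?_
      rw [hs, c1]
      have e3 := hL1 I
      have e4 : nvP I / (2 * b) ≤ nvP I := Nat.div_le_self _ _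
      omega
  · intro I hI an han s hs hok hbest
    classical
    obtain ⟨c1, -, c3⟩ := h6 d g B W M (2 * b) ar φ hd I hB (by omega) hM hI
    -- the answers
    have hex : ∀ s : List Bool, ∃ a : ℕ → Fin d, (s.length = wdep d B W (enP I) →
        okB (wBL d B W (enP I, s)) = true →
        an s = outW (qnC B M φ (BLs d B W I.1 s) I.2) a ∧
        NOp (phY B φ) ((p : ℚ) / ((q * R : ℕ) : ℕ)) (qnC B M φ (BLs d B W I.1 s) I.2) a) := by
      intro s
      by_cases hc : s.length = wdep d B W (enP I) ∧ okB (wBL d B W (enP I, s)) = true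
      · obtain ⟨a, ha1, ha2⟩ := han s hc.1 hc.2
        exact ⟨a, fun _ _ => ⟨ha1, ha2⟩⟩
      · exact ⟨fun _ => ⟨0, hd⟩, fun e1 e2 => absurd ⟨e1, e2⟩ hc⟩
    choose A hA using hex
    obtain ⟨A', hA'⟩ : ∃ A' : List Bool → ℕ → Fin d, A' = fun s =>
      zer hd (qnC B M φ (BLs d B W I.1 s) I.2) (A s) := ⟨_, rfl⟩
    have hsc : ∀ s : List Bool, s.length = wdep d B W (enP I) →
        okB (wBL d B W (enP I, s)) = true →
        wsc d B W M (tabV φ) (tabS g d B) (enP I, (s, an s)) =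
          valC φ (fixT hd (BLs d B W I.1 s) (A' s)) I.2 ∧
        wou d B W M (tabV φ) (tabS g d B) (enP I, (s, an s)) =
          ouP I (fixT hd (BLs d B W I.1 s) (A' s)) := by
      intro s e1 e2
      obtain ⟨d1, -, -, d4⟩ := c3 s
      rw [(hA s e1 e2).1, hA']
      exact d4 (by rw [← d1]; exact e2) (A s)
    obtain ⟨-, m2, m3⟩ := h3 d g B W K M ar φ hd I ((p : ℚ) / (q : ℕ)) hB hBW hK hM hI hε0 hε1
    have hok' : okB (BLs d B W I.1 s) = true := by
      rw [← (c3 s).1]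
      exact hok
    refine ⟨fixT hd (BLs d B W I.1 s) (A' s), m2 s (A' s) hok', (hsc s hs hok).2, ?_⟩
    refine m3 A' ?_ s (by rw [← c1]; exact hs) hok' ?_
    · intro s e1 e2
      have e3 := (hA s (by rw [c1]; exact e1) (by rw [(c3 s).1]; exact e2)).2
      rw [← hεR, hA']
      intro a'
      rw [SC_zer]
      exact e3 a'
    · intro s' e1 e2
      have e1' : s'.length = wdep d B W (enP I) := by rw [c1]; exact e1
      have e2' : okB (wBL d B W (enP I, s')) = true := by rw [(c3 s').1]; exact e2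
      rw [← (hsc s' e1' e2').1, ← (hsc s hs hok).1]
      exact hbest s' e1' e2'

end Pool.Agent.Lib.MP_87d05f_lc.CC
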