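import Pool.Agent.Lib.MP_87d05f_lc.CC.Stm

set_option autoImplicit false

/-!
# SYMMETRIC SIDE CONSTRAINTS, piece SE: semantics, assembly and arithmetic
-/

namespace Pool.Agent.Lib.MP_87d05f_lc.CC

open Pool.Agent.Lib.MP_87d05f_lc Pool.Agent.Lib.MP_87d05f_lc.SP Pool.Agent.PolyTime

/-- a nonempty block for every vector: an assignment as permitted makes the blocks ok -/
theorem SE_okB {d : ℕ} {a : ℕ → Fin d} {BL : List (Pt ℕ)} (h : MaT a BL) : okB BL = true := by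
  unfold okB
  rw [List.all_eq_true]
  intro b hb
  have h1 : cnt d (fun v => (a v : ℕ)) b.1 ∈ b.2 := h b hb
  cases h2 : b.2 with
  | nil => rw [h2] at h1; exact absurd h1 (List.not_mem_nil)
  | cons x l => rfl

theorem SE_len_le {P : List (Pt ℕ)} {b : Pt ℕ} (hb : b ∈ P) :
    b.1.length ≤ (P.flatMap Prod.fst).length := by
  rw [List.length_flatMap]
  exact List.single_le_sum (by simp) _ (List.mem_map.2 ⟨b, hb, rfl⟩)

/-- some assignment obeys the side constraints -/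
theorem SE_exists (h1 : S_BL) (h7 : S_RE) {d g M : ℕ} {ar : Fin g → ℕ}
    {φ : (i : Fin g) → (Fin (ar i) → Fin d) → ℕ} (hd : 0 < d)
    {I : List (Pt ℕ) × List (Con ar)} (hM : ∀ i x, φ i x ≤ M) (hP : PrP d I) :
    ∃ a : ℕ → Fin d, MaT a I.1 := by
  obtain ⟨-, -, -, -, h5, h6, h8⟩ := h1 (gtb d 1 1) 1 1 d I.1 [] Nat.one_pos
  have hblo : Blo d ((I.1.map (nrm (V := ℕ) d)).flatMap Prod.fst).length
      (I.1.map (nrm (V := ℕ) d)) := by
    refine ⟨?_, fun b hb => ⟨SE_len_le hb, h5 b hb⟩⟩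
    rw [h6]
    exact hP.1
  have hok : okB (I.1.map (nrm (V := ℕ) d)) = true := by
    unfold okB
    rw [List.all_eq_true]
    intro b hb
    rw [List.mem_map] at hb
    obtain ⟨p, hp, rfl⟩ := hb
    obtain ⟨c, hc, hc1, hc2⟩ := hP.2 p hp
    have h9 : c ∈ (nrm (V := ℕ) d p).2 := by
      unfold nrm
      rw [List.mem_filter]
      refine ⟨hc, ?_⟩
      rw [Bool.and_eq_true, decide_eq_true_eq, decide_eq_true_eq]
      exact ⟨hc1, hc2⟩
    cases h2 : (nrm (V := ℕ) d p).2 with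
    | nil => rw [h2] at h9; exact absurd h9 (List.not_mem_nil)
    | cons x l => rfl
  obtain ⟨h10, -, -⟩ := h7 d g _ M ar φ (I.1.map (nrm (V := ℕ) d)) [] hd (fun _ => ⟨0, hd⟩) hM
    hblo hok
  exact ⟨_, (h8 _).1 h10⟩

theorem p_SE (h1 : S_BL) (h2 : S_F1) (h3 : S_F2) (h4 : S_U1) (h5 : S_U3) (h6 : S_VA) (h7 : S_RE)
    (h8 : S_PL) : S_SE := by
  intro d g B W K M ar φ hd I ε hB hW hK hM hP hε hε1
  obtain ⟨-, -, -, -, b5, b6, b7⟩ := h1 (gtb d 1 1) 1 1 d I.1 [] Nat.one_pos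
  have hnd : ((I.1.map (nrm (V := ℕ) d)).flatMap Prod.fst).Nodup := by
    rw [b6]
    exact hP.1
  have hblo : ∀ s, Blo d B (BLs d B W I.1 s) := fun s =>
    (h1 (gtb d B W) W B d (I.1.map (nrm (V := ℕ) d)) s hB).1 hnd
  have hguess : ∀ a : ℕ → Fin d, MaT a I.1 → ∃ s : List Bool, s.length = gbt d B W I.1 ∧
      MaT a (BLs d B W I.1 s) := fun a ha =>
    h2 d B W (I.1.map (nrm (V := ℕ) d)) a hB hW ((b7 a).2 ha)
  have hback : ∀ (s : List Bool) (a : ℕ → Fin d), MaT a (BLs d B W I.1 s) → MaT a I.1 :=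
    fun s a ha => (b7 a).1 (h3 (gtb d B W) W B d (I.1.map (nrm (V := ℕ) d)) s a hB
      (fun p hp c hc => (b5 p hp c hc).1) ha)
  refine ⟨?_, ?_, ?_⟩
  · obtain ⟨a, ha⟩ := SE_exists h1 h7 hd hM hP
    obtain ⟨s, hs, hs2⟩ := hguess a ha
    exact ⟨s, hs, SE_okB hs2⟩
  · intro s a hok
    exact hback s _ (h7 d g B M ar φ (BLs d B W I.1 s) [] hd a hM (hblo s) hok).1
  · intro an han s hs hok hmax a' ha'
    -- the best assignment
    obtain ⟨aX, haX, hbest⟩ : ∃ a : ℕ → Fin d, MaT a I.1 ∧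
        ∀ b : ℕ → Fin d, MaT b I.1 → valC φ b I.2 ≤ valC φ a I.2 := by
      have hne : {n : ℕ | ∃ a : ℕ → Fin d, MaT a I.1 ∧ valC φ a I.2 = n}.Nonempty :=
        ⟨_, a', ha', rfl⟩
      have hbd : BddAbove {n : ℕ | ∃ a : ℕ → Fin d, MaT a I.1 ∧ valC φ a I.2 = n} := by
        refine ⟨M * I.2.length, ?_⟩
        rintro n ⟨a, -, rfl⟩
        exact valC_le φ hM a I.2
      obtain ⟨a, ha, ha2⟩ := Nat.sSup_mem hne hbd
      refine ⟨a, ha, fun b hb => ?_⟩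
      rw [ha2]
      exact le_csSup hbd ⟨b, hb, rfl⟩
    obtain ⟨sX, hsX, hsX2⟩ := hguess aX haX
    have hokX := SE_okB hsX2
    have hbl := hblo sX
    set BX := BLs d B W I.1 sX with hBX
    obtain ⟨r1, -, r3⟩ := h7 d g B M ar φ BX I.2 hd (an sX) hM hbl hokX
    have hN := han sX hsX hokX aX
    rw [h6 d g B M ar φ BX I.2 aX hbl, h6 d g B M ar φ BX I.2 (an sX) hbl] at hN
    have hfil : (plT φ BX I.2).filter
        (fun b => decide (cnt d (fun v => (aX v : ℕ)) b.1 ∈ b.2)) = plT φ BX I.2 := by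
      rw [List.filter_eq_self]
      intro b hb
      rw [decide_eq_true_eq]
      unfold plT at hb
      rw [List.mem_flatMap] at hb
      obtain ⟨c, -, hb⟩ := hb
      rw [List.mem_flatMap] at hb
      obtain ⟨v, -, hb⟩ := hb
      exact hsX2 b (List.mem_filter.1 hb).1
    rw [hfil, ← h4 d g ar φ BX I.2 aX hsX2] at hN
    rw [← h4 d g ar φ BX I.2 (fixT hd BX (an sX)) r1] at r3
    obtain ⟨a3, ha3, hu⟩ := h5 d g B K ar φ BX I.2 hd hK hbl hokX
    rw [← h4 d g ar φ BX I.2 a3 ha3] at hu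
    have hu2 := hu.trans (Nat.mul_le_mul_left _ (hbest a3 (hback sX a3 ha3)))
    have hpl := (h8 d g B K ar φ BX I.2 hK hbl).trans (Nat.mul_le_mul_left K hu2)
    have hV := hmax sX hsX hokX
    have hXa := hbest a' ha'
    rw [← hBX] at hV
    set X := valC φ aX I.2 with hX
    set n := (plT φ BX I.2).length with hn
    set Vs := valC φ (fixT hd BX (an sX)) I.2 with hVs
    set Va := valC φ a' I.2
    set V := valC φ (fixT hd (BLs d B W I.1 s) (an s)) I.2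
    set D : ℕ := (d ^ (B + 1)) ^ K with hD
    have hr3 : ((valC φ (an sX) (usT φ BX I.2) + M * ((plT φ BX I.2).filter
        (fun b => decide (cnt d (fun v => ((an sX) v : ℕ)) b.1 ∈ b.2))).length : ℕ) : ℚ) ≤
        ((Vs + M * n : ℕ) : ℚ) := by exact_mod_cast r3
    have hN2 := hN.trans hr3
    have hplQ : (n : ℚ) ≤ (K : ℚ) * ((D : ℚ) * (X : ℚ)) := by exact_mod_cast hpl
    have hVQ : (Vs : ℚ) ≤ (V : ℚ) := by exact_mod_cast hV
    have hXQ : (Va : ℚ) ≤ (X : ℚ) := by exact_mod_cast hXa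
    have hDQ : (((d : ℚ) ^ (B + 1)) ^ K) = (D : ℚ) := by rw [hD]; push_cast; rfl
    rw [hDQ] at hN2
    push_cast at hN2
    have hM0 : (0 : ℚ) ≤ (M : ℚ) := Nat.cast_nonneg _
    have hK0 : (0 : ℚ) ≤ (K : ℚ) := Nat.cast_nonneg _
    have hD0 : (0 : ℚ) ≤ (D : ℚ) := Nat.cast_nonneg _
    have hX0 : (0 : ℚ) ≤ (X : ℚ) := Nat.cast_nonneg _
    have hpos : (0 : ℚ) < 1 + (M : ℚ) * K * D := by positivity
    have hMn : (M : ℚ) * n ≤ (M : ℚ) * ((K : ℚ) * ((D : ℚ) * (X : ℚ))) :=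
      mul_le_mul_of_nonneg_left hplQ hM0
    have hsum : (X : ℚ) + (M : ℚ) * n ≤ (1 + (M : ℚ) * K * D) * X := by
      have : (1 + (M : ℚ) * K * D) * X = X + (M : ℚ) * ((K : ℚ) * ((D : ℚ) * (X : ℚ))) := by ring
      rw [this]
      linarith
    have hE0 : 0 ≤ ε / (1 + (M : ℚ) * K * D) := div_nonneg hε.le hpos.le
    have hE : ε / (1 + (M : ℚ) * K * D) * ((X : ℚ) + (M : ℚ) * n) ≤ ε * X := by
      calc ε / (1 + (M : ℚ) * K * D) * ((X : ℚ) + (M : ℚ) * n)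
          ≤ ε / (1 + (M : ℚ) * K * D) * ((1 + (M : ℚ) * K * D) * X) :=
            mul_le_mul_of_nonneg_left hsum hE0
        _ = ε * X := by
            rw [← mul_assoc, div_mul_cancel₀ _ hpos.ne']
    have hfin : (1 - ε) * (X : ℚ) ≤ (V : ℚ) := by nlinarith [hN2, hE, hVQ]
    have h1e : 0 ≤ 1 - ε := by linarith
    exact (mul_le_mul_of_nonneg_left hXQ h1e).trans hfin

end Pool.Agent.Lib.MP_87d05f_lc.CC
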