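import Pool.Agent.Lib.MP_87d05f_lc.CC.Stm

set_option autoImplicit false

/-!
# SYMMETRIC SIDE CONSTRAINTS: piece [TY], the typed instance
-/

namespace Pool.Agent.Lib.MP_87d05f_lc.CC

open Pool.Agent.Lib.MP_87d05f_lc Pool.Agent.Lib.MP_87d05f_lc.SP Pool.Agent.PolyTime Turing

private theorem TY_ofFn (L : List ℕ) (n : ℕ) (hn : n = L.length) :
    List.ofFn (fun j : Fin n => L.getD (j : ℕ) 0) = L := by
  subst hn
  apply List.ext_getElem
  · simp
  · intro i h1 h2
    simp

private theorem TY_old {g d : ℕ} {ar : Fin g → ℕ} (B : ℕ) (c : Con ar) :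
    wordC (oldC (d := d) B c) = wordC c := by
  unfold wordC
  have h1 : ((oldC (d := d) B c).1 : ℕ) = (c.1 : ℕ) := by
    change ((finSumFinEquiv (Sum.inl c.1) : Fin (g + NC d B)) : ℕ) = _
    rw [finSumFinEquiv_apply_left, Fin.val_castAdd]
  have h2 : List.ofFn (oldC (d := d) B c).2 = List.ofFn c.2 := by
    apply TY_ofFn
    rw [List.length_ofFn]
    change arC B ar ((eC g d B).symm (eC g d B (Sum.inl c.1))) = _
    rw [Equiv.symm_apply_apply]
    rfl
  rw [h1, h2]

private theorem TY_find {α β : Type} (l : List (α × List β)) (p : α × List β → Bool) (v : List β)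
    (h1 : ∃ e ∈ l, p e = true) (h2 : ∀ e ∈ l, p e = true → e.2 = v) :
    (Option.casesOn (l.find? p) [] (fun e => e.2) : List β) = v := by
  cases h : l.find? p with
  | none =>
    rw [List.find?_eq_none] at h
    obtain ⟨e, he, hp⟩ := h1
    exact absurd hp (h e he)
  | some a => exact h2 a (List.mem_of_find?_eq_some h) (List.find?_some h)

private theorem TY_cvs (h : S_LK) {d B : ℕ} (c : Fin d → Fin (B + 1)) :
    List.ofFn (fun k => (c k : ℕ)) ∈ cvs0 d B := by
  rw [h.1]
  refine ⟨by simp, ?_⟩
  intro x hx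
  rw [List.mem_ofFn] at hx
  obtain ⟨k, rfl⟩ := hx
  have := (c k).2
  omega

private theorem TY_inj {d B : ℕ} {c c' : Fin d → Fin (B + 1)}
    (h : List.ofFn (fun k => (c k : ℕ)) = List.ofFn (fun k => (c' k : ℕ))) : c = c' := by
  have := List.ofFn_injective h
  funext k
  exact Fin.ext (congrFun this k)

private theorem TY_sy (h : S_LK) (g d B : ℕ) (b : Pt ℕ) (hb : b.1.length ≤ B) :
    syW (tabS g d B) (b.1.length, (cvs0 d B).map (fun u => decide (u ∈ b.2))) =
      Nat.bits ((eC g d B (Sum.inr (⟨min b.1.length B, by omega⟩, setB d B b)) :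
        Fin (g + NC d B)) : ℕ) := by
  have hmin : min b.1.length B = b.1.length := min_eq_left hb
  have hset : ∀ c : Fin d → Fin (B + 1), c ∈ setB d B b ↔
      List.ofFn (fun k => (c k : ℕ)) ∈ b.2 := by
    intro c
    simp [setB]
  unfold syW
  apply TY_find
  · refine ⟨_, List.mem_map.mpr ⟨(⟨min b.1.length B, by omega⟩, setB d B b),
      Finset.mem_toList.mpr (Finset.mem_univ _), rfl⟩, ?_⟩
    rw [decide_eq_true_eq]
    refine Prod.ext ?_ ?_
    · exact hmin
    · apply List.map_congr_left
      intro u hu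
      rw [decide_eq_decide]
      constructor
      · rintro ⟨c, hc, rfl⟩
        exact (hset c).mp hc
      · intro hub
        obtain ⟨hl, hx⟩ := (h.1 d B u).mp hu
        refine ⟨fun k => ⟨u.getD (k : ℕ) 0, ?_⟩, ?_, ?_⟩
        · have hk : (k : ℕ) < u.length := by rw [hl]; exact k.2
          rw [List.getD_eq_getElem _ _ hk]
          have := hx _ (List.getElem_mem hk)
          omega
        · rw [hset]
          have e : List.ofFn (fun k : Fin d => u.getD (k : ℕ) 0) = u := TY_ofFn u d hl.symm
          simpa only [e] using hub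
        · exact (TY_ofFn u d hl.symm).symm
  · intro e he hp
    obtain ⟨z, _, rfl⟩ := List.mem_map.mp he
    rw [decide_eq_true_eq] at hp
    have h1 := congrArg Prod.fst hp
    have h2 := congrArg Prod.snd hp
    have hz : z = (⟨min b.1.length B, by omega⟩, setB d B b) := by
      refine Prod.ext (Fin.ext (h1.trans hmin.symm)) ?_
      ext c
      rw [hset]
      have h3 := List.map_inj_left.mp h2 _ (TY_cvs h c)
      rw [decide_eq_decide] at h3
      rw [← h3]
      constructor
      · intro hc
        exact ⟨c, hc, rfl⟩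
      · rintro ⟨c', hc', he⟩
        rw [TY_inj he]
        exact hc'
    rw [hz]

private theorem TY_blk (h : S_LK) {g d : ℕ} (ar : Fin g → ℕ) (B : ℕ) (b : Pt ℕ)
    (hb : b.1.length ≤ B) :
    wrd ((bkW (tabS g d B) (cvs0 d B) b).1, (bkW (tabS g d B) (cvs0 d B) b).2.map Nat.bits) =
      wordC (blkC (d := d) B ar b) := by
  unfold wrd bkW wordC
  have h2 : List.ofFn (blkC (d := d) B ar b).2 = b.1 := by
    apply TY_ofFn
    change arC B ar ((eC g d B).symm (eC g d B (Sum.inr (⟨min b.1.length B, _⟩, _)))) = _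
    rw [Equiv.symm_apply_apply]
    exact min_eq_left hb
  rw [h2]
  congr 1
  exact TY_sy h g d B b hb

theorem p_TY (h : S_LK) : S_TY := by
  intro d g B M ar φ BL F hBL
  have hu : (F.map gcn).filter (usf (tabV φ) d BL) = (usT φ BL F).map gcn := by
    rw [List.filter_map]
    rfl
  unfold qns qnC
  rw [hu]
  simp only [List.map_append, List.map_map, List.map_flatMap]
  congr 1
  · apply List.map_congr_left
    intro c _
    rw [Function.comp_apply, Function.comp_apply, Function.comp_apply, TY_old]
    rfl
  · unfold plT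
    rw [List.flatMap_assoc, List.flatMap_map]
    apply List.flatMap_congr
    intro c _
    rw [List.flatMap_assoc]
    apply List.flatMap_congr
    intro v _
    apply List.flatMap_congr
    intro b hb
    rw [List.map_replicate, List.map_replicate]
    congr 1
    exact TY_blk h ar B b (hBL.2 b (List.mem_of_mem_filter hb)).1

end Pool.Agent.Lib.MP_87d05f_lc.CC
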