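import Pool.Agent.Lib.MP_87d05f_lc.CC.Stm

set_option autoImplicit false

/-! [CC U1] useless constraints have payoff `0`. -/

namespace Pool.Agent.Lib.MP_87d05f_lc.CC

open Pool.Agent.Lib.MP_87d05f_lc Pool.Agent.Lib.MP_87d05f_lc.SP Pool.Agent.PolyTime Turing

private theorem U1_prs (A : ℕ → ℕ) (vs : List ℕ) :
    prs vs (vs.map A) = vs.map (fun v => (v, A v)) := by
  unfold prs
  apply List.ext_getElem
  · simp
  · intro n h1 h2
    simp only [List.getElem_map, List.getElem_zipIdx, Nat.zero_add]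
    have h3 : n < vs.length := by simpa using h2
    rw [List.getD_eq_getElem _ _ (by simpa using h3)]
    simp

private theorem U1_conz (A : ℕ → ℕ) (vs : List ℕ) : conz (vs.map (fun v => (v, A v))) = true := by
  unfold conz
  rw [List.all_eq_true]
  intro p hp
  rw [List.all_eq_true]
  intro q hq
  obtain ⟨v, -, rfl⟩ := List.mem_map.1 hp
  obtain ⟨w, -, rfl⟩ := List.mem_map.1 hq
  by_cases h : v = w
  · simp [h]
  · simp [h]

private theorem U1_occz (A : ℕ → ℕ) (vs b : List ℕ) (k : ℕ) :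
    occz (vs.map (fun v => (v, A v))) b k ≤ (b.filter (fun v => decide (A v = k))).length := by
  unfold occz
  refine (List.subperm_of_subset (nodup_ded _) ?_).length_le
  intro x hx
  rw [mem_ded] at hx
  obtain ⟨p, hp, rfl⟩ := List.mem_map.1 hx
  obtain ⟨hp1, hp2⟩ := List.mem_filter.1 hp
  obtain ⟨v, -, rfl⟩ := List.mem_map.1 hp1
  rw [Bool.and_eq_true, decide_eq_true_eq, decide_eq_true_eq] at hp2
  exact List.mem_filter.2 ⟨hp2.2, by simpa using hp2.1⟩

private theorem U1_fits (d : ℕ) (BL : List (Pt ℕ)) (A : ℕ → ℕ) (h : Mat d A BL) (vs : List ℕ) :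
    fits d BL (vs.map (fun v => (v, A v))) = true := by
  unfold fits
  rw [List.all_eq_true]
  intro b hb
  rw [List.any_eq_true]
  refine ⟨_, h b hb, ?_⟩
  rw [List.all_eq_true]
  intro k hk
  rw [decide_eq_true_eq]
  refine (U1_occz A vs b.1 k).trans ?_
  have hk' : k < d := List.mem_range.1 hk
  unfold cnt
  rw [List.getD_eq_getElem _ _ (by simpa using hk')]
  simp

private theorem U1_use {d g : ℕ} {ar : Fin g → ℕ} (φ : (i : Fin g) → (Fin (ar i) → Fin d) → ℕ)
    (BL : List (Pt ℕ)) (a : ℕ → Fin d) (h : MaT a BL) (c : Con ar)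
    (hc : φ c.1 (fun j => a (c.2 j)) ≠ 0) : usf (tabV φ) d BL (gcn c) = true := by
  unfold usf
  rw [List.any_eq_true]
  refine ⟨((Nat.bits (c.1 : ℕ), List.ofFn (fun j => (a (c.2 j) : ℕ))),
    φ c.1 (fun j => a (c.2 j))), ?_, ?_⟩
  · unfold tabV
    exact List.mem_map.2 ⟨⟨c.1, fun j => a (c.2 j)⟩, by simp, rfl⟩
  · have h1 : List.ofFn (fun j => (a (c.2 j) : ℕ)) = (List.ofFn c.2).map (fun v => (a v : ℕ)) := by
      rw [List.map_ofFn]; rfl
    simp only [gcn, h1, U1_prs, U1_conz, U1_fits d BL (fun v => (a v : ℕ)) h, decide_true,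
      Bool.true_and, Bool.and_true, decide_eq_true_eq]
    exact Nat.pos_of_ne_zero hc

theorem p_U1 : S_U1 := by
  intro d g ar φ BL F a h
  unfold valC usT
  induction F with
  | nil => rfl
  | cons c F ih =>
    rw [List.map_cons, List.sum_cons, ih, List.filter_cons]
    split_ifs with h1
    · rw [List.map_cons, List.sum_cons]
    · have h2 : φ c.1 (fun j => a (c.2 j)) = 0 := by
        by_contra h3
        exact h1 (U1_use φ BL a h c h3)
      rw [h2, zero_add]

end Pool.Agent.Lib.MP_87d05f_lc.CC
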