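import Pool.Agent.Lib.MP_87d05f_lc.CC.Stm

set_option autoImplicit false

/-!
# [CC U2] useful constraints have a positive payoff somewhere (helper98)
-/

namespace Pool.Agent.Lib.MP_87d05f_lc.CC

open Pool.Agent.Lib.MP_87d05f_lc Pool.Agent.Lib.MP_87d05f_lc.SP Pool.Agent.PolyTime Turing

/-- the fibres have at most `|vs|` elements together -/
theorem U2_sum {d : ℕ} (S : ℕ → Bool) (x0 : ℕ → Fin d) (vs : List ℕ) :
    ∑ k : Fin d, vs.countP (fun v => S v && decide (x0 v = k)) ≤ vs.length := by
  induction vs with
  | nil => simp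
  | cons v vs ih =>
    simp only [List.countP_cons, List.length_cons]
    rw [Finset.sum_add_distrib]
    have h1 : ∑ k : Fin d, (if (S v && decide (x0 v = k)) = true then 1 else 0) ≤ 1 := by
      calc ∑ k : Fin d, (if (S v && decide (x0 v = k)) = true then 1 else 0)
          ≤ ∑ k : Fin d, (if x0 v = k then 1 else 0) := by
            refine Finset.sum_le_sum (fun k _ => ?_)
            by_cases hk : x0 v = k
            · rw [if_pos hk]; split_ifs <;> simp
            · simp [hk]
        _ ≤ 1 := by simp
    omega

/-- extension of a partial assignment -/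
theorem U2_ext {d : ℕ} (S : ℕ → Bool) (x0 : ℕ → Fin d) (vs : List ℕ) :
    vs.Nodup → ∀ c : Fin d → ℕ, ∑ k, c k = vs.length →
    (∀ k, vs.countP (fun v => S v && decide (x0 v = k)) ≤ c k) →
    ∃ a : ℕ → Fin d, (∀ v, S v = true → a v = x0 v) ∧
      ∀ k, vs.countP (fun v => decide (a v = k)) = c k := by
  induction vs with
  | nil =>
    intro _ c hc _
    refine ⟨x0, fun _ _ => rfl, fun k => ?_⟩
    have h1 : ∀ k ∈ (Finset.univ : Finset (Fin d)), c k = 0 := by
      have : ∑ k, c k = 0 := by simpa using hc
      exact (Finset.sum_eq_zero_iff.mp this)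
    rw [h1 k (Finset.mem_univ k)]
    simp
  | cons v vs ih =>
    intro hnd c hc hle
    rw [List.nodup_cons] at hnd
    -- the value `k0` of `v`
    have hk0 : ∃ k0 : Fin d, (S v = true → x0 v = k0) ∧ 1 ≤ c k0 ∧
        ∀ k, vs.countP (fun v => S v && decide (x0 v = k)) ≤ c k - if k = k0 then 1 else 0 := by
      by_cases hS : S v = true
      · refine ⟨x0 v, fun _ => rfl, ?_, ?_⟩
        · have h1 := hle (x0 v)
          rw [List.countP_cons] at h1
          simp only [hS, Bool.true_and, decide_true, if_true] at h1
          omega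
        · intro k
          have h1 := hle k
          rw [List.countP_cons] at h1
          by_cases hk : k = x0 v
          · rw [if_pos hk]
            subst hk
            simp only [hS, Bool.true_and, decide_true, if_true] at h1
            omega
          · rw [if_neg hk]
            omega
      · have hlt : ∃ k0, vs.countP (fun v => S v && decide (x0 v = k0)) < c k0 := by
          by_contra hcon
          push Not at hcon
          have h1 : ∑ k, c k ≤ ∑ k : Fin d, vs.countP (fun v => S v && decide (x0 v = k)) :=
            Finset.sum_le_sum (fun k _ => hcon k)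
          have h2 := U2_sum S x0 vs
          rw [hc, List.length_cons] at h1
          omega
        obtain ⟨k0, hk0⟩ := hlt
        refine ⟨k0, fun h => absurd h hS, by omega, fun k => ?_⟩
        have h1 := hle k
        rw [List.countP_cons] at h1
        split_ifs with hk
        · subst hk; omega
        · omega
    obtain ⟨k0, hv, hc1, hle'⟩ := hk0
    have hsum : ∑ k, (c k - if k = k0 then 1 else 0) = vs.length := by
      have h1 : ∑ k, ((c k - if k = k0 then 1 else 0) + if k = k0 then 1 else 0) =
          ∑ k, c k := by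
        refine Finset.sum_congr rfl (fun k _ => ?_)
        split_ifs with hk
        · subst hk; omega
        · omega
      rw [Finset.sum_add_distrib, hc, List.length_cons] at h1
      have h2 : ∑ k : Fin d, (if k = k0 then 1 else 0) = 1 := by simp
      rw [h2] at h1
      omega
    obtain ⟨a, ha, hcount⟩ := ih hnd.2 (fun k => c k - if k = k0 then 1 else 0) hsum hle'
    refine ⟨Function.update a v k0, ?_, ?_⟩
    · intro w hw
      by_cases hwv : w = v
      · subst hwv
        rw [Function.update_self]
        exact (hv hw).symm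
      · rw [Function.update_of_ne hwv]
        exact ha w hw
    · intro k
      rw [List.countP_cons]
      have h1 : vs.countP (fun w => decide (Function.update a v k0 w = k)) =
          vs.countP (fun w => decide (a w = k)) := by
        refine List.countP_congr (fun w hw => ?_)
        have hwv : w ≠ v := fun h => hnd.1 (h ▸ hw)
        rw [Function.update_of_ne hwv]
      rw [h1, hcount k, Function.update_self]
      by_cases hk : k = k0
      · subst hk
        simp
        omega
      · have hk' : ¬ k0 = k := fun h => hk h.symm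
        simp [hk, hk']

/-- the vector of an assignment depends only on the values -/
theorem U2_cnt_congr (d : ℕ) (A A' : ℕ → ℕ) (vs : List ℕ) (h : ∀ v ∈ vs, A v = A' v) :
    cnt d A vs = cnt d A' vs := by
  unfold cnt
  refine List.map_congr_left (fun k _ => ?_)
  congr 1
  refine List.filter_congr (fun v hv => ?_)
  rw [h v hv]

/-- putting the blocks together -/
theorem U2_glue {d : ℕ} (S : ℕ → Bool) (x0 : ℕ → Fin d) (BL : List (Pt ℕ)) :
    (BL.flatMap Prod.fst).Nodup →
    (∀ b ∈ BL, ∃ a : ℕ → Fin d, (∀ v, S v = true → a v = x0 v) ∧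
      cnt d (fun v => (a v : ℕ)) b.1 ∈ b.2) →
    ∃ a : ℕ → Fin d, (∀ v, S v = true → a v = x0 v) ∧
      ∀ b ∈ BL, cnt d (fun v => (a v : ℕ)) b.1 ∈ b.2 := by
  induction BL with
  | nil => intro _ _; exact ⟨x0, fun _ _ => rfl, by simp⟩
  | cons b BL ih =>
    intro hnd h
    rw [List.flatMap_cons, List.nodup_append] at hnd
    obtain ⟨_, hnd2, hdis⟩ := hnd
    obtain ⟨a, ha, hac⟩ := ih hnd2 (fun b' hb' => h b' (List.mem_cons_of_mem _ hb'))
    obtain ⟨a1, ha1, hac1⟩ := h b List.mem_cons_self
    refine ⟨fun v => if v ∈ b.1 then a1 v else a v, ?_, ?_⟩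
    · intro v hv
      simp only
      split_ifs
      · exact ha1 v hv
      · exact ha v hv
    · intro b' hb'
      rcases List.mem_cons.mp hb' with rfl | hb''
      · rw [U2_cnt_congr d _ (fun v => (a1 v : ℕ)) _ (fun v hv => by simp [hv])]
        exact hac1
      · rw [U2_cnt_congr d _ (fun v => (a v : ℕ)) _ (fun v hv => ?_)]
        · exact hac b' hb''
        · have hvb : v ∉ b.1 := fun hvb =>
            hdis v hvb v (List.mem_flatMap.mpr ⟨b', hb'', hv⟩) rfl
          simp [hvb]

theorem U2_mem_prs {n d : ℕ} (args : Fin n → ℕ) (x : Fin n → Fin d) (p : ℕ × ℕ) :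
    p ∈ prs (List.ofFn args) (List.ofFn (fun j => (x j : ℕ))) ↔
      ∃ j, p = (args j, (x j : ℕ)) := by
  unfold prs
  rw [List.mem_map]
  constructor
  · rintro ⟨e, he, rfl⟩
    obtain ⟨v, i⟩ := e
    rw [List.mem_zipIdx_iff_getElem?] at he
    simp only at he
    have hi : i < (List.ofFn args).length := by
      by_contra hcon
      rw [List.getElem?_eq_none (by omega)] at he
      simp at he
    rw [List.getElem?_eq_getElem hi] at he
    have hi' : i < n := by simpa using hi
    refine ⟨⟨i, hi'⟩, ?_⟩
    have hv : args ⟨i, hi'⟩ = v := by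
      have := Option.some.inj he
      rw [List.getElem_ofFn] at this
      exact this
    have hx : (List.ofFn (fun j => (x j : ℕ))).getD i 0 = (x ⟨i, hi'⟩ : ℕ) := by
      rw [List.getD_eq_getElem _ _ (by simpa using hi'), List.getElem_ofFn]
    simp only [hx, ← hv]
  · rintro ⟨j, rfl⟩
    refine ⟨(args j, (j : ℕ)), ?_, ?_⟩
    · rw [List.mem_zipIdx_iff_getElem?]
      simp only
      rw [List.getElem?_eq_getElem (by simp), List.getElem_ofFn]
    · simp only
      rw [List.getD_eq_getElem _ _ (by simp), List.getElem_ofFn]

theorem U2_sum_getD (d : ℕ) (c : List ℕ) (hc : c.length = d) :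
    ∑ k : Fin d, c.getD (k : ℕ) 0 = c.sum := by
  rw [← List.sum_ofFn]
  congr 1
  refine List.ext_getElem (by simp [hc]) (fun i h1 h2 => ?_)
  rw [List.getElem_ofFn, List.getD_eq_getElem _ _ h2]

theorem p_U2 : S_U2 := by
  classical
  intro d g B ar φ BL F hd hBlo _ c hc
  obtain ⟨hnd, hbl⟩ := hBlo
  unfold usT at hc
  rw [List.mem_filter] at hc
  obtain ⟨_, hus⟩ := hc
  unfold usf at hus
  rw [List.any_eq_true] at hus
  obtain ⟨e, he, hcond⟩ := hus
  simp only [Bool.and_eq_true, decide_eq_true_eq] at hcond
  obtain ⟨hsym, hpos, hcon, hfit⟩ := hcond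
  unfold tabV at he
  rw [List.mem_map] at he
  obtain ⟨⟨i, x⟩, _, rfl⟩ := he
  obtain ⟨i', args⟩ := c
  have hii : i = i' := by
    have h1 : Nat.bits (i : ℕ) = Nat.bits (i' : ℕ) := hsym
    exact Fin.ext (bits_injective h1)
  subst hii
  simp only at hpos hcon hfit
  change conz (prs (List.ofFn args) (List.ofFn fun j => (x j : ℕ))) = true at hcon
  change fits d BL (prs (List.ofFn args) (List.ofFn fun j => (x j : ℕ))) = true at hfit
  -- the partial assignment
  have hcon' : ∀ j j', args j = args j' → x j = x j' := by
    intro j j' hjj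
    unfold conz at hcon
    rw [List.all_eq_true] at hcon
    have h1 := hcon _ ((U2_mem_prs args x _).mpr ⟨j, rfl⟩)
    rw [List.all_eq_true] at h1
    have h2 := h1 _ ((U2_mem_prs args x _).mpr ⟨j', rfl⟩)
    simp only [hjj, decide_true, cond_true, decide_eq_true_eq] at h2
    exact Fin.ext h2
  let S : ℕ → Bool := fun v => decide (∃ j, args j = v)
  let x0 : ℕ → Fin d := fun v => if h : ∃ j, args j = v then x h.choose else ⟨0, hd⟩
  have hx0 : ∀ j, x0 (args j) = x j := by
    intro j
    have h : ∃ j', args j' = args j := ⟨j, rfl⟩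
    simp only [x0, dif_pos h]
    exact hcon' _ _ h.choose_spec
  have hblock : ∀ b ∈ BL, ∃ a : ℕ → Fin d, (∀ v, S v = true → a v = x0 v) ∧
      cnt d (fun v => (a v : ℕ)) b.1 ∈ b.2 := by
    intro b hb
    obtain ⟨_, hvec⟩ := hbl b hb
    unfold fits at hfit
    rw [List.all_eq_true] at hfit
    have h1 := hfit b hb
    rw [List.any_eq_true] at h1
    obtain ⟨cv, hcv, hle⟩ := h1
    rw [List.all_eq_true] at hle
    obtain ⟨hlen, hsum⟩ := hvec cv hcv
    have hndb : b.1.Nodup := by
      have : List.Sublist b.1 (BL.flatMap Prod.fst) := by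
        obtain ⟨s, t, rfl⟩ := List.append_of_mem hb
        rw [List.flatMap_append, List.flatMap_cons]
        exact (List.sublist_append_left _ _).trans (List.sublist_append_right _ _)
      exact hnd.sublist this
    obtain ⟨a, ha, hcnt⟩ := U2_ext S x0 b.1 hndb (fun k => cv.getD (k : ℕ) 0)
      ((U2_sum_getD d cv hlen).trans hsum) (by
        intro k
        have h2 := hle (k : ℕ) (List.mem_range.mpr k.2)
        rw [decide_eq_true_eq] at h2
        refine le_trans ?_ h2
        rw [List.countP_eq_length_filter]
        unfold occz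
        refine List.Subperm.length_le (List.Nodup.subperm (hndb.filter _) ?_)
        intro v hv
        rw [List.mem_filter] at hv
        obtain ⟨hvb, hv2⟩ := hv
        simp only [Bool.and_eq_true, decide_eq_true_eq, S] at hv2
        obtain ⟨⟨j, hj⟩, hxk⟩ := hv2
        rw [mem_ded, List.mem_map]
        refine ⟨(args j, (x j : ℕ)), ?_, hj⟩
        rw [List.mem_filter]
        refine ⟨(U2_mem_prs args x _).mpr ⟨j, rfl⟩, ?_⟩
        simp only [Bool.and_eq_true, decide_eq_true_eq]
        refine ⟨?_, by rw [hj]; exact hvb⟩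
        rw [← hx0 j, hj, hxk])
    refine ⟨a, ha, ?_⟩
    have heq : cnt d (fun v => (a v : ℕ)) b.1 = cv := by
      unfold cnt
      refine List.ext_getElem (by simp [hlen]) (fun i h1 h2 => ?_)
      have hi : i < d := by simpa using h1
      rw [List.getElem_map, List.getElem_range]
      have h3 := hcnt ⟨i, hi⟩
      rw [List.countP_eq_length_filter] at h3
      simp only at h3
      rw [List.getD_eq_getElem _ _ h2] at h3
      rw [← h3]
      congr 1
      refine List.filter_congr (fun v _ => ?_)
      rw [decide_eq_decide]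
      constructor
      · intro h; exact Fin.ext h
      · intro h
        exact congrArg Fin.val h
    rw [heq]
    exact hcv
  obtain ⟨a, ha, hmat⟩ := U2_glue S x0 BL hnd hblock
  refine ⟨a, hmat, ?_⟩
  have hax : (fun j => a (args j)) = x := by
    funext j
    rw [ha (args j) (by simp [S]), hx0 j]
  change 1 ≤ φ i (fun j => a (args j))
  rw [hax]
  exact hpos

end Pool.Agent.Lib.MP_87d05f_lc.CC
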