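import Pool.Agent.Lib.MP_87d05f_lc.CC.Stm
import Pool.Agent.Lib.MP_87d05f_lc.SP.P.nth

set_option autoImplicit false

/-!
# Piece U3: averaging over super-variables
-/

namespace Pool.Agent.Lib.MP_87d05f_lc.CC

open Pool.Agent.Lib.MP_87d05f_lc Pool.Agent.Lib.MP_87d05f_lc.SP Pool.Agent.PolyTime

/-- averaging for a set of assignments parametrized by super-variables -/
theorem U3_avg {g d D : ℕ} {ar : Fin g → ℕ} (φ : (i : Fin g) → (Fin (ar i) → Fin d) → ℕ)
    (hD : 0 < D) (K : ℕ) (hK : ∀ i, ar i ≤ K) (idv : ℕ → ℕ) (arr : ℕ → Fin D → Fin d)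
    (U : List (Con ar))
    (hU : ∀ c ∈ U, ∃ A : ℕ → Fin D, 1 ≤ φ c.1 (fun j => arr (c.2 j) (A (idv (c.2 j))))) :
    ∃ A : ℕ → Fin D, U.length ≤ D ^ K * valC φ (fun v => arr v (A (idv v))) U := by
  let ar' : Fin U.length → ℕ := fun i => ar (U.get i).1
  let ψ : (i : Fin U.length) → (Fin (ar' i) → Fin D) → ℕ := fun i y =>
    φ (U.get i).1 (fun j => arr ((U.get i).2 j) (y j))
  let L : List (Con ar') := List.ofFn (fun i : Fin U.length =>
    (⟨i, fun j => idv ((U.get i).2 j)⟩ : Con ar'))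
  have hL : ∀ c ∈ L, ∃ A : ℕ → Fin D, 1 ≤ ψ c.1 (fun j => A (c.2 j)) := by
    intro c hc
    obtain ⟨i, rfl⟩ := List.mem_ofFn.1 hc
    exact hU _ (List.get_mem U i)
  obtain ⟨A, hA⟩ := nth_average ψ hD K (fun i => hK _) L hL
  refine ⟨A, ?_⟩
  have h1 : L.length = U.length := List.length_ofFn
  have h2 : valC ψ A L = valC φ (fun v => arr v (A (idv v))) U := by
    have h3 : U.map (fun c => φ c.1 (fun j => arr (c.2 j) (A (idv (c.2 j))))) =
        L.map (fun c => ψ c.1 (fun j => A (c.2 j))) := by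
      have h4 : U = List.ofFn (fun i : Fin U.length => U.get i) := (List.ofFn_get U).symm
      conv_lhs => rw [h4]
      rw [List.map_ofFn, List.map_ofFn]
      rfl
    change (L.map (fun c => ψ c.1 (fun j => A (c.2 j)))).sum =
      (U.map (fun c => φ c.1 (fun j => arr (c.2 j) (A (idv (c.2 j)))))).sum
    rw [h3]
  rw [h2] at hA
  exact h1 ▸ hA

/-- a variable is in at most one block -/
theorem U3_uniq {BL : List (Pt ℕ)} (h : (BL.flatMap Prod.fst).Nodup) {b b' : Pt ℕ} {v : ℕ}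
    (hb : b ∈ BL) (hb' : b' ∈ BL) (hv : v ∈ b.1) (hv' : v ∈ b'.1) : b = b' := by
  have h1 := (List.nodup_flatMap.1 h).2
  rw [List.pairwise_iff_getElem] at h1
  obtain ⟨i, hi, rfl⟩ := List.getElem_of_mem hb
  obtain ⟨j, hj, rfl⟩ := List.getElem_of_mem hb'
  rcases Nat.lt_trichotomy i j with hij | hij | hij
  · exact absurd hv' (h1 i j hi hj hij hv)
  · subst hij
    rfl
  · exact absurd hv (h1 j i hj hi hij hv')

/-- the block of a variable -/
def U3_own (BL : List (Pt ℕ)) (v : ℕ) : Option (Pt ℕ) := BL.find? (fun b => decide (v ∈ b.1))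

theorem U3_own_some {BL : List (Pt ℕ)} (h : (BL.flatMap Prod.fst).Nodup) {b : Pt ℕ} {v : ℕ}
    (hb : b ∈ BL) (hv : v ∈ b.1) : U3_own BL v = some b := by
  cases ho : U3_own BL v with
  | none =>
    have := List.find?_eq_none.1 ho b hb
    exact absurd (decide_eq_true hv) this
  | some b' =>
    have h1 : b' ∈ BL := List.mem_of_find?_eq_some ho
    have h2 := List.find?_some ho
    rw [U3_uniq h hb h1 hv (of_decide_eq_true h2)]

theorem U3_own_mem {BL : List (Pt ℕ)} {b : Pt ℕ} {v : ℕ} (ho : U3_own BL v = some b) :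
    b ∈ BL ∧ v ∈ b.1 :=
  ⟨List.mem_of_find?_eq_some ho, by
    have h2 : decide (v ∈ b.1) = true := List.find?_some (p := fun b : Pt ℕ => decide (v ∈ b.1)) ho
    exact of_decide_eq_true h2⟩

/-- the number of matches depends only on the values on the list -/
theorem U3_cnt_congr {d : ℕ} {A A' : ℕ → ℕ} {vs : List ℕ} (h : ∀ v ∈ vs, A v = A' v) :
    cnt d A vs = cnt d A' vs := by
  unfold cnt
  refine List.map_congr_left fun k _ => ?_
  congr 1
  refine List.filter_congr fun v hv => ?_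
  rw [h v hv]

/-- the name of the super-variable -/
def U3_id (BL : List (Pt ℕ)) (v : ℕ) : ℕ :=
  Option.casesOn (U3_own BL v) (2 * v + 1) (fun b => 2 * b.1.headD 0)

/-- the position of a variable in a list -/
def U3_pos (B : ℕ) (vs : List ℕ) (v : ℕ) : Fin (B + 1) :=
  ⟨min (vs.idxOf v) B, Nat.lt_succ_of_le (Nat.min_le_right _ _)⟩

/-- the value of a variable from the value of the super-variable -/
def U3_arr {d : ℕ} (B : ℕ) (BL : List (Pt ℕ)) (a0 : ℕ → Fin d) (v : ℕ)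
    (y : Fin (B + 1) → Fin d) : Fin d :=
  Option.casesOn (U3_own BL v) (y 0) (fun b =>
    if cnt d (fun u => (y (U3_pos B b.1 u) : ℕ)) b.1 ∈ b.2 then y (U3_pos B b.1 v) else a0 v)

/-- the super-assignment of an assignment -/
def U3_enc {d : ℕ} (B : ℕ) (BL : List (Pt ℕ)) (a : ℕ → Fin d) (n : ℕ) : Fin (B + 1) → Fin d :=
  if n % 2 = 1 then fun _ => a (n / 2) else
    fun p => Option.casesOn (U3_own BL (n / 2)) (a 0) (fun b => a (b.1.getD (p : ℕ) 0))

theorem U3_getD_pos {B : ℕ} {vs : List ℕ} {v : ℕ} (h : vs.length ≤ B) (hv : v ∈ vs) :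
    vs.getD (U3_pos B vs v : ℕ) 0 = v := by
  have h1 : vs.idxOf v < vs.length := List.idxOf_lt_length_iff.2 hv
  have h2 : (U3_pos B vs v : ℕ) = vs.idxOf v := Nat.min_eq_left (by omega)
  rw [h2, List.getD_eq_getElem _ _ h1]
  exact List.getElem_idxOf h1

theorem U3_mat {d B : ℕ} {BL : List (Pt ℕ)} (h : (BL.flatMap Prod.fst).Nodup) (a0 : ℕ → Fin d)
    (h0 : MaT a0 BL) (A : ℕ → Fin (B + 1) → Fin d) :
    MaT (fun v => U3_arr B BL a0 v (A (U3_id BL v))) BL := by
  intro b hb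
  by_cases hc : cnt d (fun u => (A (2 * b.1.headD 0) (U3_pos B b.1 u) : ℕ)) b.1 ∈ b.2
  · have h1 : cnt d (fun v => (U3_arr B BL a0 v (A (U3_id BL v)) : ℕ)) b.1 =
        cnt d (fun u => (A (2 * b.1.headD 0) (U3_pos B b.1 u) : ℕ)) b.1 := by
      refine U3_cnt_congr fun v hv => ?_
      have ho := U3_own_some h hb hv
      simp only [U3_arr, U3_id, ho]
      rw [if_pos hc]
    rw [h1]
    exact hc
  · have h1 : cnt d (fun v => (U3_arr B BL a0 v (A (U3_id BL v)) : ℕ)) b.1 =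
        cnt d (fun u => (a0 u : ℕ)) b.1 := by
      refine U3_cnt_congr fun v hv => ?_
      have ho := U3_own_some h hb hv
      simp only [U3_arr, U3_id, ho]
      rw [if_neg hc]
    rw [h1]
    exact h0 b hb

theorem U3_dec {d B : ℕ} {BL : List (Pt ℕ)} (h : (BL.flatMap Prod.fst).Nodup)
    (hB : ∀ b ∈ BL, b.1.length ≤ B) (a0 a : ℕ → Fin d) (ha : MaT a BL) (v : ℕ) :
    U3_arr B BL a0 v (U3_enc B BL a (U3_id BL v)) = a v := by
  cases ho : U3_own BL v with
  | none =>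
    have h1 : U3_id BL v = 2 * v + 1 := by
      simp only [U3_id, ho]
    have h2 : (2 * v + 1) % 2 = 1 := by omega
    have h3 : (2 * v + 1) / 2 = v := by omega
    simp only [U3_arr, ho, h1, U3_enc, h2, h3, if_true]
  | some b =>
    obtain ⟨hb, hv⟩ := U3_own_mem ho
    have h1 : U3_id BL v = 2 * b.1.headD 0 := by
      simp only [U3_id, ho]
    have hne : b.1 ≠ [] := List.ne_nil_of_mem hv
    have hh : b.1.headD 0 ∈ b.1 := by
      obtain ⟨x, l, hl⟩ := List.exists_cons_of_ne_nil hne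
      rw [hl]
      exact List.mem_cons_self
    have h2 : (2 * b.1.headD 0) % 2 = 0 := by omega
    have h3 : (2 * b.1.headD 0) / 2 = b.1.headD 0 := by omega
    have h4 : U3_own BL (b.1.headD 0) = some b := U3_own_some h hb hh
    have h5 : U3_enc B BL a (U3_id BL v) = fun p : Fin (B + 1) => a (b.1.getD (p : ℕ) 0) := by
      funext p
      rw [h1]
      unfold U3_enc
      rw [if_neg (by omega), h3, h4]
    have h6 : ∀ u ∈ b.1, a (b.1.getD (U3_pos B b.1 u : ℕ) 0) = a u := fun u hu => by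
      rw [U3_getD_pos (hB b hb) hu]
    have h7 : cnt d (fun u => (a (b.1.getD (U3_pos B b.1 u : ℕ) 0) : ℕ)) b.1 ∈ b.2 := by
      rw [U3_cnt_congr (A' := fun u => (a u : ℕ)) fun u hu => congrArg _ (h6 u hu)]
      exact ha b hb
    rw [h5]
    simp only [U3_arr, ho]
    rw [if_pos h7, h6 v hv]

/-- [U3] Some assignment as permitted has a large value. -/
theorem p_U3 (h1 : S_U2) (h2 : S_RE) : S_U3 := by
  intro d g B K ar φ BL F hd hK hBlo hok
  -- a fixed assignment as permitted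
  obtain ⟨a0, ha0⟩ : ∃ a0 : ℕ → Fin d, MaT a0 BL :=
    ⟨_, (h2 d 0 B 0 (fun i => i.elim0) (fun i _ => i.elim0) BL [] hd (fun _ => ⟨0, hd⟩)
      (fun i => i.elim0) hBlo hok).1⟩
  have hcard : Fintype.card (Fin (B + 1) → Fin d) = d ^ (B + 1) := by
    rw [Fintype.card_fun, Fintype.card_fin, Fintype.card_fin]
  let e : Fin (d ^ (B + 1)) ≃ (Fin (B + 1) → Fin d) :=
    (Fintype.equivFinOfCardEq hcard).symm
  obtain ⟨A, hA⟩ := U3_avg φ (Nat.pow_pos hd) K hK (U3_id BL)
    (fun v y => U3_arr B BL a0 v (e y)) (usT φ BL F) (by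
      intro c hc
      obtain ⟨a, ha, hac⟩ := h1 d g B ar φ BL F hd hBlo hok c hc
      refine ⟨fun n => e.symm (U3_enc B BL a n), ?_⟩
      have h3 : (fun j => U3_arr B BL a0 (c.2 j) (e (e.symm (U3_enc B BL a
          (U3_id BL (c.2 j)))))) = fun j => a (c.2 j) := by
        funext j
        rw [e.apply_symm_apply]
        exact U3_dec hBlo.1 (fun b hb => (hBlo.2 b hb).1) a0 a ha (c.2 j)
      rw [h3]
      exact hac)
  exact ⟨_, U3_mat hBlo.1 a0 ha0 (fun n => e (A n)), hA⟩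

end Pool.Agent.Lib.MP_87d05f_lc.CC
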