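import Pool.Agent.Lib.MP_87d05f_lc.CC.Stm

set_option autoImplicit false

/-!
# Piece UN: instances without side constraints
-/

namespace Pool.Agent.Lib.MP_87d05f_lc.CC

open Pool.Agent.Lib.MP_87d05f_lc Pool.Agent.Lib.MP_87d05f_lc.SP Pool.Agent.PolyTime

theorem UN_nvP {g : ℕ} {ar : Fin g → ℕ} (F : List (Con ar)) : nvP (([] : List (Pt ℕ)), F) = nvC F :=
  rfl

theorem UN_nvC_enM {g : ℕ} {ar : Fin g → ℕ} (I : ℕ × List (Con ar)) :
    nvC I.2 ≤ (enM I).length := by
  have h1 := nvC_le I.2
  have h2 : enM I = encW [[List.replicate I.1 true]] ++ codeC I.2 := by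
    unfold enM
    rw [codeC_eq]
    exact encW_append [[List.replicate I.1 true]] (I.2.map wordC)
  rw [h2, List.length_append]
  omega

theorem UN_mat {d : ℕ} (a : ℕ → Fin d) : MaT a ([] : List (Pt ℕ)) := by
  intro p hp
  exact absurd hp List.not_mem_nil

theorem UN_prp {g : ℕ} {ar : Fin g → ℕ} (d : ℕ) (F : List (Con ar)) :
    PrP d (([] : List (Pt ℕ)), F) :=
  ⟨List.nodup_nil, fun p hp => absurd hp List.not_mem_nil⟩

/-- [CC UN] instances without side constraints -/
theorem p_UN : S_UN := by
  intro d g ar φ ε b hb
  constructor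
  · intro hsep
    have hf : PTime (fun x : List Bool =>
        encW (((parseW x).headD [] ++ [[]]) :: (parseW x).tail)) :=
      encW_ptime (PTime.cons (PTime.append (PTime.headD parseW_ptime (PTime.const []))
        (PTime.const [[]])) (PTime.tail parseW_ptime))
    have hhP : PTime (fun x : List Bool =>
        mydiv (ded ((parseW x).tail.flatMap List.tail)).length b) := by
      have h3 : PTime (fun x : List Bool => (parseW x).tail.flatMap List.tail) :=
        PTime.flatMap (l := fun x : List Bool => (parseW x).tail)
          (f := fun (_ : List Bool) (c : List (List Bool)) => c.tail) (PTime.tail parseW_ptime)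
          (PTime.tail PTime.snd)
      exact mydiv_ptime (PTime.length (ded_ptime h3)) (PTime.const b)
    have hp : ∀ I : ℕ × List (Con ar),
        parseW (enM I) = [List.replicate I.1 true] :: I.2.map wordC := by
      intro I
      unfold enM
      rw [parseW_encW]
    have hhe : ∀ I : ℕ × List (Con ar),
        mydiv (ded ((parseW (enM I)).tail.flatMap List.tail)).length b = nvC I.2 / b := by
      intro I
      rw [hp, List.tail_cons, nvC_eq, mydiv_eq hb]
    refine transfer hf hhP (fun I _ => UN_nvC_enM I) (fun I _ => ?_) hsep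
    refine ⟨(I.1, ([], I.2)), UN_prp d I.2, ?_, ?_, ?_, ?_, ?_⟩
    · rw [hp]
      rfl
    · rintro ⟨a, ha⟩
      exact ⟨a, UN_mat a, ha⟩
    · intro h a _
      exact h a
    · rw [hhe]
      exact le_rfl
    · rw [hhe]
  · intro hfind
    have hf : PTime (fun x : List Bool => encW ([[]] :: parseW x)) :=
      encW_ptime (PTime.cons (PTime.const [[]]) parseW_ptime)
    have hhP : PTime (fun x : List Bool =>
        mydiv (ded ((parseW x).flatMap List.tail)).length b) := by
      have h3 : PTime (fun x : List Bool => (parseW x).flatMap List.tail) :=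
        PTime.flatMap (l := fun x : List Bool => parseW x)
          (f := fun (_ : List Bool) (c : List (List Bool)) => c.tail) parseW_ptime
          (PTime.tail PTime.snd)
      exact mydiv_ptime (PTime.length (ded_ptime h3)) (PTime.const b)
    have hp : ∀ F : List (Con ar), parseW (codeC F) = F.map wordC := by
      intro F
      rw [codeC_eq, parseW_encW]
    have hhe : ∀ F : List (Con ar),
        mydiv (ded ((parseW (codeC F)).flatMap List.tail)).length b = nvC F / b := by
      intro F
      rw [hp, nvC_eq, mydiv_eq hb]
    refine find_transfer (R := d) hf hhP (out := Prod.snd) PTime.snd (fun F _ => nvC_le F)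
      (fun F _ => ?_) hfind
    refine ⟨([], F), UN_prp d F, ?_, ?_, ?_, ?_⟩
    · rw [hp]
      rfl
    · rintro w ⟨a, _, rfl, ha⟩
      have e : ouP (([] : List (Pt ℕ)), F) a = outW F a := (outW_eq F a).symm
      rw [e]
      refine ⟨?_, a, rfl, fun a' => ha a' (UN_mat a')⟩
      have h1 := outW_length_le F a
      have h2 := plc_length_le F
      exact h1.trans (Nat.mul_le_mul_left d (by omega))
    · rw [hhe]
      exact le_rfl
    · rw [hhe]

end Pool.Agent.Lib.MP_87d05f_lc.CC
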