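import Pool.Agent.Lib.MP_87d05f_lc.CC.Stm

set_option autoImplicit false

/-!
# [CC VA] The value of the instance without side constraints
-/

namespace Pool.Agent.Lib.MP_87d05f_lc.CC

open Pool.Agent.Lib.MP_87d05f_lc Pool.Agent.Lib.MP_87d05f_lc.SP Pool.Agent.PolyTime Turing

theorem VA_card {n : ℕ} (f : Fin n → ℕ) (p : ℕ → Prop) [DecidablePred p] :
    (Finset.univ.filter (fun j => p (f j))).card =
      ((List.ofFn f).filter (fun v => decide (p v))).length := by
  have h := Multiset.countP_map f (Finset.univ : Finset (Fin n)).val p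
  rw [Fin.univ_val_map, Multiset.coe_countP, List.countP_eq_length_filter] at h
  rw [h]
  rfl

theorem VA_ofFn (L : List ℕ) (n : ℕ) (h : n = L.length) :
    List.ofFn (fun j : Fin n => L.getD (j : ℕ) 0) = L := by
  subst h
  apply List.ext_getElem
  · simp
  · intro i h1 h2
    rw [List.getElem_ofFn, List.getD_eq_getElem _ _ h2]

variable {g d B : ℕ} {ar : Fin g → ℕ}

theorem VA_cast (φ : (i : Fin g) → (Fin (ar i) → Fin d) → ℕ) (a : ℕ → Fin d) (L : List ℕ)
    (s : SyC g d B) (s' : SyC g d B) (h : s = s') :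
    phC φ s (fun j => a (L.getD (j : ℕ) 0)) = phC φ s' (fun j => a (L.getD (j : ℕ) 0)) := by
  subst h
  rfl

theorem VA_old (φ : (i : Fin g) → (Fin (ar i) → Fin d) → ℕ) (a : ℕ → Fin d) (c : Con ar) :
    phY B φ (oldC B c).1 (fun j => a ((oldC B c).2 j)) = φ c.1 (fun j => a (c.2 j)) := by
  have h1 : phY B φ (oldC B c).1 (fun j => a ((oldC B c).2 j)) =
      phC φ ((eC g d B).symm (eC g d B (Sum.inl c.1)))
        (fun j => a ((List.ofFn c.2).getD (j : ℕ) 0)) := rfl
  rw [h1, VA_cast φ a (List.ofFn c.2) _ (Sum.inl c.1) (Equiv.symm_apply_apply _ _)]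
  have h2 : phC (B := B) φ (Sum.inl c.1) (fun j => a ((List.ofFn c.2).getD (j : ℕ) 0)) =
      φ c.1 (fun j => a ((List.ofFn c.2).getD (j : ℕ) 0)) := rfl
  rw [h2]
  congr 1
  funext j
  rw [List.getD_eq_getElem _ _ (by rw [List.length_ofFn]; exact j.2), List.getElem_ofFn]

theorem VA_cnt (d : ℕ) (A : ℕ → ℕ) (vs : List ℕ) :
    cnt d A vs = List.ofFn (fun k : Fin d =>
      (vs.filter (fun v => decide (A v = (k : ℕ)))).length) := by
  apply List.ext_getElem
  · simp [cnt]
  · intro i h1 h2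
    simp [cnt]

theorem VA_blk (φ : (i : Fin g) → (Fin (ar i) → Fin d) → ℕ) (a : ℕ → Fin d) (b : Pt ℕ)
    (hb : b.1.length ≤ B) :
    phY B φ (blkC B ar b).1 (fun j => a ((blkC B ar b).2 j)) =
      if cnt d (fun v => (a v : ℕ)) b.1 ∈ b.2 then 1 else 0 := by
  classical
  have hlen : min b.1.length B = b.1.length := min_eq_left hb
  have h1 : phY B φ (blkC B ar b).1 (fun j => a ((blkC B ar b).2 j)) =
      phC φ ((eC g d B).symm (eC g d B (Sum.inr (⟨min b.1.length B, by omega⟩, setB d B b))))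
        (fun j => a (b.1.getD (j : ℕ) 0)) := rfl
  rw [h1, VA_cast φ a b.1 _ (Sum.inr (⟨min b.1.length B, by omega⟩, setB d B b))
    (Equiv.symm_apply_apply _ _)]
  have h2 : phC φ (Sum.inr (⟨min b.1.length B, by omega⟩, setB d B b) : SyC g d B)
      (fun j => a (b.1.getD (j : ℕ) 0)) = if ∃ c ∈ setB d B b, ∀ k : Fin d,
        (Finset.univ.filter (fun j : Fin (min b.1.length B) =>
          a (b.1.getD (j : ℕ) 0) = k)).card = (c k : ℕ) then 1 else 0 := rfl
  rw [h2]
  have h3 : ∀ k : Fin d, (Finset.univ.filter (fun j : Fin (min b.1.length B) =>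
      a (b.1.getD (j : ℕ) 0) = k)).card =
      (b.1.filter (fun v => decide ((a v : ℕ) = (k : ℕ)))).length := by
    intro k
    have h4 := VA_card (fun j : Fin (min b.1.length B) => b.1.getD (j : ℕ) 0) (fun v => a v = k)
    rw [VA_ofFn b.1 _ hlen] at h4
    rw [h4]
    congr 2
    funext v
    simp only [Fin.ext_iff]
  simp only [h3]
  have h5 : (∃ c ∈ setB d B b, ∀ k : Fin d,
      (b.1.filter (fun v => decide ((a v : ℕ) = (k : ℕ)))).length = (c k : ℕ)) ↔
      cnt d (fun v => (a v : ℕ)) b.1 ∈ b.2 := by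
    rw [VA_cnt]
    constructor
    · rintro ⟨c, hc, hk⟩
      rw [setB, Finset.mem_filter] at hc
      simp only [hk]
      exact hc.2
    · intro h
      refine ⟨fun k => ⟨(b.1.filter (fun v => decide ((a v : ℕ) = (k : ℕ)))).length, ?_⟩, ?_,
        fun k => rfl⟩
      · have := List.length_filter_le (fun v => decide ((a v : ℕ) = (k : ℕ))) b.1
        omega
      · rw [setB, Finset.mem_filter]
        exact ⟨Finset.mem_univ _, h⟩
  by_cases h6 : cnt d (fun v => (a v : ℕ)) b.1 ∈ b.2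
  · rw [if_pos h6, if_pos (h5.2 h6)]
  · rw [if_neg h6, if_neg (fun h => h6 (h5.1 h))]

theorem VA_append (φ : (i : Fin g) → (Fin (ar i) → Fin d) → ℕ) (a : ℕ → Fin d)
    (F G : List (Con ar)) : valC φ a (F ++ G) = valC φ a F + valC φ a G := by
  simp [valC]

theorem VA_olds (φ : (i : Fin g) → (Fin (ar i) → Fin d) → ℕ) (a : ℕ → Fin d)
    (F : List (Con ar)) : valC (phY B φ) a (F.map (oldC B)) = valC φ a F := by
  unfold valC
  rw [List.map_map]
  congr 1
  refine List.map_congr_left fun c _ => ?_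
  exact VA_old φ a c

theorem VA_rep (φ : (i : Fin g) → (Fin (ar i) → Fin d) → ℕ) (a : ℕ → Fin d)
    (c : Con ar) (M : ℕ) :
    valC φ a (List.replicate M c) = M * φ c.1 (fun j => a (c.2 j)) := by
  simp [valC]

theorem VA_blks (φ : (i : Fin g) → (Fin (ar i) → Fin d) → ℕ) (a : ℕ → Fin d) (M : ℕ)
    (P : List (Pt ℕ)) (hP : ∀ b ∈ P, b.1.length ≤ B) :
    valC (phY B φ) a (P.flatMap (fun b => List.replicate M (blkC B ar b))) =
      M * (P.filter (fun b => decide (cnt d (fun v => (a v : ℕ)) b.1 ∈ b.2))).length := by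
  induction P with
  | nil => simp [valC]
  | cons b P ih =>
    have h1 := ih fun b' hb' => hP b' (List.mem_cons_of_mem _ hb')
    have h2 := VA_blk φ a b (hP b List.mem_cons_self)
    rw [List.flatMap_cons, VA_append, h1, VA_rep, h2]
    by_cases h3 : cnt d (fun v => (a v : ℕ)) b.1 ∈ b.2
    · rw [if_pos h3, List.filter_cons_of_pos (by simpa using h3), List.length_cons]
      ring
    · rw [if_neg h3, List.filter_cons_of_neg (by simpa using h3)]
      ring

theorem p_VA : S_VA := by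
  intro d g B M ar φ BL F a hBlo
  rw [qnC, VA_append, VA_olds, VA_blks]
  intro b hb
  rw [plT, List.mem_flatMap] at hb
  obtain ⟨c, _, hb⟩ := hb
  rw [List.mem_flatMap] at hb
  obtain ⟨v, _, hb⟩ := hb
  exact (hBlo.2 b (List.mem_filter.1 hb).1).1

end Pool.Agent.Lib.MP_87d05f_lc.CC
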