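import Mathlib
import Pool.Agent.Lib.MP_87d05f_lc.CC.Stm

set_option autoImplicit false

/-!
# The loop machine with calls of a subroutine and a word as output
-/

namespace Pool.Agent.Lib.MP_87d05f_lc.CC

open Pool.Agent.Lib.MP_87d05f_lc Pool.Agent.Lib.MP_87d05f_lc.SP Pool.Agent.PolyTime
open Function Turing Polynomial

theorem p_LP : S_LP := by
  intro K _ _ σ α _ _ A hA init query next dn out hi hq hn hd ho
  obtain ⟨ci, Pi, hci⟩ := ptime_cmd hi
  have hq' : PTime (fun s : σ => (query s, s)) := hq.pair PTime.id
  obtain ⟨cq, Pq, hcq⟩ := ptime_cmd hq'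
  have hn' : PTime (fun p : α × σ => (dn (next p.1 p.2), next p.1 p.2)) := (hd.comp hn).pair hn
  obtain ⟨cn, Pn, hcn⟩ := ptime_cmd hn'
  obtain ⟨co, Po, hco⟩ := ptime_cmd ho
  obtain ⟨Pz, hPz⟩ := ho.sz_le
  obtain ⟨cc, κ, hcc⟩ := hA
  obtain ⟨an, han⟩ : ∃ an : σ → α,
      an = fun s => A (query s).1 ((query s).2.1 * 2 ^ (query s).2.2) := ⟨_, rfl⟩
  set step : σ → σ := fun s => next (an s) s with hstep
  set up : Cmd St → Cmd (KK K) := fun c => mapCmd Sum.inl (mapCmd Sum.inl c) with hup
  set body : Cmd (KK K) := .seq (up cq) (.seq cc (up cn)) with hbody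
  have hb : ∀ s : σ, RunLe body (fA (enc s).bits [])
      (fA (enc (dn (step s), step s)).bits [])
      (Pq.eval (sz s) + (κ * qcost (query s) + Pn.eval (sz ((an s, s) : α × σ)))) := by
    intro s
    have h1 := run_st (K := K) (hcq s)
    have h2 := hcc (query s).1 (query s).2.1 (query s).2.2 (enc s).bits
    have h2' : A (query s).1 ((query s).2.1 * 2 ^ (query s).2.2) = an s := by rw [han]
    rw [h2'] at h2
    have h3 := run_st (K := K) (hcn (an s, s))
    have e1 : (enc (query s, s)).bits = true :: ((enc (query s)).bits ++ (enc s).bits) := by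
      simp [Sx.bits]
    have e2 : (enc ((an s, s) : α × σ)).bits =
        true :: ((enc (an s)).bits ++ (enc s).bits) := by
      simp [Sx.bits]
    rw [e1] at h1
    rw [e2] at h3
    exact RunLe.seq h1 (RunLe.seq h2 h3)
  set c : Cmd (KK K) := .seq (up convCmd) (.seq (up ci) (.seq (.push (.inl (.inl .C)) true)
    (.seq (.loopT (.inl (.inl .C)) (.seq body (up flagCmd))) (.seq (up co) (up decCmd))))) with hc
  refine ⟨(Flow.compile c).toTM (.inl (.inl .A)) (.inl (.inl .A)), Equiv.refl _, Equiv.refl _,
    C 7 * X + C 10 + Pi.comp (C 4 * X + C 1) + Pq + Pn.comp (C 2 * X + C 1) + C 10 + Po +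
      C 7 * Pz + C 10, κ, ?_⟩
  intro x N B R st hN hst0 hstS hB hBa hR hf hd' m hm
  have hst : ∀ i, i ≤ N → step^[i] (init x) = st i := by
    intro i
    induction i with
    | zero => intro _; exact hst0.symm
    | succ i ih =>
      intro hi'
      rw [Function.iterate_succ_apply', ih (by omega), hstS i (by omega), hstep, han]
  obtain ⟨N, rfl⟩ : ∃ M, N = M + 1 := ⟨N - 1, by omega⟩
  set s0 := init x with hs0
  have h1 := run_st (K := K) (run_conv x)
  have h2 := run_st (K := K) (hci x)
  have h3 := loop_run' (step := step) (dn := dn) hb N s0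
    (Pq.eval B + (κ * R + Pn.eval (2 * B + 1))) (fun i hi => by
      rw [hst i (by omega)]
      have g1 := eval_mono Pq (hB i (by omega))
      have g4 : sz ((an (st i), st i) : α × σ) ≤ 2 * B + 1 := by
        have g5 := hBa i (by omega)
        have g6 := hB i (by omega)
        rw [sz_pair, han]
        simp only
        omega
      have g2 := eval_mono Pn g4
      have g3 := Nat.mul_le_mul_left κ (hR i (by omega))
      omega)
    (fun i hi hi' => by rw [hst i (by omega)]; exact hf i hi (by omega))
    (by rw [hst (N + 1) le_rfl]; exact hd')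
  rw [hst (N + 1) le_rfl] at h3
  have h4 := run_st (K := K) (hco (st (N + 1)))
  have h5 := run_st (K := K) (run_dec (out (st (N + 1))))
  have hp : RunLe (.push (.inl (.inl .C)) true : Cmd (KK K)) (fA (enc s0).bits [])
      (fA (enc s0).bits [true]) 1 := by
    have h := RunLe.push (fA (enc s0).bits []) (.inl (.inl .C) : KK K) true
    have e : update (fA (enc s0).bits []) (.inl (.inl .C) : KK K)
        (true :: fA (enc s0).bits [] (.inl (.inl .C) : KK K)) =
        fA (enc s0).bits [true] := by
      unfold fA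
      rw [full_st, update_C]
      rfl
    rw [e] at h
    exact h
  have hrun := RunLe.seq h1 (RunLe.seq h2 (RunLe.seq hp (RunLe.seq h3 (RunLe.seq h4 h5))))
  obtain ⟨t, ht, hrun⟩ := hrun
  have hBN := hB (N + 1) le_rfl
  have hlen : (out (st (N + 1))).length ≤ Pz.eval B := by
    have h6 := (length_le_sz _).trans ((hPz (st (N + 1))).trans (eval_mono Pz hBN))
    omega
  have hb1 : t + 1 ≤ m := by
    refine le_trans ?_ hm
    have e1 := eval_mono Pi (sz_listBool_le x)
    have e2 := eval_mono Po hBN
    simp only [eval_add, eval_mul, eval_C, eval_X, eval_comp]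
    generalize eval B Pq = u at *
    generalize eval (2 * B + 1) Pn = u' at *
    generalize eval B Po = v at *
    generalize eval B Pz = v1 at *
    generalize eval (sz x) Pi = w at *
    generalize eval (4 * x.length + 1) Pi = w' at *
    generalize eval (4 * B + 1) Pi = w'' at *
    generalize eval x.length Pq = y1 at *
    generalize eval (2 * x.length + 1) Pn = y2 at *
    generalize eval x.length Po = y3 at *
    generalize eval x.length Pz = y4 at *
    generalize eval (sz (st (N + 1))) Po = v' at *
    generalize κ * R = z at *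
    have k1 : (N + 1) * (u + (z + u') + 5) + ((N + 1) * v + (N + 1) * (7 * v1)) ≤
        (N + 1) * (7 * B + 10 + w'' + u + u' + 10 + v + 7 * v1 + 10 + z) := by
      rw [← Nat.mul_add, ← Nat.mul_add]
      exact Nat.mul_le_mul_left _ (by omega)
    have k2 : v ≤ (N + 1) * v := Nat.le_mul_of_pos_left _ (Nat.succ_pos N)
    have k3 : 7 * v1 ≤ (N + 1) * (7 * v1) := Nat.le_mul_of_pos_left _ (Nat.succ_pos N)
    omega
  rw [← update_eq_fA, ← update_eq_fA] at hrun
  have h := Cmd.outputs c (.inl (.inl .A)) (.inl (.inl .A)) hrun m hb1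
  have e : ∀ l : List Bool, List.map (Equiv.refl Bool).symm l = l := fun l => List.map_id l
  have e4 : ∀ x' y' : List Bool, x' = x → y' = out (st (N + 1)) →
      Nonempty (TM2OutputsInTime ((Flow.compile c).toTM (.inl (.inl .A)) (.inl (.inl .A))) x'
        (some y') m) := by
    rintro x' y' rfl rfl
    exact h
  exact e4 _ _ (e x) (e _)

end Pool.Agent.Lib.MP_87d05f_lc.CC
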