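import Pool.Agent.Lib.MP_87d05f_lc.CC.Stm

set_option autoImplicit false

/-! # Piece PL: the number of block constraints -/

namespace Pool.Agent.Lib.MP_87d05f_lc.CC

open Pool.Agent.Lib.MP_87d05f_lc Pool.Agent.Lib.MP_87d05f_lc.SP Pool.Agent.PolyTime

theorem PL_one (v : ℕ) (BL : List (Pt ℕ)) (h : (BL.flatMap Prod.fst).Nodup) :
    (BL.filter (fun b => decide (v ∈ b.1))).length ≤ 1 := by
  induction BL with
  | nil => simp
  | cons b BL ih =>
    rw [List.flatMap_cons, List.nodup_append] at h
    obtain ⟨-, h2, h3⟩ := h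
    by_cases hv : v ∈ b.1
    · have h4 : BL.filter (fun b => decide (v ∈ b.1)) = [] := by
        rw [List.filter_eq_nil_iff]
        intro c hc hvc
        rw [decide_eq_true_eq] at hvc
        exact h3 v hv v (List.mem_flatMap.2 ⟨c, hc, hvc⟩) rfl
      rw [List.filter_cons_of_pos (by simpa using hv), h4]
      simp
    · rw [List.filter_cons_of_neg (by simpa using hv)]
      exact ih h2

theorem PL_flat {α β : Type} (l : List α) (f : α → List β) (n : ℕ) (h : ∀ x ∈ l, (f x).length ≤ n) :
    (l.flatMap f).length ≤ n * l.length := by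
  induction l with
  | nil => simp
  | cons a l ih =>
    rw [List.flatMap_cons, List.length_append, List.length_cons, Nat.mul_succ]
    have h1 := h a (List.mem_cons_self ..)
    have h2 := ih (fun x hx => h x (List.mem_cons_of_mem _ hx))
    omega

theorem p_PL : S_PL := by
  intro d g B K ar φ BL F hK hB
  unfold plT
  refine PL_flat _ _ K fun c _ => ?_
  refine (PL_flat _ _ 1 fun v _ => PL_one v BL hB.1).trans ?_
  rw [one_mul, List.length_ofFn]
  exact hK _

end Pool.Agent.Lib.MP_87d05f_lc.CC
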